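import Pool.Agent.TH227.TM.Decode

/-!
The structure is determined by the coding tree.
-/

open Set Filter Topology

namespace Pool.Agent.TH227.TM

open Classical in
/-- The atomic type of a tuple. -/
noncomputable def info (R : ℕ → ℕ → ℕ → Prop) (t : List ℕ) :
    Σ n : ℕ, (Fin n → Fin n → Fin n → Bool × Bool) :=
  ⟨t.length, fun j p q => (decide (R j (t.getD p 0) (t.getD q 0)),
    decide (t.getD p 0 = t.getD q 0))⟩

/-- The label of a tuple. -/
noncomputable def kap (R : ℕ → ℕ → ℕ → Prop) (t : List ℕ) : ℕ :=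
  Nat.pair t.length (Encodable.encode (info R t))

theorem kap_len (R : ℕ → ℕ → ℕ → Prop) (t : List ℕ) : (kap R t).unpair.1 = t.length := by
  unfold kap
  simp

theorem sigma_eq {n n' : ℕ} {f : Fin n → Fin n → Fin n → Bool × Bool}
    {f' : Fin n' → Fin n' → Fin n' → Bool × Bool}
    (h : (⟨n, f⟩ : Σ n : ℕ, (Fin n → Fin n → Fin n → Bool × Bool)) = ⟨n', f'⟩) :
    n = n' ∧ ∀ (j p q : ℕ) (hj : j < n) (hp : p < n) (hq : q < n) (hj' : j < n') (hp' : p < n')
      (hq' : q < n'), f ⟨j, hj⟩ ⟨p, hp⟩ ⟨q, hq⟩ = f' ⟨j, hj'⟩ ⟨p, hp'⟩ ⟨q, hq'⟩ := by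
  cases h
  exact ⟨rfl, fun _ _ _ _ _ _ _ _ _ => rfl⟩

theorem kap_eq {R R' : ℕ → ℕ → ℕ → Prop} {t t' : List ℕ} (h : kap R t = kap R' t') :
    t.length = t'.length ∧ ∀ j p q, j < t.length → p < t.length → q < t.length →
      ((R j (t.getD p 0) (t.getD q 0) ↔ R' j (t'.getD p 0) (t'.getD q 0)) ∧
        (t.getD p 0 = t.getD q 0 ↔ t'.getD p 0 = t'.getD q 0)) := by
  have h1 : info R t = info R' t' := by
    have h2 := congrArg (fun m => m.unpair.2) h
    simp only [kap, Nat.unpair_pair] at h2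
    exact Encodable.encode_injective h2
  obtain ⟨h3, h4⟩ := sigma_eq h1
  refine ⟨h3, ?_⟩
  intro j p q hj hp hq
  have h5 := h4 j p q hj hp hq (h3 ▸ hj) (h3 ▸ hp) (h3 ▸ hq)
  simp only [Prod.mk.injEq, decide_eq_decide] at h5
  exact h5

/-- Membership in the correspondence. -/
theorem zip_mem {t t' : List ℕ} (hlen : t.length = t'.length) {a b : ℕ}
    (h : (a, b) ∈ t.zip t') : ∃ p, p < t.length ∧ t.getD p 0 = a ∧ t'.getD p 0 = b := by
  obtain ⟨p, hp, h2⟩ := List.mem_iff_getElem.1 h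
  have hp1 : p < t.length := by
    rw [List.length_zip] at hp
    omega
  have hp2 : p < t'.length := by omega
  rw [List.getElem_zip] at h2
  refine ⟨p, hp1, ?_, ?_⟩
  · rw [List.getD_eq_getElem _ _ hp1]
    exact (Prod.ext_iff.1 h2).1
  · rw [List.getD_eq_getElem _ _ hp2]
    exact (Prod.ext_iff.1 h2).2

/-- The back-and-forth argument. -/
theorem iso_of_rel {R R' : ℕ → ℕ → ℕ → Prop} {ρ : List ℕ → List ℕ → Prop} (h0 : ρ [] [])
    (hk : ∀ t t', ρ t t' → kap R t = kap R' t')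
    (h1 : ∀ t t', ρ t t' → ∀ a, ∃ a', ρ (a :: t) (a' :: t'))
    (h2 : ∀ t t', ρ t t' → ∀ a', ∃ a, ρ (a :: t) (a' :: t')) :
    ∃ σ : ℕ ≃ ℕ, ∀ j a b, R j a b ↔ R' j (σ a) (σ b) := by
  have hstep : ∀ (p : {p : List ℕ × List ℕ // ρ p.1 p.2}) (k : ℕ),
      ∃ q : {p : List ℕ × List ℕ // ρ p.1 p.2}, ∃ a b, q.1 = (b :: k :: p.1.1, k :: a :: p.1.2) := by
    rintro ⟨⟨t, t'⟩, h⟩ k
    obtain ⟨a, ha⟩ := h1 t t' h k
    obtain ⟨b, hb⟩ := h2 _ _ ha k
    exact ⟨⟨_, hb⟩, a, b, rfl⟩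
  choose g hg using hstep
  let p : ℕ → {p : List ℕ × List ℕ // ρ p.1 p.2} := fun n =>
    Nat.rec ⟨([], []), h0⟩ (fun k q => g q k) n
  have hp : ∀ k, ∃ a b, (p (k + 1)).1 = (b :: k :: (p k).1.1, k :: a :: (p k).1.2) := fun k =>
    hg (p k) k
  let Z : ℕ → List (ℕ × ℕ) := fun k => (p k).1.1.zip (p k).1.2
  have hZ : ∀ k, ∃ a b, Z (k + 1) = (b, k) :: (k, a) :: Z k := by
    intro k
    obtain ⟨a, b, h⟩ := hp k
    refine ⟨a, b, ?_⟩
    show (p (k + 1)).1.1.zip (p (k + 1)).1.2 = _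
    rw [h]
    rfl
  have hmono : ∀ {k l}, k ≤ l → Z k ⊆ Z l := by
    intro k l h
    induction h with
    | refl => exact fun _ h => h
    | step _ ih =>
      intro q hq
      obtain ⟨a, b, h⟩ := hZ _
      rw [h]
      exact List.mem_cons_of_mem _ (List.mem_cons_of_mem _ (ih hq))
  have hlen : ∀ k, (p k).1.1.length = 2 * k := by
    intro k
    induction k with
    | zero => rfl
    | succ k ih =>
      obtain ⟨a, b, h⟩ := hp k
      rw [h]
      simp [ih]
      ring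
  -- any two members of the correspondence
  have key : ∀ a b c d, (∃ k, (a, b) ∈ Z k) → (∃ k, (c, d) ∈ Z k) →
      (a = c ↔ b = d) ∧ ∀ j, R j a c ↔ R' j b d := by
    rintro a b c d ⟨k, hk1⟩ ⟨l, hl1⟩
    have main : ∀ j, (R j a c ↔ R' j b d) ∧ (a = c ↔ b = d) := by
      intro j
      set n := max (max k l) (j + 1) with hn
      have e1 := hmono ((le_max_left k l).trans (le_max_left _ (j + 1))) hk1
      have e2 := hmono ((le_max_right k l).trans (le_max_left _ (j + 1))) hl1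
      obtain ⟨e3, e4⟩ := kap_eq (hk _ _ (p n).2)
      obtain ⟨x, hx1, hx2, hx3⟩ := zip_mem e3 e1
      obtain ⟨y, hy1, hy2, hy3⟩ := zip_mem e3 e2
      have hj : j < (p n).1.1.length := by
        rw [hlen]
        have : j + 1 ≤ n := le_max_right _ _
        omega
      have e5 := e4 j x y hj hx1 hy1
      rw [hx2, hx3, hy2, hy3] at e5
      exact e5
    exact ⟨(main 0).2, fun j => (main j).1⟩
  have hL : ∀ a, ∃ b, ∃ k, (a, b) ∈ Z k := by
    intro a
    obtain ⟨x, y, h⟩ := hZ a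
    exact ⟨x, a + 1, by rw [h]; simp⟩
  have hR : ∀ b, ∃ a, ∃ k, (a, b) ∈ Z k := by
    intro b
    obtain ⟨x, y, h⟩ := hZ b
    exact ⟨y, b + 1, by rw [h]; simp⟩
  choose f hf using hL
  choose g' hg' using hR
  refine ⟨⟨f, g', ?_, ?_⟩, ?_⟩
  · intro a
    exact ((key _ _ _ _ (hg' (f a)) (hf a)).1).2 rfl
  · intro b
    exact ((key _ _ _ _ (hf (g' b)) (hg' b)).1).1 rfl
  · intro j a b
    exact (key _ _ _ _ (hf a) (hf b)).2 j

/-- Homeomorphic path spaces give isomorphic structures. -/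
theorem iso_of_homeo {R R' : ℕ → ℕ → ℕ → Prop} (H : Path (CT (kap R)) ≃ₜ Path (CT (kap R'))) :
    ∃ σ : ℕ ≃ ℕ, ∀ j a b, R j a b ↔ R' j (σ a) (σ b) := by
  refine iso_of_rel (ρ := rel (kap R) (kap R') H) (rel_nil (kap_len R) (kap_len R') H)
    (fun t t' h => rel_eq (kap_len R) (kap_len R') h)
    (fun t t' h a => rel_ext (kap_len R) (kap_len R') h a) ?_
  intro t t' h a'
  obtain ⟨a, ha⟩ := rel_ext (kap_len R') (kap_len R) (rel_symm h) a'
  exact ⟨a, by
    have := rel_symm ha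
    rwa [Homeomorph.symm_symm] at this⟩

theorem kap_map {R R' : ℕ → ℕ → ℕ → Prop} (σ : ℕ ≃ ℕ) (h : ∀ j a b, R j a b ↔ R' j (σ a) (σ b))
    (t : List ℕ) : kap R' (t.map σ) = kap R t := by
  classical
  have h1 : ∀ p, p < t.length → (t.map σ).getD p 0 = σ (t.getD p 0) := by
    intro p hp
    rw [List.getD_eq_getElem _ _ (by simpa using hp), List.getD_eq_getElem _ _ hp,
      List.getElem_map]
  have key : ∀ (n : ℕ) (t₂ : List ℕ), n = t.length → t₂.length = n →
      (∀ p, p < n → t₂.getD p 0 = σ (t.getD p 0)) →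
      (⟨n, fun j p q => (decide (R' j (t₂.getD p 0) (t₂.getD q 0)),
        decide (t₂.getD p 0 = t₂.getD q 0))⟩ :
        Σ n : ℕ, (Fin n → Fin n → Fin n → Bool × Bool)) = ⟨n, fun j p q =>
          (decide (R j (t.getD p 0) (t.getD q 0)), decide (t.getD p 0 = t.getD q 0))⟩ := by
    intro n t₂ _ _ hp
    congr 1
    funext j p q
    rw [hp p p.2, hp q q.2]
    refine Prod.ext ?_ ?_
    · exact decide_eq_decide.2 (h j _ _).symm
    · exact decide_eq_decide.2 σ.injective.eq_iff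
  have h2 : info R' (t.map σ) = info R t := by
    have hl : (t.map σ).length = t.length := by simp
    have := key t.length (t.map σ) rfl hl h1
    unfold info
    rw [hl]
    exact this
  unfold kap
  rw [h2]
  simp

end Pool.Agent.TH227.TM
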