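import Pool.Agent.TH227.TM.TRep

/-!
The ends of the manifold of a tree have connected neighborhoods.
-/

open Set Filter Topology
open scoped ContDiff RealInnerProductSpace

namespace Pool.Agent.TH227.TM

open Pool.Agent.TH227.CM

variable {E : Type} [NormedAddCommGroup E] [InnerProductSpace ℝ E] {P : Fr E} {T : Set (List ℕ)}
  {z w : MT P T} {s t : List ℕ} {x y : E}

/-- The radii. -/
noncomputable def rho (j : ℕ) : ℝ := 5 * j + 5 / 2

theorem ctr_norm_near {i : ℕ} {r : ℝ} (h : ‖y - P.ctr i‖ < r) : ‖y‖ < 5 * i + r ∧ 5 * i - r < ‖y‖ := by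
  have h1 := P.norm_ctr i
  have h2 : ‖y‖ ≤ ‖y - P.ctr i‖ + ‖P.ctr i‖ := by
    have := norm_add_le (y - P.ctr i) (P.ctr i)
    rwa [sub_add_cancel] at this
  have h3 : ‖P.ctr i‖ ≤ ‖y‖ + ‖y - P.ctr i‖ := by
    have := norm_sub_le y (y - P.ctr i)
    rwa [sub_sub_cancel] at this
  constructor <;> linarith

theorem le_of_suffix_mem (hT : IsTree T) (h : s <:+ t) (ht : t ∈ T) : s ∈ T := by
  obtain ⟨u, rfl⟩ := h
  induction u with
  | nil => exact ht
  | cons a u ih => exact ih (hT.tail a _ ht)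

theorem exists_child (h : s <:+ t) (hne : t ≠ s) : ∃ a, (a :: s) <:+ t := by
  obtain ⟨u, rfl⟩ := h
  rcases List.eq_nil_or_concat u with rfl | ⟨u', a, rfl⟩
  · exact absurd rfl hne
  · refine ⟨a, u', ?_⟩
    simp

/-- The chart domain is connected. -/
theorem dm_preconnected (s : List ℕ) : IsPreconnected (Dm P T s) := by
  have h := holes_preconnected P ({i | (i = 0 ∧ s ≠ []) ∨ ∃ a, a :: s ∈ T ∧ i = a + 1})
    isOpen_univ isPreconnected_univ (fun i _ => subset_univ _)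
  convert h using 1
  ext x
  constructor
  · rintro ⟨h1, h2⟩
    refine ⟨trivial, ?_⟩
    rintro i (⟨rfl, hs⟩ | ⟨a, ha, rfl⟩)
    · rw [P.ctr_zero, sub_zero]
      exact h1 hs
    · exact h2 a ha
  · rintro ⟨_, h1⟩
    refine ⟨fun hs => ?_, fun a ha => h1 _ (Or.inr ⟨a, ha, rfl⟩)⟩
    have := h1 0 (Or.inl ⟨rfl, hs⟩)
    rwa [P.ctr_zero, sub_zero] at this

theorem outer_preconnected (s : List ℕ) (j : ℕ) :
    IsPreconnected {x : E | x ∈ Dm P T s ∧ rho j < ‖x‖} := by
  have hX : IsPreconnected {x : E | rho j < ‖x‖} := by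
    have := shell_preconnected P (0 : E) (R := Ioi (rho j)) isPreconnected_Ioi (fun r hr => by
      have : (0 : ℝ) < rho j := by
        unfold rho
        positivity
      exact this.trans hr)
    simpa using this
  have h := holes_preconnected P ({i | ∃ a, a :: s ∈ T ∧ j ≤ a ∧ i = a + 1})
    (isOpen_lt continuous_const continuous_norm) hX ?_
  · convert h using 1
    ext x
    constructor
    · rintro ⟨h1, h2⟩
      refine ⟨h2, ?_⟩
      rintro i ⟨a, ha, _, rfl⟩
      exact h1.2 a ha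
    · rintro ⟨h2, h1⟩
      have h3 : rho j < ‖x‖ := h2
      refine ⟨⟨fun hs => ?_, fun a ha => ?_⟩, h2⟩
      · unfold rho at h3
        have : (0 : ℝ) ≤ j := by positivity
        linarith
      · by_cases haj : j ≤ a
        · exact h1 _ ⟨a, ha, haj, rfl⟩
        · by_contra hcon
          rw [not_lt] at hcon
          have h4 := (ctr_norm_near (P := P) (i := a + 1) (r := 1) (y := x) (by linarith)).1
          have h5 : ((a + 1 : ℕ) : ℝ) ≤ j := by
            exact_mod_cast (by omega : a + 1 ≤ j)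
          unfold rho at h3
          linarith
  · rintro i ⟨a, ha, haj, rfl⟩ x hx
    rw [Metric.mem_ball, dist_eq_norm] at hx
    have h4 := (ctr_norm_near (P := P) hx).2
    have h5 : (j : ℝ) + 1 ≤ ((a + 1 : ℕ) : ℝ) := by
      exact_mod_cast (by omega : j + 1 ≤ a + 1)
    show rho j < ‖x‖
    unfold rho
    linarith

/-- All points with a coordinate in a chart below `t`. -/
def RR' (P : Fr E) (T : Set (List ℕ)) (t : List ℕ) : Set (MT P T) :=
  {z | ∃ u y, rep z u y ∧ t <:+ u}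

theorem RR_eq (t : List ℕ) : RR' P T t = ⋃ u ∈ {u | u ∈ T ∧ t <:+ u}, ch P T u (Dm P T u) := by
  ext z
  simp only [mem_iUnion]
  constructor
  · rintro ⟨u, y, h1, h2⟩
    exact ⟨u, ⟨(rep_dm h1).1, h2⟩, y, (rep_dm h1).2, h1⟩
  · rintro ⟨u, ⟨_, h2⟩, y, _, h1⟩
    exact ⟨u, y, h1, h2⟩

theorem ch_meet (hs : s ∈ T) {a : ℕ} (ha : a :: s ∈ T) :
    (ch P T s (Dm P T s) ∩ ch P T (a :: s) (Dm P T (a :: s))).Nonempty := by
  have h1 : P.ctr (a + 1) + P.e0 ∈ Ann (P.ctr (a + 1)) := by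
    show 1 / 2 < ‖P.ctr (a + 1) + P.e0 - P.ctr (a + 1)‖ ∧ ‖P.ctr (a + 1) + P.e0 - P.ctr (a + 1)‖ < 2
    rw [add_sub_cancel_left, P.h0]
    norm_num
  have h2 : P.ctr (a + 1) + P.e0 ∈ VV P T s (a :: s) := vv_child.2 ⟨hs, ha, h1⟩
  obtain ⟨z, hz⟩ := exists_pt hs (vv_dm h2)
  have h3 := rep_move hz h2
  exact ⟨z, ⟨_, vv_dm h2, hz⟩, ⟨_, (rep_dm h3).2, h3⟩⟩

theorem RR_preconnected (hT : IsTree T) (t : List ℕ) : IsPreconnected (RR' P T t) := by
  rw [RR_eq]
  refine IsPreconnected.biUnion_of_reflTransGen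
    (fun u hu => ch_preconnected hu.1 subset_rfl (dm_preconnected u)) ?_
  have hdown : ∀ u, u ∈ T → t <:+ u → Relation.ReflTransGen (fun i j =>
      (ch P T i (Dm P T i) ∩ ch P T j (Dm P T j)).Nonempty ∧ i ∈ {u | u ∈ T ∧ t <:+ u}) u t ∧
      Relation.ReflTransGen (fun i j =>
      (ch P T i (Dm P T i) ∩ ch P T j (Dm P T j)).Nonempty ∧ i ∈ {u | u ∈ T ∧ t <:+ u}) t u := by
    rintro u hu ⟨v, rfl⟩
    induction v with
    | nil => exact ⟨Relation.ReflTransGen.refl, Relation.ReflTransGen.refl⟩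
    | cons a v ih =>
      have h1 : v ++ t ∈ T := hT.tail a _ hu
      obtain ⟨h2, h3⟩ := ih h1
      have hm : (ch P T (v ++ t) (Dm P T (v ++ t)) ∩
        ch P T (a :: (v ++ t)) (Dm P T (a :: (v ++ t)))).Nonempty := ch_meet h1 hu
      constructor
      · refine Relation.ReflTransGen.head ⟨?_, ⟨hu, ⟨a :: v, rfl⟩⟩⟩ h2
        rw [inter_comm]
        exact hm
      · exact Relation.ReflTransGen.tail h3 ⟨hm, ⟨h1, ⟨v, rfl⟩⟩⟩
  rintro i ⟨hi, hti⟩ j ⟨hj, htj⟩
  exact (hdown i hi hti).1.trans (hdown j hj htj).2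

/-- The neighborhoods of the end of the node `s`. -/
def Wf (P : Fr E) (T : Set (List ℕ)) (s : List ℕ) (j : ℕ) : Set (MT P T) :=
  {z | (∃ y, rep z s y ∧ rho j < ‖y‖) ∨ ∃ u y, rep z u y ∧ ∃ a, j ≤ a ∧ (a :: s) <:+ u}

theorem exists_far (hs : s ∈ T) (j : ℕ) : ∃ z : MT P T, ∃ y, rep z s y ∧ rho j < ‖y‖ ∧ y ∈ Dm P T s := by
  have hn : ‖(5 * (j : ℝ) + 3) • P.e1‖ = 5 * j + 3 := by
    rw [norm_smul, P.h1, mul_one, Real.norm_of_nonneg (by positivity)]
  have h1 : (5 * (j : ℝ) + 3) • P.e1 ∈ Dm P T s := by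
    refine ⟨fun _ => ?_, fun a _ => ?_⟩
    · rw [hn]
      have : (0 : ℝ) ≤ j := by positivity
      linarith
    · have h2 : ‖(5 * (j : ℝ) + 3) • P.e1 - P.ctr (a + 1)‖ ^ 2 =
          (5 * j + 3) ^ 2 + (5 * ((a + 1 : ℕ) : ℝ)) ^ 2 := by
        rw [@norm_sub_sq ℝ, hn, P.norm_ctr]
        have : ⟪(5 * (j : ℝ) + 3) • P.e1, P.ctr (a + 1)⟫ = 0 := by
          rw [Fr.ctr, inner_smul_left, inner_smul_right, real_inner_comm, P.h01]
          simp
        simp [this]
      by_contra hcon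
      rw [not_lt] at hcon
      have h3 : ‖(5 * (j : ℝ) + 3) • P.e1 - P.ctr (a + 1)‖ ^ 2 ≤ (1 / 2) ^ 2 :=
        pow_le_pow_left₀ (norm_nonneg _) hcon 2
      rw [h2] at h3
      have : (0 : ℝ) ≤ j := by positivity
      nlinarith [sq_nonneg (5 * ((a + 1 : ℕ) : ℝ))]
  obtain ⟨z, hz⟩ := exists_pt hs h1
  refine ⟨z, _, hz, ?_, h1⟩
  rw [hn]
  unfold rho
  linarith

theorem Wf_preconnected (hT : IsTree T) (hs : s ∈ T) (j : ℕ) : IsPreconnected (Wf P T s j) := by
  set A : Set (MT P T) := ch P T s {x : E | x ∈ Dm P T s ∧ rho j < ‖x‖} with hA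
  have hAc : IsPreconnected A := ch_preconnected hs (fun x hx => hx.1) (outer_preconnected s j)
  obtain ⟨z₀, y₀, hz₀, hy₀, hy₀'⟩ := exists_far (P := P) hs j
  have hz₀A : z₀ ∈ A := ⟨y₀, ⟨hy₀', hy₀⟩, hz₀⟩
  have h1 : Wf P T s j = ⋃₀ ({A} ∪ {B | ∃ a, j ≤ a ∧ a :: s ∈ T ∧ B = A ∪ RR' P T (a :: s)}) := by
    ext z
    constructor
    · rintro (⟨y, h1, h2⟩ | ⟨u, y, h1, a, h2, h3⟩)
      · exact ⟨A, Or.inl rfl, y, ⟨(rep_dm h1).2, h2⟩, h1⟩
      · refine ⟨A ∪ RR' P T (a :: s), Or.inr ⟨a, h2, le_of_suffix_mem hT h3 (rep_dm h1).1, rfl⟩,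
          Or.inr ⟨u, y, h1, h3⟩⟩
    · rintro ⟨B, hB, hz⟩
      rcases hB with rfl | ⟨a, h2, h3, rfl⟩
      · obtain ⟨y, hy, h4⟩ := hz
        exact Or.inl ⟨y, h4, hy.2⟩
      · rcases hz with ⟨y, hy, h4⟩ | ⟨u, y, h4, h5⟩
        · exact Or.inl ⟨y, h4, hy.2⟩
        · exact Or.inr ⟨u, y, h4, a, h2, h5⟩
  rw [h1]
  refine isPreconnected_sUnion z₀ _ ?_ ?_
  · rintro B (rfl | ⟨a, _, _, rfl⟩)
    · exact hz₀A
    · exact Or.inl hz₀A
  · rintro B (rfl | ⟨a, h2, h3, rfl⟩)
    · exact hAc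
    · obtain ⟨y, hy⟩ : ∃ y : E, y ∈ Ann (P.ctr (a + 1)) := ⟨P.ctr (a + 1) + P.e0, by
        show 1 / 2 < ‖P.ctr (a + 1) + P.e0 - P.ctr (a + 1)‖ ∧
          ‖P.ctr (a + 1) + P.e0 - P.ctr (a + 1)‖ < 2
        rw [add_sub_cancel_left, P.h0]
        norm_num⟩
      have h4 : y ∈ VV P T s (a :: s) := vv_child.2 ⟨hs, h3, hy⟩
      obtain ⟨z, hz⟩ := exists_pt hs (vv_dm h4)
      have h5 := rep_move hz h4
      refine IsPreconnected.union z ⟨y, ⟨vv_dm h4, ?_⟩, hz⟩ ⟨_, _, h5, List.suffix_refl _⟩ hAc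
        (RR_preconnected hT _)
      have h6 := (ctr_norm_near (P := P) hy.2).2
      have h7 : (j : ℝ) + 1 ≤ ((a + 1 : ℕ) : ℝ) := by
        exact_mod_cast (by omega : j + 1 ≤ a + 1)
      unfold rho
      linarith

theorem Wf_sub_UU (s : List ℕ) (j : ℕ) : Wf P T s j ⊆ UU P T s := by
  rintro z (⟨y, h1, h2⟩ | ⟨u, y, h1, a, _, h3⟩)
  · refine ⟨s, y, h1, List.suffix_refl _, fun _ _ => ?_⟩
    unfold rho at h2
    have : (0 : ℝ) ≤ j := by positivity
    linarith
  · refine ⟨u, y, h1, (List.suffix_cons _ _).trans h3, ?_⟩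
    rintro rfl
    exact absurd h3 (not_suffix_cons _ _)

theorem UU_sub_of_suffix (hst : s <:+ t) : UU P T t ⊆ UU P T s := by
  by_cases h : t = s
  · subst h
    exact subset_rfl
  · rintro z ⟨u, y, h1, h2, _⟩
    refine ⟨u, y, h1, hst.trans h2, ?_⟩
    rintro rfl
    exact absurd (h2.eq_of_length_le hst.length_le) h

theorem UU_disjoint (h1 : ¬ s <:+ t) (h2 : ¬ t <:+ s) (hz : z ∈ UU P T s) (hz' : z ∈ UU P T t) :
    False := by
  obtain ⟨u, y, h3, h4, _⟩ := hz
  obtain ⟨u', y', h3', h4', _⟩ := hz'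
  have key : ∀ v, s <:+ v → t <:+ v → False := by
    intro v h5 h6
    rcases List.suffix_or_suffix_of_suffix h5 h6 with h | h
    · exact h1 h
    · exact h2 h
  rcases rep_comparable h3 h3' with h | h
  · exact key u' (h4.trans h) h4'
  · exact key u h4 (h4'.trans h)

theorem Wf_disjoint_child {a j : ℕ} (haj : a < j) (hz : z ∈ Wf P T s j)
    (hz' : z ∈ UU P T (a :: s)) : False := by
  obtain ⟨u', y', h3', h4', h5'⟩ := hz'
  rcases hz with ⟨y, h1, h2⟩ | ⟨u, y, h1, b, h2, h3⟩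
  · rcases rep_cases h1 h3' with ⟨rfl, _⟩ | ⟨b, rfl, h6, h7⟩ | ⟨b, rfl, _⟩
    · exact not_suffix_cons _ _ h4'
    · have h8 : a = b := by
        have := h4'.eq_of_length (by simp)
        exact (List.cons.inj this).1
      subst h8
      have h9 := h5' rfl (by simp)
      rw [h7] at h9
      have h10 := (nv_gt (ann_ne h6.1)).1 h9
      have h11 := (ctr_norm_near (P := P) h10).1
      have h12 : ((a + 1 : ℕ) : ℝ) ≤ j := by exact_mod_cast haj
      unfold rho at h2
      linarith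
    · have := h4'.length_le
      simp at this
  · have key : ∀ v, (a :: s) <:+ v → (b :: s) <:+ v → False := by
      intro v h5 h6
      have : (a :: s) = (b :: s) := by
        rcases List.suffix_or_suffix_of_suffix h5 h6 with h | h
        · exact h.eq_of_length (by simp)
        · exact (h.eq_of_length (by simp)).symm
      have := (List.cons.inj this).1
      omega
    rcases rep_comparable h1 h3' with h | h
    · exact key u' h4' (h3.trans h)
    · exact key u (h4'.trans h) h3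

theorem Wf_anti {j k : ℕ} (h : j ≤ k) : Wf P T s k ⊆ Wf P T s j := by
  rintro z (⟨y, h1, h2⟩ | ⟨u, y, h1, a, h2, h3⟩)
  · left
    refine ⟨y, h1, lt_of_le_of_lt ?_ h2⟩
    unfold rho
    have : (j : ℝ) ≤ k := by exact_mod_cast h
    linarith
  · exact Or.inr ⟨u, y, h1, a, h.trans h2, h3⟩

theorem RR_anti (hst : s <:+ t) : RR' P T t ⊆ RR' P T s := by
  rintro z ⟨u, y, h1, h2⟩
  exact ⟨u, y, h1, hst.trans h2⟩

/-- Compactness argument. -/
theorem leave_compact {M : Type} [TopologicalSpace M] {W : ℕ → Set M} (hW : Antitone W)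
    (h : ∀ z : M, ∃ j, ∃ O ∈ 𝓝 z, O ∩ W j = ∅) {C : Set M} (hC : IsCompact C) :
    ∃ j, C ∩ W j = ∅ := by
  refine hC.induction_on (p := fun C => ∃ j, C ∩ W j = ∅) ?_ ?_ ?_ ?_
  · exact ⟨0, by simp⟩
  · rintro A B hAB ⟨j, hj⟩
    exact ⟨j, by
      rw [eq_empty_iff_forall_notMem] at hj ⊢
      rintro m ⟨h1, h2⟩
      exact hj m ⟨hAB h1, h2⟩⟩
  · rintro A B ⟨j, hj⟩ ⟨k, hk⟩
    refine ⟨max j k, ?_⟩
    rw [eq_empty_iff_forall_notMem] at hj hk ⊢
    rintro m ⟨h1 | h1, h2⟩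
    · exact hj m ⟨h1, hW (le_max_left _ _) h2⟩
    · exact hk m ⟨h1, hW (le_max_right _ _) h2⟩
  · intro z _
    obtain ⟨j, O, hO, hj⟩ := h z
    exact ⟨O, mem_nhdsWithin_of_mem_nhds hO, j, hj⟩

theorem Wf_leave (z : MT P T) (s : List ℕ) : ∃ j, ∃ O ∈ 𝓝 z, O ∩ Wf P T s j = ∅ := by
  obtain ⟨t, y, h⟩ := rep_exists z
  obtain ⟨j, hj⟩ := exists_nat_gt (‖y‖ + (t.sum : ℝ))
  have hj1 : ‖y‖ < j := by
    have : (0 : ℝ) ≤ t.sum := by positivity
    linarith
  have hj2 : ∀ a ∈ t, a < j := by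
    intro a ha
    have h1 : a ≤ t.sum := List.le_sum_of_mem ha
    have h2 : ((a : ℕ) : ℝ) ≤ t.sum := by exact_mod_cast h1
    have h3 : (a : ℝ) < j := by
      have := norm_nonneg y
      linarith
    exact_mod_cast h3
  refine ⟨j, ch P T t {y' | ‖y'‖ < j}, (ch_open t (isOpen_lt continuous_norm continuous_const)).mem_nhds
    ⟨y, hj1, h⟩, ?_⟩
  rw [eq_empty_iff_forall_notMem]
  rintro z' ⟨⟨y', hy', h'⟩, hW⟩
  have hy'' : ‖y'‖ < j := hy'
  rcases hW with ⟨y₂, h1, h2⟩ | ⟨u, y₂, h1, a, h2, h3⟩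
  · unfold rho at h2
    rcases rep_cases h1 h' with ⟨_, rfl⟩ | ⟨a, rfl, h5, _⟩ | ⟨a, _, h5, _⟩
    · have : (0 : ℝ) ≤ j := by positivity
      linarith
    · have h6 := hj2 a (by simp)
      have h7 := (ctr_norm_near (P := P) h5.2).1
      have h8 : ((a + 1 : ℕ) : ℝ) ≤ j := by exact_mod_cast h6
      linarith
    · have := (ann_zero.1 h5).2
      have : (0 : ℝ) ≤ j := by positivity
      linarith
  · have hmem : ∀ v : List ℕ, (a :: s) <:+ v → a ∈ v := fun v hv => hv.mem (by simp)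
    have hat : a ∉ t := fun hat => absurd (hj2 a hat) (by omega)
    rcases rep_cases h' h1 with ⟨rfl, _⟩ | ⟨b, rfl, h5, _⟩ | ⟨b, rfl, _⟩
    · exact hat (hmem _ h3)
    · rcases List.suffix_cons_iff.1 h3 with h6 | h6
      · obtain ⟨rfl, rfl⟩ := List.cons.inj h6
        have h7 := (ctr_norm_near (P := P) h5.2).2
        have h8 : (j : ℝ) + 1 ≤ ((a + 1 : ℕ) : ℝ) := by exact_mod_cast (by omega : j + 1 ≤ a + 1)
        have : (0 : ℝ) ≤ j := by positivity
        linarith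
      · exact hat (hmem _ h6)
    · exact hat (hmem _ (h3.trans (List.suffix_cons _ _)))

theorem RR_leave (z : MT P T) : ∃ j, ∃ O ∈ 𝓝 z, ∀ t : List ℕ, j ≤ t.length →
    O ∩ RR' P T t = ∅ := by
  obtain ⟨s, y, h⟩ := rep_exists z
  refine ⟨s.length + 2, ch P T s univ, (ch_open s isOpen_univ).mem_nhds ⟨y, trivial, h⟩, ?_⟩
  intro t ht
  rw [eq_empty_iff_forall_notMem]
  rintro z' ⟨⟨y', _, h'⟩, u, y₂, h1, h2⟩
  have h3 := rep_length h' h1
  have h4 := h2.length_le
  omega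

/-- The compact part of the piece of the node `s`. -/
theorem core_compact [FiniteDimensional ℝ E] (hs : s ∈ T) (j : ℕ) :
    IsCompact (ch P T s {y | ‖y‖ ≤ rho j ∧ (s ≠ [] → 1 ≤ ‖y‖) ∧
      ∀ a, a :: s ∈ T → 1 ≤ ‖y - P.ctr (a + 1)‖}) := by
  have : ProperSpace E := FiniteDimensional.proper_real E
  refine ch_compact hs ?_ ?_
  · rintro y ⟨_, h2, h3⟩
    exact ⟨fun h => by linarith [h2 h], fun a ha => by linarith [h3 a ha]⟩
  · refine (isCompact_closedBall (0 : E) (rho j)).of_isClosed_subset ?_ ?_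
    · have : {y : E | ‖y‖ ≤ rho j ∧ (s ≠ [] → 1 ≤ ‖y‖) ∧
          ∀ a, a :: s ∈ T → 1 ≤ ‖y - P.ctr (a + 1)‖} =
          {y : E | ‖y‖ ≤ rho j} ∩ ((⋂ _ : s ≠ [], {y : E | 1 ≤ ‖y‖}) ∩
            ⋂ a, ⋂ _ : a :: s ∈ T, {y : E | 1 ≤ ‖y - P.ctr (a + 1)‖}) := by
        ext y
        simp only [mem_inter_iff, mem_iInter, mem_ofPred_eq]
      rw [this]
      refine (isClosed_le continuous_norm continuous_const).inter (IsClosed.inter ?_ ?_)
      · exact isClosed_iInter fun _ => isClosed_le continuous_const continuous_norm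
      · exact isClosed_iInter fun a => isClosed_iInter fun _ =>
          isClosed_le continuous_const (by fun_prop)
    · rintro y ⟨h1, _⟩
      rw [mem_closedBall_zero_iff]
      exact h1

variable [FiniteDimensional ℝ E]

theorem Wf_mem (hT : IsTree T) {x : Path T} (hs : x.f s = true)
    (hend : ∀ a, x.f (a :: s) = false) (j : ℕ) : Wf P T s j ∈ (tcut P hT).fil x := by
  have hsT := x.sub s hs
  have h1 := (tcut P hT).fil_mem x hsT
  have h2 := (tcut P hT).fil_compact x (core_compact (P := P) hsT j)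
  have h3 : ∀ a ∈ Finset.range j, {m | a :: s ∈ T → m ∉ UU P T (a :: s)} ∈ (tcut P hT).fil x := by
    intro a _
    by_cases ha : a :: s ∈ T
    · filter_upwards [(tcut P hT).fil_mem x ha] with m hm _ hmU
      have := hm.1 hmU
      rw [hend a] at this
      exact Bool.false_ne_true this
    · filter_upwards with m hm
      exact absurd hm ha
  have h4 := (Filter.biInter_finset_mem (Finset.range j)).2 h3
  filter_upwards [h1, h2, h4] with z z1 z2 z3
  have z1' : z ∈ UU P T s := z1.2 hs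
  have z3' : ∀ a, a < j → a :: s ∈ T → z ∉ UU P T (a :: s) := by
    intro a ha
    exact mem_iInter₂.1 z3 a (Finset.mem_range.2 ha)
  by_contra hW
  obtain ⟨t, y, h5, h6, h7⟩ := z1'
  -- a coordinate in the chart of `s` outside the children
  have key : ∀ y : E, rep z s y → (s ≠ [] → 1 ≤ ‖y‖) → False := by
    intro y hy hy1
    by_cases h8 : rho j < ‖y‖
    · exact hW (Or.inl ⟨y, hy, h8⟩)
    rw [not_lt] at h8
    by_cases h9 : ∃ a, a :: s ∈ T ∧ ‖y - P.ctr (a + 1)‖ < 1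
    · obtain ⟨a, ha, h10⟩ := h9
      have hc : 1 / 2 < ‖y - P.ctr (a + 1)‖ := (rep_dm hy).2.2 a ha
      have h11 := rep_move hy (vv_child.2 ⟨hsT, ha, hc, by linarith⟩)
      rw [raw_child] at h11
      by_cases haj : j ≤ a
      · exact hW (Or.inr ⟨_, _, h11, a, haj, List.suffix_refl _⟩)
      · exact z3' a (by omega) ha ⟨_, _, h11, List.suffix_refl _,
          fun _ _ => (nv_gt (ann_ne hc)).2 h10⟩
    · push Not at h9
      exact z2 ⟨y, ⟨h8, hy1, h9⟩, hy⟩
  by_cases hts : t = s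
  · subst hts
    exact key y h5 fun hne => (h7 rfl hne).le
  · obtain ⟨a, ha⟩ := exists_child h6 hts
    have haT : a :: s ∈ T := le_of_suffix_mem hT ha (rep_dm h5).1
    by_cases haj : j ≤ a
    · exact hW (Or.inr ⟨t, y, h5, a, haj, ha⟩)
    · by_cases h8 : t = a :: s
      · subst h8
        by_cases h9 : 1 < ‖y‖
        · exact z3' a (by omega) haT ⟨_, y, h5, List.suffix_refl _, fun _ _ => h9⟩
        · rw [not_lt] at h9
          have h10 := (rep_dm h5).2.1 (by simp)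
          have h11 : y ∈ Ann (0 : E) := ann_zero.2 ⟨h10, by linarith⟩
          have h12 := rep_move h5 (vv_parent.2 ⟨hsT, haT, h11⟩)
          rw [raw_parent] at h12
          refine key _ h12 fun _ => ?_
          have h13 : ‖nv y + P.ctr (a + 1) - P.ctr (a + 1)‖ < 2 := by
            rw [add_sub_cancel_right]
            exact (nv_ann (ann_zero.1 h11)).2
          have h14 := ann_far (P := P) (i := a + 1) (j := 0) (by omega) h13
          rw [P.ctr_zero, sub_zero] at h14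
          linarith
      · exact z3' a (by omega) haT ⟨t, y, h5, ha, fun h => absurd h h8⟩

theorem Wf_small (hT : IsTree T) {x : Path T} (hs : x.f s = true)
    (hend : ∀ a, x.f (a :: s) = false) {A : Set (MT P T)} (hA : A ∈ (tcut P hT).fil x) :
    ∃ j, Wf P T s j ⊆ A := by
  obtain ⟨F, hF, C, hC, hsub⟩ := (tcut P hT).fil_basis x hA
  obtain ⟨j₁, hj₁⟩ := leave_compact (W := fun j => Wf P T s j) (fun _ _ h => Wf_anti h)
    (fun z => Wf_leave z s) hC
  have h1 : ∃ j₂, ∀ t ∈ F, ∀ j, j₂ ≤ j → ∀ z ∈ Wf P T s j, (z ∈ UU P T t ↔ x.f t = true) := by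
    have h2 : ∀ t ∈ F, ∃ j₂, ∀ j, j₂ ≤ j → ∀ z ∈ Wf P T s j, (z ∈ UU P T t ↔ x.f t = true) := by
      intro t ht
      by_cases hxt : x.f t = true
      · have h3 : t <:+ s := by
          rcases Nat.le_total t.length s.length with h | h
          · exact x.comparable hxt hs h
          · have h4 := x.comparable hs hxt h
            by_cases h5 : t = s
            · rw [h5]
            · obtain ⟨a, ha⟩ := exists_child h4 h5
              have := x.suffix ha hxt
              rw [hend a] at this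
              exact absurd this Bool.false_ne_true
        exact ⟨0, fun j _ z hz => ⟨fun _ => hxt, fun _ => UU_sub_of_suffix h3 (Wf_sub_UU s j hz)⟩⟩
      · by_cases h3 : t <:+ s
        · exact absurd (x.suffix h3 hs) hxt
        · by_cases h4 : s <:+ t
          · have h5 : t ≠ s := by
              rintro rfl
              exact hxt hs
            obtain ⟨a, ha⟩ := exists_child h4 h5
            refine ⟨a + 1, fun j hj z hz => ⟨fun h6 => ?_, fun h6 => absurd h6 hxt⟩⟩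
            exact (Wf_disjoint_child hj hz (UU_sub_of_suffix ha h6)).elim
          · refine ⟨0, fun j _ z hz => ⟨fun h6 => ?_, fun h6 => absurd h6 hxt⟩⟩
            exact (UU_disjoint h4 h3 (Wf_sub_UU s j hz) h6).elim
    choose! f hf using h2
    refine ⟨F.sup f, fun t ht j hj => hf t ht j ((Finset.le_sup ht).trans hj)⟩
  obtain ⟨j₂, hj₂⟩ := h1
  refine ⟨max j₁ j₂, ?_⟩
  intro z hz
  apply hsub
  refine ⟨?_, fun t ht => hj₂ t ht _ (le_max_right _ _) z hz⟩
  intro hzC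
  rw [eq_empty_iff_forall_notMem] at hj₁
  exact hj₁ z ⟨hzC, Wf_anti (le_max_left _ _) hz⟩

theorem RR_small (hT : IsTree T) {x : Path T} (hinf : ∀ s, x.f s = true → ∃ a, x.f (a :: s) = true)
    {A : Set (MT P T)} (hA : A ∈ (tcut P hT).fil x) :
    ∃ t, x.f t = true ∧ RR' P T t ⊆ A := by
  obtain ⟨F, hF, C, hC, hsub⟩ := (tcut P hT).fil_basis x hA
  have hlong : ∀ n, ∃ t, x.f t = true ∧ t.length = n := by
    intro n
    induction n with
    | zero => exact ⟨[], x.nil, rfl⟩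
    | succ n ih =>
      obtain ⟨t, ht, hn⟩ := ih
      obtain ⟨a, ha⟩ := hinf t ht
      exact ⟨a :: t, ha, by simp [hn]⟩
  obtain ⟨j, hj⟩ : ∃ j, C ∩ {z | ∃ t : List ℕ, j ≤ t.length ∧ z ∈ RR' P T t} = ∅ := by
    refine leave_compact (W := fun j => {z : MT P T | ∃ t : List ℕ, j ≤ t.length ∧ z ∈ RR' P T t})
      ?_ ?_ hC
    · rintro j k hjk z ⟨t, h1, h2⟩
      exact ⟨t, le_trans hjk h1, h2⟩
    · intro z
      obtain ⟨j, O, hO, h⟩ := RR_leave z
      refine ⟨j, O, hO, ?_⟩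
      rw [eq_empty_iff_forall_notMem]
      rintro z' ⟨h1, t, h2, h3⟩
      have := h t h2
      rw [eq_empty_iff_forall_notMem] at this
      exact this z' ⟨h1, h3⟩
  obtain ⟨t, ht, htn⟩ := hlong (max j (F.sup List.length + 1))
  refine ⟨t, ht, ?_⟩
  intro z hz
  apply hsub
  constructor
  · intro hzC
    rw [eq_empty_iff_forall_notMem] at hj
    exact hj z ⟨hzC, t, by rw [htn]; exact le_max_left _ _, hz⟩
  · intro s hs
    have hlen : s.length < t.length := by
      have h1 : s.length ≤ F.sup List.length := Finset.le_sup hs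
      have h2 : F.sup List.length + 1 ≤ t.length := by
        rw [htn]
        exact le_max_right _ _
      omega
    obtain ⟨u, y, h1, h2⟩ := hz
    constructor
    · rintro ⟨u', y', h3, h4, _⟩
      have key : ∀ v, t <:+ v → s <:+ v → x.f s = true := by
        intro v h5 h6
        exact x.suffix (List.suffix_of_suffix_length_le h6 h5 hlen.le) ht
      rcases rep_comparable h1 h3 with h | h
      · exact key u' (h2.trans h) h4
      · exact key u h2 (h4.trans h)
    · intro hxs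
      have h3 := x.comparable hxs ht hlen.le
      refine ⟨u, y, h1, h3.trans h2, ?_⟩
      rintro rfl
      have := h2.length_le
      omega

theorem tcut_conn (hT : IsTree T) : (tcut P hT).Conn := by
  have key : ∀ x : Path T, ∀ A ∈ (tcut P hT).fil x, ∃ B ∈ (tcut P hT).fil x,
      B ⊆ A ∧ IsPreconnected B ∧ B.Nonempty := by
    intro x A hA
    by_cases h : ∃ s, x.f s = true ∧ ∀ a, x.f (a :: s) = false
    · obtain ⟨s, hs, hend⟩ := h
      obtain ⟨j, hj⟩ := Wf_small hT hs hend hA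
      refine ⟨Wf P T s j, Wf_mem hT hs hend j, hj, Wf_preconnected hT (x.sub s hs) j, ?_⟩
      obtain ⟨z, y, h1, h2, _⟩ := exists_far (P := P) (x.sub s hs) j
      exact ⟨z, Or.inl ⟨y, h1, h2⟩⟩
    · have hinf : ∀ s, x.f s = true → ∃ a, x.f (a :: s) = true := by
        intro s hs
        by_contra hcon
        push Not at hcon
        exact h ⟨s, hs, fun a => Bool.eq_false_iff.2 (hcon a)⟩
      obtain ⟨t, ht, htA⟩ := RR_small hT hinf hA
      refine ⟨RR' P T t, ?_, htA, RR_preconnected hT t, ?_⟩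
      · filter_upwards [(tcut P hT).fil_mem x (x.sub t ht)] with z hz
        obtain ⟨u, y, h1, h2, _⟩ := hz.2 ht
        exact ⟨u, y, h1, h2⟩
      · obtain ⟨z, y, h1, _, _⟩ := exists_far (P := P) (x.sub t ht) 0
        exact ⟨z, t, y, h1, List.suffix_refl _⟩
  refine ⟨fun x => ?_, fun x A hA => ?_⟩
  · rw [Filter.neBot_iff]
    intro hbot
    obtain ⟨B, hB, hBA, _, hne⟩ := key x ∅ (by rw [hbot]; exact mem_bot)
    exact hne.not_subset_empty hBA
  · obtain ⟨B, hB, hBA, hc, _⟩ := key x A hA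
    exact ⟨B, hB, hBA, hc⟩

omit [FiniteDimensional ℝ E] in
/-- The manifold of a tree is connected. -/
theorem MT_connected (hT : IsTree T) : ConnectedSpace (MT P T) := by
  have h1 : RR' P T [] = univ := by
    rw [eq_univ_iff_forall]
    intro z
    obtain ⟨t, y, h⟩ := rep_exists z
    exact ⟨t, y, h, List.nil_suffix⟩
  have h2 := RR_preconnected (P := P) hT []
  rw [h1] at h2
  obtain ⟨z, _⟩ := exists_far (P := P) hT.nil 0
  exact { isPreconnected_univ := h2, toNonempty := ⟨z⟩ }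

/-- Homeomorphic manifolds of trees have homeomorphic path spaces. -/
theorem path_homeo {E' : Type} [NormedAddCommGroup E'] [InnerProductSpace ℝ E']
    [FiniteDimensional ℝ E'] {P' : Fr E'} {T' : Set (List ℕ)} (hT : IsTree T) (hT' : IsTree T')
    (h : MT P T ≃ₜ MT P' T') : Nonempty (Path T ≃ₜ Path T') :=
  (tcut P hT).homeo (tcut_conn hT) hT (tcut P' hT') (tcut_conn hT') hT' h

end Pool.Agent.TH227.TM
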