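import Pool.Agent.TH227.TM.Model

/-!
Diffeomorphisms of the Euclidean space which permute the holes by translations.
-/

open Set Filter Topology
open scoped ContDiff RealInnerProductSpace Manifold

namespace Pool.Agent.TH227.TM

/-- Smooth functions with prescribed values near the multiples of `5`. -/
theorem exists_step (u : ℕ → ℝ) : ∃ g : ℝ → ℝ, ContDiff ℝ ∞ g ∧
    ∀ (i : ℕ) (r : ℝ), |r - 5 * i| < 2 → g r = u i := by
  have hsep : ∀ {i j : ℕ} {r : ℝ}, |r - 5 * i| < 5 / 2 → |r - 5 * j| < 5 / 2 → i = j := by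
    intro i j r h1 h2
    by_contra hne
    have h3 : (1 : ℝ) ≤ |(i : ℝ) - j| := by
      have h3 : (1 : ℤ) ≤ |(i : ℤ) - j| := by
        apply Int.one_le_abs
        omega
      exact_mod_cast h3
    have h4 : |(5 * i : ℝ) - 5 * j| ≤ |r - 5 * i| + |r - 5 * j| := by
      have : (5 * i : ℝ) - 5 * j = (r - 5 * j) - (r - 5 * i) := by ring
      rw [this]
      exact (abs_sub _ _).trans (by rw [add_comm])
    have h5 : |(5 * i : ℝ) - 5 * j| = 5 * |(i : ℝ) - j| := by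
      rw [← mul_sub, abs_mul]
      norm_num
    linarith
  have ht : ∀ r : ℝ, Convex ℝ {y : ℝ | ∀ i : ℕ, |r - 5 * i| < 2 → y = u i} := by
    intro r x hx y hy a b ha hb hab i hi
    have h1 : x = u i := hx i hi
    have h2 : y = u i := hy i hi
    show a • x + b • y = u i
    rw [h1, h2, ← add_smul, hab, one_smul]
  have hl : ∀ r : ℝ, ∃ c : ℝ, ∀ᶠ y : ℝ in 𝓝 r, c ∈ {y' : ℝ | ∀ i : ℕ, |y - 5 * i| < 2 → y' = u i} := by
    intro r
    by_cases h : ∃ i : ℕ, |r - 5 * i| < 9 / 4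
    · obtain ⟨i, hi⟩ := h
      refine ⟨u i, ?_⟩
      filter_upwards [Metric.ball_mem_nhds r (show (0 : ℝ) < 1 / 4 by norm_num)] with y hy j hj
      rw [Metric.mem_ball, Real.dist_eq] at hy
      have h1 : |y - 5 * i| < 5 / 2 := by
        have : y - 5 * i = (y - r) + (r - 5 * i) := by ring
        rw [this]
        exact (abs_add_le _ _).trans_lt (by linarith)
      have := hsep h1 (show |y - 5 * j| < 5 / 2 by linarith)
      rw [this]
    · push Not at h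
      refine ⟨0, ?_⟩
      filter_upwards [Metric.ball_mem_nhds r (show (0 : ℝ) < 1 / 4 by norm_num)] with y hy j hj
      exfalso
      rw [Metric.mem_ball, Real.dist_eq] at hy
      have h1 := h j
      have : r - 5 * j = (r - y) + (y - 5 * j) := by ring
      rw [this] at h1
      have h2 := abs_add_le (r - y) (y - 5 * j)
      rw [abs_sub_comm r y] at h2
      linarith
  obtain ⟨g, hg⟩ := exists_contMDiffMap_forall_mem_convex_of_local_const (I := 𝓘(ℝ, ℝ)) (M := ℝ)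
    (F := ℝ) (n := (⊤ : ℕ∞)) ht hl
  refine ⟨g, ?_, fun i r hr => hg r i hr⟩
  have := g.contMDiff
  rwa [contMDiff_iff_contDiff] at this

variable {E : Type} [NormedAddCommGroup E] [InnerProductSpace ℝ E]

/-- A diffeomorphism of the whole space. -/
structure Dif (E : Type) [NormedAddCommGroup E] [NormedSpace ℝ E] where
  f : E → E
  g : E → E
  fs : ContDiff ℝ ∞ f
  gs : ContDiff ℝ ∞ g
  gf : ∀ x, g (f x) = x
  fg : ∀ x, f (g x) = x

/-- Composition. -/
def Dif.comp (A B : Dif E) : Dif E where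
  f := A.f ∘ B.f
  g := B.g ∘ A.g
  fs := A.fs.comp B.fs
  gs := B.gs.comp A.gs
  gf x := by
    show B.g (A.g (A.f (B.f x))) = x
    rw [A.gf, B.gf]
  fg x := by
    show A.f (B.f (B.g (A.g x))) = x
    rw [B.fg, A.fg]

/-- A shear in the direction `v` depending on the coordinate in the direction `w`. -/
def shear (v w : E) (h : ⟪w, v⟫ = 0) (g : ℝ → ℝ) (hg : ContDiff ℝ ∞ g) : Dif E where
  f x := x + g ⟪w, x⟫ • v
  g x := x - g ⟪w, x⟫ • v
  fs := contDiff_id.add ((hg.comp (contDiff_const.inner ℝ contDiff_id)).smul contDiff_const)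
  gs := contDiff_id.sub ((hg.comp (contDiff_const.inner ℝ contDiff_id)).smul contDiff_const)
  gf x := by
    show x + g ⟪w, x⟫ • v - g ⟪w, x + g ⟪w, x⟫ • v⟫ • v = x
    rw [inner_add_right, inner_smul_right, h, mul_zero, add_zero]
    abel
  fg x := by
    show x - g ⟪w, x⟫ • v + g ⟪w, x - g ⟪w, x⟫ • v⟫ • v = x
    rw [inner_sub_right, inner_smul_right, h, mul_zero, sub_zero]
    abel

/-- Every permutation of the holes is induced by a diffeomorphism which is a translation near each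
hole. -/
theorem exists_perm (P : Fr E) (ρ : ℕ ≃ ℕ) : ∃ D : Dif E,
    ∀ (i : ℕ) (x : E), ‖x - P.ctr i‖ < 2 → D.f x = x + (P.ctr (ρ i) - P.ctr i) := by
  obtain ⟨g₁, hg₁, h₁⟩ := exists_step (fun i => 5 * (i : ℝ))
  obtain ⟨g₂, hg₂, h₂⟩ := exists_step (fun i => 5 * ((ρ i : ℕ) : ℝ) - 5 * (i : ℝ))
  obtain ⟨g₃, hg₃, h₃⟩ := exists_step (fun i => - (5 * ((ρ.symm i : ℕ) : ℝ)))
  have h10 : ⟪P.e1, P.e0⟫ = 0 := by
    rw [real_inner_comm]
    exact P.h01
  have h00 : ⟪P.e0, P.e0⟫ = (1 : ℝ) := by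
    rw [real_inner_self_eq_norm_sq, P.h0]
    norm_num
  have h11 : ⟪P.e1, P.e1⟫ = (1 : ℝ) := by
    rw [real_inner_self_eq_norm_sq, P.h1]
    norm_num
  refine ⟨(shear P.e1 P.e0 P.h01 g₃ hg₃).comp ((shear P.e0 P.e1 h10 g₂ hg₂).comp
    (shear P.e1 P.e0 P.h01 g₁ hg₁)), ?_⟩
  intro i x hx
  have hc0 : ⟪P.e0, P.ctr i⟫ = 5 * (i : ℝ) := by
    rw [Fr.ctr, inner_smul_right, h00, mul_one]
  have hc1 : ⟪P.e1, P.ctr i⟫ = 0 := by
    rw [Fr.ctr, inner_smul_right, h10, mul_zero]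
  have ha : |⟪P.e0, x⟫ - 5 * i| < 2 := by
    rw [← hc0, ← inner_sub_right]
    refine (abs_real_inner_le_norm _ _).trans_lt ?_
    rw [P.h0, one_mul]
    exact hx
  have hb : |⟪P.e1, x⟫| < 2 := by
    have : ⟪P.e1, x⟫ = ⟪P.e1, x - P.ctr i⟫ := by rw [inner_sub_right, hc1, sub_zero]
    rw [this]
    refine (abs_real_inner_le_norm _ _).trans_lt ?_
    rw [P.h1, one_mul]
    exact hx
  have e1 : g₁ ⟪P.e0, x⟫ = 5 * i := h₁ i _ ha
  set y : E := x + g₁ ⟪P.e0, x⟫ • P.e1 with hy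
  have e2 : g₂ ⟪P.e1, y⟫ = 5 * ((ρ i : ℕ) : ℝ) - 5 * (i : ℝ) := by
    refine h₂ i _ ?_
    rw [hy, inner_add_right, inner_smul_right, h11, e1]
    have : ⟪P.e1, x⟫ + 5 * (i : ℝ) * 1 - 5 * i = ⟪P.e1, x⟫ := by ring
    rw [this]
    exact hb
  set z : E := y + g₂ ⟪P.e1, y⟫ • P.e0 with hz
  have e3 : g₃ ⟪P.e0, z⟫ = - (5 * (i : ℝ)) := by
    have h4 := h₃ (ρ i) ⟪P.e0, z⟫ ?_
    · rw [h4]
      simp
    · rw [hz, inner_add_right, inner_smul_right, h00, e2, hy, inner_add_right, inner_smul_right,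
        P.h01]
      have : ⟪P.e0, x⟫ + g₁ ⟪P.e0, x⟫ * 0 + (5 * ((ρ i : ℕ) : ℝ) - 5 * (i : ℝ)) * 1 -
          5 * ((ρ i : ℕ) : ℝ) = ⟪P.e0, x⟫ - 5 * i := by ring
      rw [this]
      exact ha
  show z + g₃ ⟪P.e0, z⟫ • P.e1 = _
  rw [e3, hz, e2, hy, e1]
  unfold Fr.ctr
  rw [← sub_smul, neg_smul]
  abel

end Pool.Agent.TH227.TM
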