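import Pool.Agent.TH227.TM.TRep
import Pool.Agent.TH227.TM.Shear

/-!
Isomorphic trees have diffeomorphic manifolds.
-/

open Set Filter Topology
open scoped ContDiff RealInnerProductSpace Manifold

namespace Pool.Agent.TH227.TM

open Pool.Agent.TH227.CM

/-- The permutation of the holes given by a permutation of the children. -/
def up (π : ℕ ≃ ℕ) : ℕ ≃ ℕ where
  toFun
    | 0 => 0
    | i + 1 => π i + 1
  invFun
    | 0 => 0
    | i + 1 => π.symm i + 1
  left_inv
    | 0 => rfl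
    | i + 1 => by simp
  right_inv
    | 0 => rfl
    | i + 1 => by simp

/-- The map of the nodes. -/
def fm (pm : List ℕ → (ℕ ≃ ℕ)) : List ℕ → List ℕ
  | [] => []
  | i :: s => pm s i :: fm pm s

variable {pm : List ℕ → (ℕ ≃ ℕ)}

theorem fm_inj {s t : List ℕ} (h : fm pm s = fm pm t) : s = t := by
  induction s generalizing t with
  | nil =>
    cases t with
    | nil => rfl
    | cons b t => exact absurd h (by simp [fm])
  | cons a s ih =>
    cases t with
    | nil => exact absurd h (by simp [fm])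
    | cons b t =>
      have h' : pm s a :: fm pm s = pm t b :: fm pm t := h
      obtain ⟨h1, h2⟩ := List.cons.inj h'
      have h3 := ih h2
      subst h3
      rw [(pm s).injective h1]

theorem fm_surj (t : List ℕ) : ∃ s, fm pm s = t := by
  induction t with
  | nil => exact ⟨[], rfl⟩
  | cons a t ih =>
    obtain ⟨s, hs⟩ := ih
    refine ⟨(pm s).symm a :: s, ?_⟩
    show pm s ((pm s).symm a) :: fm pm s = _
    rw [hs, Equiv.apply_symm_apply]

variable {E : Type} [NormedAddCommGroup E] [InnerProductSpace ℝ E] {P : Fr E}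

/-- The diffeomorphisms of the pieces. -/
noncomputable def dd (P : Fr E) (pm : List ℕ → (ℕ ≃ ℕ)) (s : List ℕ) : Dif E :=
  (exists_perm P (up (pm s))).choose

theorem dd_spec (s : List ℕ) (i : ℕ) (x : E) (h : ‖x - P.ctr i‖ < 2) :
    (dd P pm s).f x = x + (P.ctr (up (pm s) i) - P.ctr i) :=
  (exists_perm P (up (pm s))).choose_spec i x h

theorem dd_zero (s : List ℕ) (x : E) (h : ‖x‖ < 2) : (dd P pm s).f x = x := by
  have h1 := dd_spec (P := P) (pm := pm) s 0 x (by simpa using h)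
  rw [h1]
  show x + (P.ctr 0 - P.ctr 0) = x
  simp

theorem dd_succ (s : List ℕ) (a : ℕ) (x : E) (h : ‖x - P.ctr (a + 1)‖ < 2) :
    (dd P pm s).f x = x + (P.ctr (pm s a + 1) - P.ctr (a + 1)) :=
  dd_spec (P := P) (pm := pm) s (a + 1) x h

theorem dd_back (s : List ℕ) (i : ℕ) (x : E) (h : ‖(dd P pm s).f x - P.ctr (up (pm s) i)‖ < 2) :
    x = (dd P pm s).f x - (P.ctr (up (pm s) i) - P.ctr i) := by
  set y := (dd P pm s).f x with hy
  have h1 := dd_spec (P := P) (pm := pm) s i (y - (P.ctr (up (pm s) i) - P.ctr i)) (by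
    have : y - (P.ctr (up (pm s) i) - P.ctr i) - P.ctr i = y - P.ctr (up (pm s) i) := by abel
    rw [this]
    exact h)
  have h2 : (dd P pm s).f (y - (P.ctr (up (pm s) i) - P.ctr i)) = (dd P pm s).f x := by
    rw [h1, ← hy]
    abel
  have h3 := congrArg (dd P pm s).g h2
  rw [(dd P pm s).gf, (dd P pm s).gf] at h3
  exact h3.symm

theorem dd_back0 (s : List ℕ) (x : E) (h : ‖(dd P pm s).f x‖ < 2) : (dd P pm s).f x = x := by
  have h1 := dd_back (P := P) (pm := pm) s 0 x (by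
    show ‖(dd P pm s).f x - P.ctr 0‖ < 2
    simpa using h)
  have h2 : (dd P pm s).f x - (P.ctr (up (pm s) 0) - P.ctr 0) = (dd P pm s).f x := by
    show (dd P pm s).f x - (P.ctr 0 - P.ctr 0) = (dd P pm s).f x
    simp
  rw [h2] at h1
  exact h1.symm

theorem dd_back1 (s : List ℕ) (a : ℕ) (x : E) (h : ‖(dd P pm s).f x - P.ctr (pm s a + 1)‖ < 2) :
    (dd P pm s).f x - P.ctr (pm s a + 1) = x - P.ctr (a + 1) := by
  have h1 : x = (dd P pm s).f x - (P.ctr (pm s a + 1) - P.ctr (a + 1)) :=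
    dd_back (P := P) (pm := pm) s (a + 1) x h
  calc (dd P pm s).f x - P.ctr (pm s a + 1) =
      ((dd P pm s).f x - (P.ctr (pm s a + 1) - P.ctr (a + 1))) - P.ctr (a + 1) := by abel
    _ = x - P.ctr (a + 1) := by rw [← h1]

variable {T T' : Set (List ℕ)} {s t : List ℕ} {x y : E}

theorem fm_ne (hs : fm pm s ≠ []) : s ≠ [] := by
  rintro rfl
  exact hs rfl

theorem ne_fm (hs : s ≠ []) : fm pm s ≠ [] := by
  intro h
  exact hs (fm_inj (pm := pm) (t := []) h)

theorem dd_dm (hf : ∀ s, s ∈ T ↔ fm pm s ∈ T') (hx : x ∈ Dm P T s) :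
    (dd P pm s).f x ∈ Dm P T' (fm pm s) := by
  constructor
  · intro hne
    by_contra h
    rw [not_lt] at h
    have h1 := dd_back0 (P := P) (pm := pm) s x (by linarith)
    rw [h1] at h
    exact absurd (hx.1 (fm_ne hne)) (not_lt.2 h)
  · intro a' ha'
    obtain ⟨a, rfl⟩ := (pm s).surjective a'
    have h0 : fm pm (a :: s) ∈ T' := ha'
    by_contra h
    rw [not_lt] at h
    have h1 := dd_back1 (P := P) (pm := pm) s a x (by linarith)
    rw [h1] at h
    exact absurd (hx.2 a ((hf _).2 h0)) (not_lt.2 h)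

theorem dd_dm' (hf : ∀ s, s ∈ T ↔ fm pm s ∈ T') (hx : (dd P pm s).f x ∈ Dm P T' (fm pm s)) :
    x ∈ Dm P T s := by
  constructor
  · intro hne
    by_contra h
    rw [not_lt] at h
    have h1 := dd_zero (P := P) (pm := pm) s x (by linarith)
    have h2 := hx.1 (ne_fm hne)
    rw [h1] at h2
    exact absurd h2 (not_lt.2 h)
  · intro a ha
    by_contra h
    rw [not_lt] at h
    have h1 := dd_succ (P := P) (pm := pm) s a x (by linarith)
    have h2 := hx.2 (pm s a) ((hf (a :: s)).1 ha)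
    rw [h1] at h2
    have h3 : x + (P.ctr (pm s a + 1) - P.ctr (a + 1)) - P.ctr (pm s a + 1) =
      x - P.ctr (a + 1) := by abel
    rw [h3] at h2
    exact absurd h2 (not_lt.2 h)

theorem dd_compat (hf : ∀ s, s ∈ T ↔ fm pm s ∈ T') (hx : x ∈ VV P T s t) :
    (dd P pm s).f x ∈ VV P T' (fm pm s) (fm pm t) ∧
      raw P (fm pm s) (fm pm t) ((dd P pm s).f x) = (dd P pm t).f (raw P s t x) := by
  obtain ⟨h1, h2, ⟨rfl, h3⟩ | ⟨a, rfl, h3⟩ | ⟨a, rfl, h3⟩⟩ := hx
  · refine ⟨vv_self.2 ⟨(hf _).1 h1, dd_dm hf h3⟩, ?_⟩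
    rw [raw_self, raw_self]
  · have h4 := dd_succ (P := P) (pm := pm) s a x h3.2
    have h5 : (dd P pm s).f x - P.ctr (pm s a + 1) = x - P.ctr (a + 1) := by
      rw [h4]
      abel
    have h6 : fm pm (a :: s) = pm s a :: fm pm s := rfl
    constructor
    · rw [h6, vv_child]
      refine ⟨(hf _).1 h1, (hf _).1 h2, ?_⟩
      show 1 / 2 < ‖(dd P pm s).f x - P.ctr (pm s a + 1)‖ ∧ ‖(dd P pm s).f x - P.ctr (pm s a + 1)‖ < 2
      rw [h5]
      exact h3
    · rw [h6, raw_child, raw_child, h5]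
      exact (dd_zero _ _ (nv_ann h3).2).symm
  · have h3' := ann_zero.1 h3
    have h4 := dd_zero (P := P) (pm := pm) (a :: t) x h3'.2
    have h6 : fm pm (a :: t) = pm t a :: fm pm t := rfl
    constructor
    · rw [h6, vv_parent, h4]
      exact ⟨(hf _).1 h2, (hf _).1 h1, h3⟩
    · rw [h6, raw_parent, raw_parent, h4]
      have h7 := dd_succ (P := P) (pm := pm) t a (nv x + P.ctr (a + 1)) (by
        rw [add_sub_cancel_right]
        exact (nv_ann h3').2)
      rw [h7]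
      abel

/-- The map of the manifolds. -/
theorem exists_map (hf : ∀ s, s ∈ T ↔ fm pm s ∈ T') (z : MT P T) :
    ∃ w : MT P T', ∀ s x, rep z s x → rep w (fm pm s) ((dd P pm s).f x) := by
  obtain ⟨s, x, h⟩ := rep_exists z
  obtain ⟨w, hw⟩ := exists_pt (P := P) ((hf s).1 (rep_dm h).1) (dd_dm hf (rep_dm h).2)
  refine ⟨w, ?_⟩
  intro t y hy
  obtain ⟨h1, h2⟩ := rep_rel h hy
  obtain ⟨h3, h4⟩ := dd_compat hf h1
  rw [← h2, ← h4]
  exact rep_move hw h3

/-- The map of the manifolds. -/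
noncomputable def mp (hf : ∀ s, s ∈ T ↔ fm pm s ∈ T') (z : MT P T) : MT P T' :=
  (exists_map hf z).choose

theorem mp_spec (hf : ∀ s, s ∈ T ↔ fm pm s ∈ T') {z : MT P T} (h : rep z s x) :
    rep (mp hf z) (fm pm s) ((dd P pm s).f x) := (exists_map hf z).choose_spec s x h

theorem dd_inj (h : (dd P pm s).f x = (dd P pm s).f y) : x = y := by
  have := congrArg (dd P pm s).g h
  rwa [(dd P pm s).gf, (dd P pm s).gf] at this

theorem mp_inj_aux {z w : MT P T} {a' : ℕ} (hz : rep z s x)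
    (hw : rep w t y) (h1 : fm pm t = a' :: fm pm s)
    (h2 : (dd P pm s).f x ∈ Ann (P.ctr (a' + 1)))
    (h3 : (dd P pm t).f y = nv ((dd P pm s).f x - P.ctr (a' + 1))) : z = w := by
  obtain ⟨a, rfl⟩ := (pm s).surjective a'
  have h4 : t = a :: s := fm_inj (pm := pm) h1
  subst h4
  have h5 := dd_back1 (P := P) (pm := pm) s a x h2.2
  have h6 : x ∈ Ann (P.ctr (a + 1)) := by
    show 1 / 2 < ‖x - P.ctr (a + 1)‖ ∧ ‖x - P.ctr (a + 1)‖ < 2
    rw [← h5]
    exact h2
  have h7 := rep_move hz (vv_child.2 ⟨(rep_dm hz).1, (rep_dm hw).1, h6⟩)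
  rw [raw_child] at h7
  have h8 : ‖(dd P pm (a :: s)).f y‖ < 2 := by
    rw [h3]
    exact (nv_ann h2).2
  have h9 := dd_back0 (P := P) (pm := pm) (a :: s) y h8
  rw [h9, h5] at h3
  rw [← h3] at h7
  exact rep_eq h7 hw

theorem mp_inj (hf : ∀ s, s ∈ T ↔ fm pm s ∈ T') {z w : MT P T}
    (h : mp (P := P) hf z = mp hf w) : z = w := by
  obtain ⟨s, x, hz⟩ := rep_exists z
  obtain ⟨t, y, hw⟩ := rep_exists w
  have h1 := mp_spec hf hz
  have h2 := mp_spec hf hw
  rw [← h] at h2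
  rcases rep_cases h1 h2 with ⟨h3, h4⟩ | ⟨a', h3, h4, h5⟩ | ⟨a', h3, h4, h5⟩
  · obtain rfl := fm_inj h3
    have := dd_inj h4
    rw [this] at hz
    exact rep_eq hz hw
  · exact mp_inj_aux hz hw h3 h4 h5
  · have h4' := ann_zero.1 h4
    refine (mp_inj_aux hw hz h3 ?_ ?_).symm
    · rw [h5]
      exact nv_add_ann h4
    · rw [h5, add_sub_cancel_right, nv_nv (ann_ne h4'.1)]

theorem mp_surj (hf : ∀ s, s ∈ T ↔ fm pm s ∈ T') (w : MT P T') : ∃ z : MT P T, mp hf z = w := by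
  obtain ⟨t, y, hw⟩ := rep_exists w
  obtain ⟨s, rfl⟩ := fm_surj (pm := pm) t
  have h1 := rep_dm hw
  have h2 : (dd P pm s).f ((dd P pm s).g y) = y := (dd P pm s).fg y
  have h3 : (dd P pm s).g y ∈ Dm P T s := by
    refine dd_dm' hf ?_
    rw [h2]
    exact h1.2
  obtain ⟨z, hz⟩ := exists_pt (P := P) ((hf s).2 h1.1) h3
  have h4 := mp_spec hf hz
  rw [h2] at h4
  exact ⟨z, rep_eq h4 hw⟩

variable [FiniteDimensional ℝ E]

/-- Isomorphic trees have diffeomorphic manifolds. -/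
theorem tree_diffeo (hf : ∀ s, s ∈ T ↔ fm pm s ∈ T') :
    Nonempty (Diffeomorph 𝓘(ℝ, E) 𝓘(ℝ, E) (MT P T) (MT P T') ∞) := by
  rw [← iso_iff_diffeomorph]
  classical
  let Φ : Pt E → Pt E := fun z => if h : z ∈ M (tcode P T) then (mp (P := P) hf ⟨z, h⟩).val else ∅
  have hΦ : ∀ z : MT P T, Φ z.val = (mp hf z).val := fun z => dif_pos z.mem
  refine ⟨Φ, ⟨?_, ?_, ?_⟩, ?_⟩
  · intro z hz
    rw [hΦ ⟨z, hz⟩]
    exact (mp hf _).mem
  · intro z hz w hw h
    rw [hΦ ⟨z, hz⟩, hΦ ⟨w, hw⟩] at h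
    exact congrArg Code.Pts.val (mp_inj hf (Code.Pts.ext h))
  · intro w hw
    obtain ⟨z, hz⟩ := mp_surj hf (⟨w, hw⟩ : MT P T')
    exact ⟨z.val, z.mem, by rw [hΦ, hz]⟩
  · intro z hz
    obtain ⟨s, x, h⟩ := rep_exists (⟨z, hz⟩ : MT P T)
    have hmp := mp_spec hf h
    refine ⟨hz, (en.symm s, x), h, en.symm (fm pm s), ?_⟩
    have hV : (tcode P T).V (en.symm s) (en.symm s) = VV P T s s := tV s s
    have hV' : (tcode P T').V (en.symm (fm pm s)) (en.symm (fm pm s)) =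
        VV P T' (fm pm s) (fm pm s) := tV _ _
    have hDs : ∀ x, SN (dd P pm s).f x := fun x =>
      Eventually.of_forall fun y => (dd P pm s).fs.contDiffAt
    have hDg : ∀ x, SN (dd P pm s).g x := fun x =>
      Eventually.of_forall fun y => (dd P pm s).gs.contDiffAt
    refine LK.of (q := (en.symm s, x)) ?_ (dd P pm s).f ?_ ?_ (hDs x) ?_
    · show x ∈ (tcode P T).V (en.symm s) (en.symm s)
      rw [hV]
      exact vv_self.2 (rep_dm h)
    · show (dd P pm s).f x ∈ (tcode P T').V (en.symm (fm pm s)) (en.symm (fm pm s))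
      rw [hV']
      exact vv_self.2 (rep_dm hmp)
    · have hev : ∀ᶠ x' in 𝓝 x, x' ∈ VV P T s s :=
        (vv_open s s).mem_nhds (vv_self.2 (rep_dm h))
      filter_upwards [hev] with x' hx'
      obtain ⟨z', hz'⟩ := exists_pt (P := P) (vv_self.1 hx').1 (vv_self.1 hx').2
      show Φ (cls (tcode P T) (en.symm s) x') = cls (tcode P T') (en.symm (fm pm s)) ((dd P pm s).f x')
      rw [← (rep_iff.1 hz').2, hΦ, (rep_iff.1 (mp_spec hf hz')).2]
    · refine (isInvertible_of_inv (hDs x) (hDg _) ?_ ?_).1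
      · exact Eventually.of_forall fun y => (dd P pm s).gf y
      · exact Eventually.of_forall fun y => (dd P pm s).fg y

end Pool.Agent.TH227.TM
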