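import Pool.Agent.TH227.CM.Lang
import Pool.Agent.TH227.TM.BF
import Pool.Agent.TH227.TM.TConn
import Pool.Agent.TH227.TM.TIso

/-!
The manifold coding a structure, Borel measurability, and the reduction.
-/

open Set Filter Topology
open scoped ContDiff RealInnerProductSpace Manifold MeasureTheory

namespace Pool.Agent.TH227.TM

open Pool.Agent.TH227.CM

/-! ### Isomorphic structures give isomorphic trees -/

/-- The permutation of the children of a main node. -/
def pE (σ : ℕ ≃ ℕ) : ℕ ≃ ℕ :=
  Nat.pairEquiv.symm.trans (((up σ).prodCongr (Equiv.refl ℕ)).trans Nat.pairEquiv)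

theorem pE_fst (σ : ℕ ≃ ℕ) (i : ℕ) : (pE σ i).unpair.1 = up σ i.unpair.1 := by
  have : pE σ i = Nat.pair (up σ i.unpair.1) i.unpair.2 := rfl
  rw [this]
  simp

/-- The action on the kinds. -/
def mapK (σ : ℕ ≃ ℕ) : Kd → Kd
  | Kd.main t => Kd.main (t.map σ)
  | q => q

/-- The permutations of the children. -/
def pmo (κ : List ℕ → ℕ) (σ : ℕ ≃ ℕ) (s : List ℕ) : ℕ ≃ ℕ :=
  match kind κ s with
  | Kd.main _ => pE σ
  | _ => Equiv.refl ℕ

theorem stepK_main_zero (κ : List ℕ → ℕ) (t : List ℕ) {i : ℕ} (h : i.unpair.1 = 0) :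
    stepK κ (Kd.main t) i = Kd.leaf (κ t) := by
  unfold stepK
  simp [h]

theorem stepK_main_succ (κ : List ℕ → ℕ) (t : List ℕ) {i a : ℕ} (h : i.unpair.1 = a + 1) :
    stepK κ (Kd.main t) i = Kd.main (a :: t) := by
  unfold stepK
  simp [h]

theorem kind_fm {κ κ' : List ℕ → ℕ} {σ : ℕ ≃ ℕ} (h : ∀ t, κ' (t.map σ) = κ t) (s : List ℕ) :
    kind κ' (fm (pmo κ σ) s) = mapK σ (kind κ s) := by
  induction s with
  | nil => rfl
  | cons i s ih =>
    show stepK κ' (kind κ' (fm (pmo κ σ) s)) (pmo κ σ s i) = mapK σ (stepK κ (kind κ s) i)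
    rw [ih]
    unfold pmo
    rcases hk : kind κ s with t | k | n | _ | _
    · show stepK κ' (Kd.main (t.map σ)) (pE σ i) = mapK σ (stepK κ (Kd.main t) i)
      rcases hi : i.unpair.1 with _ | a
      · have h1 : (pE σ i).unpair.1 = 0 := by
          rw [pE_fst, hi]
          rfl
        rw [stepK_main_zero κ' _ h1, stepK_main_zero κ _ hi, h]
        rfl
      · have h1 : (pE σ i).unpair.1 = σ a + 1 := by
          rw [pE_fst, hi]
          rfl
        rw [stepK_main_succ κ' _ h1, stepK_main_succ κ _ hi]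
        rfl
    · show stepK κ' (Kd.leaf k) i = mapK σ (stepK κ (Kd.leaf k) i)
      unfold stepK
      by_cases hi : i.unpair.1 = 0 <;> simp [hi, mapK]
    · show stepK κ' (Kd.wk n) i = mapK σ (stepK κ (Kd.wk n) i)
      cases n <;> rfl
    · rfl
    · rfl

theorem mem_fm {κ κ' : List ℕ → ℕ} {σ : ℕ ≃ ℕ} (h : ∀ t, κ' (t.map σ) = κ t) (s : List ℕ) :
    s ∈ CT κ ↔ fm (pmo κ σ) s ∈ CT κ' := by
  show kind κ s ≠ Kd.out ↔ kind κ' _ ≠ Kd.out
  rw [kind_fm h]
  rcases kind κ s with t | k | n | _ | _ <;> simp [mapK]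

/-! ### The reduction of isomorphism to diffeomorphism -/

variable {E : Type} [NormedAddCommGroup E] [InnerProductSpace ℝ E] [FiniteDimensional ℝ E]

/-- The code of the manifold of a structure. -/
noncomputable def mcode (P : Fr E) (R : ℕ → ℕ → ℕ → Prop) : Code E := tcode P (CT (kap R))

theorem mcode_connected (P : Fr E) (R : ℕ → ℕ → ℕ → Prop) : ConnectedSpace (mcode P R).Pts :=
  MT_connected (P := P) (CT_tree (kap R))

theorem mcode_iff (P : Fr E) (R R' : ℕ → ℕ → ℕ → Prop) :
    Nonempty (Diffeomorph 𝓘(ℝ, E) 𝓘(ℝ, E) (mcode P R).Pts (mcode P R').Pts ∞) ↔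
      ∃ σ : ℕ ≃ ℕ, ∀ j a b, R j a b ↔ R' j (σ a) (σ b) := by
  constructor
  · rintro ⟨D⟩
    obtain ⟨H⟩ := path_homeo (P := P) (P' := P) (CT_tree (kap R)) (CT_tree (kap R')) D.toHomeomorph
    exact iso_of_homeo H
  · rintro ⟨σ, hσ⟩
    exact tree_diffeo (mem_fm (fun t => kap_map σ hσ t))

/-! ### Measurability -/

instance : MeasurableSpace Kd := ⊤

instance : DiscreteMeasurableSpace Kd := ⟨fun _ => trivial⟩

instance : Countable Kd := by
  have f : Kd → (List ℕ) ⊕ (ℕ ⊕ (ℕ ⊕ Bool)) := fun q => match q with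
    | Kd.main t => Sum.inl t
    | Kd.leaf k => Sum.inr (Sum.inl k)
    | Kd.wk h => Sum.inr (Sum.inr (Sum.inl h))
    | Kd.cant => Sum.inr (Sum.inr (Sum.inr true))
    | Kd.out => Sum.inr (Sum.inr (Sum.inr false))
  exact (show Function.Injective (fun q : Kd => (match q with
    | Kd.main t => Sum.inl t
    | Kd.leaf k => Sum.inr (Sum.inl k)
    | Kd.wk h => Sum.inr (Sum.inr (Sum.inl h))
    | Kd.cant => Sum.inr (Sum.inr (Sum.inr true))
    | Kd.out => Sum.inr (Sum.inr (Sum.inr false)) : (List ℕ) ⊕ (ℕ ⊕ (ℕ ⊕ Bool)))) by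
      intro p q h
      cases p <;> cases q <;> simp_all).countable

theorem meas_kap (t : List ℕ) : Measurable (fun R : ℕ → ℕ → ℕ → Prop => kap R t) := by
  classical
  have h1 : Measurable (fun (R : ℕ → ℕ → ℕ → Prop) (j p q : Fin t.length) =>
      ((decide (R j (t.getD p 0) (t.getD q 0)), decide (t.getD p 0 = t.getD q 0)) :
        Bool × Bool)) := by
    refine measurable_pi_lambda _ fun j => measurable_pi_lambda _ fun p =>
      measurable_pi_lambda _ fun q => ?_
    have h2 : Measurable (fun R : ℕ → ℕ → ℕ → Prop => R j (t.getD p 0) (t.getD q 0)) :=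
      (measurable_pi_apply _).comp ((measurable_pi_apply _).comp (measurable_pi_apply _))
    have h3 : Measurable (fun A : Prop => ((decide A, decide (t.getD p 0 = t.getD q 0)) :
        Bool × Bool)) := measurable_of_countable _
    exact h3.comp h2
  have h4 : Measurable (fun f : Fin t.length → Fin t.length → Fin t.length → Bool × Bool =>
      Nat.pair t.length (Encodable.encode
        (⟨t.length, f⟩ : Σ n : ℕ, (Fin n → Fin n → Fin n → Bool × Bool)))) :=
    measurable_of_countable _
  exact h4.comp h1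

theorem meas_kind (s : List ℕ) : Measurable (fun R : ℕ → ℕ → ℕ → Prop => kind (kap R) s) := by
  induction s with
  | nil => exact measurable_const
  | cons i s ih =>
    have h1 : Measurable (fun q : (ℕ → ℕ → ℕ → Prop) × Kd => stepK (kap q.1) q.2 i) := by
      refine measurable_from_prod_countable_left fun q => ?_
      rcases q with t | k | n | _ | _
      · have h0 : Measurable (fun k : ℕ => stepK (fun _ => k) (Kd.main t) i) :=
          measurable_of_countable _
        have h2 : ∀ R : ℕ → ℕ → ℕ → Prop, stepK (kap R) (Kd.main t) i =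
            stepK (fun _ => kap R t) (Kd.main t) i := by
          intro R
          generalize kap R = K
          rcases hi : i.unpair.1 with _ | a
          · rw [stepK_main_zero K t hi, stepK_main_zero (fun _ => K t) t hi]
          · rw [stepK_main_succ K t hi, stepK_main_succ (fun _ => K t) t hi]
        have h3 : Measurable (fun R : ℕ → ℕ → ℕ → Prop =>
            stepK (fun _ => kap R t) (Kd.main t) i) := h0.comp (meas_kap t)
        have h4 : (fun R : ℕ → ℕ → ℕ → Prop => stepK (kap R) (Kd.main t) i) =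
            (fun R : ℕ → ℕ → ℕ → Prop => stepK (fun _ => kap R t) (Kd.main t) i) := funext h2
        exact h4 ▸ h3
      · exact measurable_const
      · cases n
        · exact measurable_const
        · exact measurable_const
      · exact measurable_const
      · exact measurable_const
    have h5 : Measurable (fun R : ℕ → ℕ → ℕ → Prop => (R, kind (kap R) s)) :=
      measurable_id.prodMk ih
    have h6 : Measurable (fun R : ℕ → ℕ → ℕ → Prop => stepK (kap R) (kind (kap R) s) i) :=
      Measurable.comp (g := fun q : (ℕ → ℕ → ℕ → Prop) × Kd => stepK (kap q.1) q.2 i) h1 h5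
    have h7 : (fun R : ℕ → ℕ → ℕ → Prop => kind (kap R) (i :: s)) =
        (fun R : ℕ → ℕ → ℕ → Prop => stepK (kap R) (kind (kap R) s) i) := by
      funext R
      rfl
    rw [h7]
    exact h6

theorem child_iff {κ κ' : List ℕ → ℕ} {s : List ℕ} (h : kind κ s = kind κ' s) (a : ℕ) :
    a :: s ∈ CT κ ↔ a :: s ∈ CT κ' := by
  show stepK κ (kind κ s) a ≠ Kd.out ↔ stepK κ' (kind κ' s) a ≠ Kd.out
  rw [← h]
  rcases kind κ s with t | k | n | _ | _
  · rcases hi : a.unpair.1 with _ | b
    · rw [stepK_main_zero κ t hi, stepK_main_zero κ' t hi]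
      simp
    · rw [stepK_main_succ κ t hi, stepK_main_succ κ' t hi]
  · exact Iff.rfl
  · cases n <;> exact Iff.rfl
  · exact Iff.rfl
  · exact Iff.rfl

theorem vv_congr {P : Fr E} {κ κ' : List ℕ → ℕ} {s t : List ℕ} (h : kind κ s = kind κ' s)
    (h' : kind κ t = kind κ' t) : VV P (CT κ) s t = VV P (CT κ') s t := by
  have h1 : s ∈ CT κ ↔ s ∈ CT κ' := by
    show kind κ s ≠ Kd.out ↔ kind κ' s ≠ Kd.out
    rw [h]
  have h2 : t ∈ CT κ ↔ t ∈ CT κ' := by
    show kind κ t ≠ Kd.out ↔ kind κ' t ≠ Kd.out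
    rw [h']
  have h3 : Dm P (CT κ) s = Dm P (CT κ') s := by
    ext x
    unfold Dm
    simp only [mem_ofPred_eq, child_iff h]
  unfold VV
  rw [h3]
  ext x
  simp only [mem_ofPred_eq, h1, h2]

theorem meas_dep {X Y : Type} [MeasurableSpace X] [MeasurableSpace Y] [DiscreteMeasurableSpace Y]
    {g : X → Y} (hg : Measurable g) {Q : X → Prop} (h : ∀ x x', g x = g x' → Q x → Q x') :
    MeasurableSet {x | Q x} := by
  have : {x | Q x} = g ⁻¹' (g '' {x | Q x}) := by
    ext x
    constructor
    · intro hx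
      exact ⟨x, hx, rfl⟩
    · rintro ⟨x', hx', he⟩
      exact h x' x he hx'
  rw [this]
  exact hg (MeasurableSet.of_discrete)

theorem meas_mcode (P : Fr E) : Measurable (mcode P) := by
  classical
  refine measurable_generateFrom ?_
  have hk : ∀ s t : List ℕ, Measurable (fun R : ℕ → ℕ → ℕ → Prop =>
      (kind (kap R) s, kind (kap R) t)) := fun s t => (meas_kind s).prodMk (meas_kind t)
  have hd : DiscreteMeasurableSpace (Kd × Kd) := by
    infer_instance
  rintro A (⟨i, j, S, hS, rfl⟩ | ⟨i, j, x, B, hB, rfl⟩)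
  · refine meas_dep (hk (en i) (en j)) (Q := fun R => S ⊆ (mcode P R).V i j) ?_
    intro R R' h h1
    obtain ⟨h2, h3⟩ := Prod.ext_iff.1 h
    have h4 : (mcode P R').V i j = (mcode P R).V i j := (vv_congr h2 h3).symm
    rw [h4]
    exact h1
  · refine meas_dep (hk (en i) (en j)) (Q := fun R => (mcode P R).φ i j x ∈ B) ?_
    intro R R' h h1
    obtain ⟨h2, h3⟩ := Prod.ext_iff.1 h
    have h4 : VV P (CT (kap R')) (en i) (en j) = VV P (CT (kap R)) (en i) (en j) :=
      (vv_congr h2 h3).symm
    have h5 : (mcode P R').φ i j x = (mcode P R).φ i j x := by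
      show (if x ∈ VV P (CT (kap R')) (en i) (en j) then raw P (en i) (en j) x else 0) =
        (if x ∈ VV P (CT (kap R)) (en i) (en j) then raw P (en i) (en j) x else 0)
      rw [h4]
    show (mcode P R').φ i j x ∈ B
    rw [h5]
    exact h1

/-! ### The structure of a smooth manifold -/

variable {E₁ : Type} [NormedAddCommGroup E₁] [NormedSpace ℝ E₁] [FiniteDimensional ℝ E₁]

/-- The indexing of the names. -/
noncomputable def eN : ℕ ≃ Nm := (nonempty_equiv_of_countable (α := ℕ) (β := Nm)).some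

/-- The relations attached to a code, indexed by natural numbers. -/
noncomputable def relC (c : Code E₁) (j a b : ℕ) : Prop :=
  ∃ S : Sym, (exists_injective_nat Sym).choose S = j ∧ RR c S (eN a) (eN b)

theorem relC_meas (j a b : ℕ) : MeasurableSet {c : Code E₁ | relC c j a b} := by
  have : {c : Code E₁ | relC c j a b} = ⋃ S : Sym, {c : Code E₁ |
      c ∈ {c : Code E₁ | RR c S (eN a) (eN b)} ∧ (exists_injective_nat Sym).choose S = j} := by
    ext c
    simp only [mem_iUnion, mem_ofPred_eq]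
    constructor
    · rintro ⟨S, h1, h2⟩
      exact ⟨S, h2, h1⟩
    · rintro ⟨S, h2, h1⟩
      exact ⟨S, h1, h2⟩
  rw [this]
  refine MeasurableSet.iUnion fun S => ?_
  by_cases h : (exists_injective_nat Sym).choose S = j
  · have h2 : {c : Code E₁ | c ∈ {c : Code E₁ | RR c S (eN a) (eN b)} ∧
        (exists_injective_nat Sym).choose S = j} = {c : Code E₁ | RR c S (eN a) (eN b)} := by
      ext c
      simp [h]
    rw [h2]
    exact RR_meas S _ _
  · have h2 : {c : Code E₁ | c ∈ {c : Code E₁ | RR c S (eN a) (eN b)} ∧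
        (exists_injective_nat Sym).choose S = j} = ∅ := by
      ext c
      simp [h]
    rw [h2]
    exact MeasurableSet.empty

theorem meas_relC : Measurable (relC : Code E₁ → ℕ → ℕ → ℕ → Prop) :=
  measurable_pi_lambda _ fun j => measurable_pi_lambda _ fun a => measurable_pi_lambda _ fun b =>
    measurableSet_setOfPred.1 (relC_meas j a b)

theorem relC_iff (c c' : Code E₁) :
    Nonempty (Diffeomorph 𝓘(ℝ, E₁) 𝓘(ℝ, E₁) c.Pts c'.Pts ∞) ↔
      ∃ σ : ℕ ≃ ℕ, ∀ j a b, relC c j a b ↔ relC c' j (σ a) (σ b) := by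
  have hinj := (exists_injective_nat Sym).choose_spec
  rw [← iso_iff_diffeomorph, iso_iff]
  constructor
  · rintro ⟨σ, hσ⟩
    refine ⟨(eN.trans σ).trans eN.symm, ?_⟩
    intro j a b
    refine exists_congr fun S => and_congr_right fun _ => ?_
    show RR c S (eN a) (eN b) ↔ RR c' S (eN (eN.symm (σ (eN a)))) (eN (eN.symm (σ (eN b))))
    rw [eN.apply_symm_apply, eN.apply_symm_apply]
    exact hσ S (eN a) (eN b)
  · rintro ⟨σ, hσ⟩
    refine ⟨(eN.symm.trans σ).trans eN, ?_⟩
    intro S a b
    have h := hσ ((exists_injective_nat Sym).choose S) (eN.symm a) (eN.symm b)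
    have key : ∀ (c : Code E₁) (a b : ℕ), relC c ((exists_injective_nat Sym).choose S) a b ↔
        RR c S (eN a) (eN b) := by
      intro c a b
      constructor
      · rintro ⟨S', h1, h2⟩
        rw [hinj h1] at h2
        exact h2
      · intro h2
        exact ⟨S, rfl, h2⟩
    rw [key, key, eN.apply_symm_apply, eN.apply_symm_apply] at h
    exact h

/-- The reduction of diffeomorphism in one dimension to diffeomorphism in another dimension. -/
theorem reduction (P : Fr E) : ∃ F : Code E₁ → Code E, Measurable F ∧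
    (∀ c, ConnectedSpace (F c).Pts) ∧ ∀ c c' : Code E₁,
      (Nonempty (Diffeomorph 𝓘(ℝ, E₁) 𝓘(ℝ, E₁) c.Pts c'.Pts ∞) ↔
        Nonempty (Diffeomorph 𝓘(ℝ, E) 𝓘(ℝ, E) (F c).Pts (F c').Pts ∞)) :=
  ⟨fun c => mcode P (relC c), (meas_mcode P).comp meas_relC, fun c => mcode_connected P (relC c),
    fun c c' => (relC_iff c c').trans (mcode_iff P (relC c) (relC c')).symm⟩

end Pool.Agent.TH227.TM
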