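import Pool.Agent.TH227.TM.Ends

/-!
The trees which code structures, and the decoding of the structure from the path space.
-/

open Set Filter Topology

namespace Pool.Agent.TH227.TM

/-- The kinds of nodes. -/
inductive Kd : Type
  | main (t : List ℕ)
  | leaf (k : ℕ)
  | wk (h : ℕ)
  | cant
  | out

/-- The kind of a child. -/
def stepK (κ : List ℕ → ℕ) : Kd → ℕ → Kd
  | Kd.main t, i => match i.unpair.1 with
    | 0 => Kd.leaf (κ t)
    | a + 1 => Kd.main (a :: t)
  | Kd.leaf k, i => if i.unpair.1 = 0 then Kd.cant else Kd.wk k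
  | Kd.wk 0, _ => Kd.out
  | Kd.wk (h + 1), _ => Kd.wk h
  | Kd.cant, _ => Kd.cant
  | Kd.out, _ => Kd.out

/-- The kind of a node. -/
def kind (κ : List ℕ → ℕ) : List ℕ → Kd
  | [] => Kd.main []
  | i :: s => stepK κ (kind κ s) i

/-- The coding tree. -/
def CT (κ : List ℕ → ℕ) : Set (List ℕ) := {s | kind κ s ≠ Kd.out}

theorem CT_tree (κ : List ℕ → ℕ) : IsTree (CT κ) where
  nil := by
    show kind κ [] ≠ Kd.out
    unfold kind
    simp
  tail a s h := by
    intro h2
    apply h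
    show stepK κ (kind κ s) a = Kd.out
    rw [h2]
    rfl

variable {κ κ' : List ℕ → ℕ}

theorem step_main0 (t : List ℕ) (j : ℕ) : stepK κ (Kd.main t) (Nat.pair 0 j) = Kd.leaf (κ t) := by
  unfold stepK
  simp

theorem step_main1 (t : List ℕ) (a j : ℕ) :
    stepK κ (Kd.main t) (Nat.pair (a + 1) j) = Kd.main (a :: t) := by
  unfold stepK
  simp

theorem step_main (t : List ℕ) (i : ℕ) : stepK κ (Kd.main t) i = Kd.leaf (κ t) ∨
    ∃ a, stepK κ (Kd.main t) i = Kd.main (a :: t) := by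
  unfold stepK
  rcases h : i.unpair.1 with _ | a
  · left
    simp [h]
  · right
    exact ⟨a, by simp [h]⟩

theorem step_leaf0 (k j : ℕ) : stepK κ (Kd.leaf k) (Nat.pair 0 j) = Kd.cant := by
  unfold stepK
  simp

theorem step_leaf1 (k j : ℕ) : stepK κ (Kd.leaf k) (Nat.pair 1 j) = Kd.wk k := by
  unfold stepK
  simp

theorem step_leaf (k i : ℕ) : stepK κ (Kd.leaf k) i = Kd.cant ∨ stepK κ (Kd.leaf k) i = Kd.wk k := by
  unfold stepK
  by_cases h : i.unpair.1 = 0
  · left
    simp [h]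
  · right
    simp [h]

/-! ### Topological notions -/

section top

variable {X Y : Type} [TopologicalSpace X] [TopologicalSpace Y]

/-- The points of rank less than `j`. -/
def Sc (X : Type) [TopologicalSpace X] : ℕ → Set X
  | 0 => ∅
  | j + 1 => {x | ∃ U ∈ 𝓝 x, ∀ y ∈ U, y ≠ x → y ∈ Sc X j}

/-- The points of finite rank. -/
def ScU (X : Type) [TopologicalSpace X] : Set X := {x | ∃ j, x ∈ Sc X j}

/-- The marked points of type `k`. -/
def Zp (X : Type) [TopologicalSpace X] (k : ℕ) : Set X :=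
  {x | x ∉ ScU X ∧ (∃ U ∈ 𝓝 x, ∀ y ∈ U, y ∈ ScU X → y ∈ Sc X (k + 1)) ∧
    (∀ U ∈ 𝓝 x, ∃ y ∈ U, y ∈ Sc X (k + 1) ∧ y ∉ Sc X k) ∧
    (∃ U ∈ 𝓝 x, ∀ y ∈ U, y ≠ x → y ∉ ScU X → ∃ U' ∈ 𝓝 y, ∀ w ∈ U', w ∉ ScU X)}

/-- The main points of type `k`. -/
def MP (X : Type) [TopologicalSpace X] (k : ℕ) : Set X :=
  {x | (∀ k', x ∉ Zp X k') ∧ (∀ U ∈ 𝓝 x, ∃ y ∈ U, y ∈ Zp X k) ∧
    ∀ k', k'.unpair.1 < k.unpair.1 → ∃ U ∈ 𝓝 x, ∀ y ∈ U, y ∉ Zp X k'}

theorem nhds_image (H : X ≃ₜ Y) {x : X} {U : Set X} (hU : U ∈ 𝓝 x) : H '' U ∈ 𝓝 (H x) := by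
  rw [← H.map_nhds_eq]
  exact image_mem_map hU

theorem Sc_homeo' (H : X ≃ₜ Y) (j : ℕ) : ∀ x ∈ Sc X j, H x ∈ Sc Y j := by
  induction j with
  | zero => exact fun x hx => hx.elim
  | succ j ih =>
    rintro x ⟨U, hU, h⟩
    refine ⟨H '' U, nhds_image H hU, ?_⟩
    rintro _ ⟨y, hy, rfl⟩ hne
    exact ih y (h y hy fun h2 => hne (by rw [h2]))

theorem Sc_homeo (H : X ≃ₜ Y) (j : ℕ) (x : X) : H x ∈ Sc Y j ↔ x ∈ Sc X j := by
  constructor
  · intro h
    have := Sc_homeo' H.symm j _ h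
    rwa [H.symm_apply_apply] at this
  · exact Sc_homeo' H j x

theorem ScU_homeo (H : X ≃ₜ Y) (x : X) : H x ∈ ScU Y ↔ x ∈ ScU X :=
  exists_congr fun j => Sc_homeo H j x

theorem nhds_pre (H : X ≃ₜ Y) {x : X} {U : Set Y} (hU : U ∈ 𝓝 (H x)) : H ⁻¹' U ∈ 𝓝 x :=
  H.continuous.continuousAt hU

theorem Zp_homeo' (H : X ≃ₜ Y) (k : ℕ) (x : X) (h : x ∈ Zp X k) : H x ∈ Zp Y k := by
  obtain ⟨h1, ⟨U, hU, h2⟩, h3, U₂, hU₂, h4⟩ := h
  refine ⟨fun h => h1 ((ScU_homeo H x).1 h), ⟨H '' U, nhds_image H hU, ?_⟩, ?_,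
    H '' U₂, nhds_image H hU₂, ?_⟩
  · rintro _ ⟨y, hy, rfl⟩ hS
    exact (Sc_homeo H _ y).2 (h2 y hy ((ScU_homeo H y).1 hS))
  · intro V hV
    obtain ⟨y, hy, h5, h6⟩ := h3 _ (nhds_pre H hV)
    exact ⟨H y, hy, (Sc_homeo H _ y).2 h5, fun h => h6 ((Sc_homeo H _ y).1 h)⟩
  · rintro _ ⟨y, hy, rfl⟩ hne hS
    obtain ⟨U', hU', h5⟩ := h4 y hy (fun h => hne (by rw [h])) (fun h => hS ((ScU_homeo H y).2 h))
    refine ⟨H '' U', nhds_image H hU', ?_⟩
    rintro _ ⟨w, hw, rfl⟩ h6
    exact h5 w hw ((ScU_homeo H w).1 h6)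

theorem Zp_homeo (H : X ≃ₜ Y) (k : ℕ) (x : X) : H x ∈ Zp Y k ↔ x ∈ Zp X k := by
  constructor
  · intro h
    have := Zp_homeo' H.symm k _ h
    rwa [H.symm_apply_apply] at this
  · exact Zp_homeo' H k x

theorem MP_homeo (H : X ≃ₜ Y) (k : ℕ) (x : X) (h : x ∈ MP X k) : H x ∈ MP Y k := by
  obtain ⟨h1, h2, h3⟩ := h
  refine ⟨fun k' h => h1 k' ((Zp_homeo H k' x).1 h), ?_, ?_⟩
  · intro V hV
    obtain ⟨y, hy, h5⟩ := h2 _ (nhds_pre H hV)
    exact ⟨H y, hy, (Zp_homeo H _ y).2 h5⟩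
  · intro k' hk'
    obtain ⟨U, hU, h5⟩ := h3 k' hk'
    refine ⟨H '' U, nhds_image H hU, ?_⟩
    rintro _ ⟨w, hw, rfl⟩ h6
    exact h5 w hw ((Zp_homeo H _ w).1 h6)

theorem Sc_mono (j : ℕ) : Sc X j ⊆ Sc X (j + 1) := by
  induction j with
  | zero => exact fun x hx => hx.elim
  | succ j ih =>
    rintro x ⟨U, hU, h⟩
    exact ⟨U, hU, fun y hy hne => ih (h y hy hne)⟩

theorem Sc_mono' {j k : ℕ} (h : j ≤ k) : Sc X j ⊆ Sc X k := by
  induction h with
  | refl => exact subset_rfl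
  | step _ ih => exact ih.trans (Sc_mono _)

theorem Zp_unique {k k' : ℕ} {x : X} (h : x ∈ Zp X k) (h' : x ∈ Zp X k') : k = k' := by
  have key : ∀ k k', x ∈ Zp X k → x ∈ Zp X k' → ¬ k < k' := by
    intro k k' h h' hlt
    obtain ⟨_, ⟨U, hU, h2⟩, _, _⟩ := h
    obtain ⟨_, _, h3, _⟩ := h'
    obtain ⟨y, hy, h4, h5⟩ := h3 U hU
    exact h5 (Sc_mono' hlt (h2 y hy ⟨_, h4⟩))
  exact le_antisymm (not_lt.1 (key _ _ h' h)) (not_lt.1 (key _ _ h h'))

end top

/-! ### The path space of the coding tree -/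

section path

variable {T : Set (List ℕ)}

theorem suffix_mem_tree (hT : IsTree T) {s t : List ℕ} (h : s <:+ t) (ht : t ∈ T) : s ∈ T := by
  obtain ⟨u, rfl⟩ := h
  induction u with
  | nil => exact ht
  | cons a u ih => exact ih (hT.tail a _ ht)

theorem cons_suffix_inj {a b : ℕ} {s t : List ℕ} (h1 : (a :: s) <:+ t) (h2 : (b :: s) <:+ t) :
    a = b := by
  rcases List.suffix_or_suffix_of_suffix h1 h2 with h | h
  · exact (List.cons.inj (h.eq_of_length (by simp))).1
  · exact (List.cons.inj (h.eq_of_length (by simp))).1.symm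

/-- The finite path ending at the node `s`. -/
def pt (hT : IsTree T) (s : List ℕ) (hs : s ∈ T) : Path T where
  f t := decide (t <:+ s)
  sub t ht := suffix_mem_tree hT (of_decide_eq_true ht) hs
  nil := decide_eq_true List.nil_suffix
  tail a t ht := decide_eq_true ((List.suffix_cons a t).trans (of_decide_eq_true ht))
  one a b t ha hb := cons_suffix_inj (of_decide_eq_true ha) (of_decide_eq_true hb)

theorem pt_iff (hT : IsTree T) {s : List ℕ} (hs : s ∈ T) (t : List ℕ) :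
    (pt hT s hs).f t = true ↔ t <:+ s := by
  show decide (t <:+ s) = true ↔ _
  exact decide_eq_true_iff

theorem pt_self (hT : IsTree T) {s : List ℕ} (hs : s ∈ T) : (pt hT s hs).f s = true :=
  (pt_iff hT hs s).2 (List.suffix_refl s)

theorem pt_inj (hT : IsTree T) {s t : List ℕ} {hs : s ∈ T} {ht : t ∈ T}
    (h : pt hT s hs = pt hT t ht) : s = t := by
  have h1 : s <:+ t := (pt_iff hT ht s).1 (by rw [← h]; exact pt_self hT hs)
  have h2 : t <:+ s := (pt_iff hT hs t).1 (by rw [h]; exact pt_self hT ht)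
  exact h1.eq_of_length (le_antisymm h1.length_le h2.length_le)

theorem exists_child' {s t : List ℕ} (h : s <:+ t) (hne : t ≠ s) : ∃ a, (a :: s) <:+ t := by
  obtain ⟨u, rfl⟩ := h
  rcases List.eq_nil_or_concat u with rfl | ⟨u', a, rfl⟩
  · exact absurd rfl hne
  · refine ⟨a, u', ?_⟩
    simp

theorem eq_pt (hT : IsTree T) {x : Path T} {s : List ℕ} (hs : x.f s = true)
    (h : ∀ a, x.f (a :: s) = false) : x = pt hT s (x.sub s hs) := by
  apply Path.ext
  intro t
  rw [pt_iff]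
  constructor
  · intro ht
    rcases Nat.le_total t.length s.length with h1 | h1
    · exact x.comparable ht hs h1
    · have h2 := x.comparable hs ht h1
      by_cases h3 : t = s
      · rw [h3]
      · obtain ⟨a, ha⟩ := exists_child' h2 h3
        have := x.suffix ha ht
        rw [h a] at this
        exact absurd this Bool.false_ne_true
  · intro ht
    exact x.suffix ht hs

/-- A point either is the end of `s` or passes through a child. -/
theorem pt_or (hT : IsTree T) {x : Path T} {s : List ℕ} (hs : x.f s = true) :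
    x = pt hT s (x.sub s hs) ∨ ∃ a, x.f (a :: s) = true := by
  by_cases h : ∃ a, x.f (a :: s) = true
  · exact Or.inr h
  · push Not at h
    exact Or.inl (eq_pt hT hs fun a => Bool.eq_false_iff.2 (h a))

theorem pt_child_false (hT : IsTree T) {s : List ℕ} (hs : s ∈ T) (a : ℕ) :
    (pt hT s hs).f (a :: s) = false := by
  rw [Bool.eq_false_iff]
  intro h
  have := ((pt_iff hT hs _).1 h).length_le
  simp at this

theorem open_N (s : List ℕ) : IsOpen {x : Path T | x.f s = true} := by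
  have h : {x : Path T | x.f s = true} = (fun x : Path T => x.f s) ⁻¹' {true} := rfl
  rw [h]
  exact (isOpen_discrete _).preimage (Path.continuous_f s)

theorem N_mem {x : Path T} {s : List ℕ} (h : x.f s = true) : {y : Path T | y.f s = true} ∈ 𝓝 x :=
  (open_N s).mem_nhds h

theorem nhds_pt (hT : IsTree T) {s : List ℕ} (hs : s ∈ T) {U : Set (Path T)}
    (hU : U ∈ 𝓝 (pt hT s hs)) : ∃ j : ℕ, ∀ y : Path T, y.f s = true →
      (∀ a, a < j → y.f (a :: s) = false) → y ∈ U := by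
  obtain ⟨F, hF⟩ := (Path.nhds_iff _ _).1 hU
  refine ⟨F.sup List.sum + 1, ?_⟩
  intro y hy hya
  apply hF
  intro t ht
  by_cases h : t <:+ s
  · rw [y.suffix h hy, (pt_iff hT hs t).2 h]
  · have h1 : (pt hT s hs).f t = false := by
      rw [Bool.eq_false_iff]
      intro h2
      exact h ((pt_iff hT hs t).1 h2)
    rw [h1, Bool.eq_false_iff]
    intro h2
    have h3 : s <:+ t := by
      rcases Nat.le_total t.length s.length with h4 | h4
      · exact absurd (y.comparable h2 hy h4) h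
      · exact y.comparable hy h2 h4
    have h5 : t ≠ s := by
      rintro rfl
      exact h (List.suffix_refl _)
    obtain ⟨a, ha⟩ := exists_child' h3 h5
    have h6 : a ≤ t.sum := List.le_sum_of_mem (ha.mem (by simp))
    have h7 : t.sum ≤ F.sup List.sum := Finset.le_sup ht
    have h8 := hya a (by omega)
    rw [y.suffix ha h2] at h8
    exact absurd h8 (by simp)

theorem nhds_child (hT : IsTree T) {s : List ℕ} (hs : s ∈ T) {U : Set (Path T)}
    (hU : U ∈ 𝓝 (pt hT s hs)) : ∃ j : ℕ, ∀ a, j ≤ a → ∀ y : Path T, y.f (a :: s) = true → y ∈ U := by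
  obtain ⟨j, hj⟩ := nhds_pt hT hs hU
  refine ⟨j, ?_⟩
  intro a ha y hy
  refine hj y (y.tail a s hy) ?_
  intro b hb
  rw [Bool.eq_false_iff]
  intro h
  have := y.one a b s hy h
  omega

theorem nhds_inf {x : Path T} (hinf : ∀ s, x.f s = true → ∃ a, x.f (a :: s) = true)
    {U : Set (Path T)} (hU : U ∈ 𝓝 x) (n : ℕ) :
    ∃ t, x.f t = true ∧ n ≤ t.length ∧ ∀ y : Path T, y.f t = true → y ∈ U := by
  obtain ⟨F, hF⟩ := (Path.nhds_iff _ _).1 hU
  have hlong : ∀ n, ∃ t, x.f t = true ∧ t.length = n := by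
    intro n
    induction n with
    | zero => exact ⟨[], x.nil, rfl⟩
    | succ n ih =>
      obtain ⟨t, ht, hn⟩ := ih
      obtain ⟨a, ha⟩ := hinf t ht
      exact ⟨a :: t, ha, by simp [hn]⟩
  obtain ⟨t, ht, htn⟩ := hlong (max n (F.sup List.length))
  refine ⟨t, ht, by rw [htn]; exact le_max_left _ _, ?_⟩
  intro y hy
  apply hF
  intro u hu
  have h1 : u.length ≤ t.length := by
    rw [htn]
    exact (Finset.le_sup hu).trans (le_max_right _ _)
  have key : ∀ z : Path T, z.f t = true → (z.f u = true ↔ u <:+ t) := fun z hz =>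
    ⟨fun h => z.comparable h hz h1, fun h => z.suffix h hz⟩
  rw [Bool.eq_iff_iff, key y hy, key x ht]

end path

section code

/-- The end of the node `s` of the coding tree. -/
def cp (κ : List ℕ → ℕ) (s : List ℕ) (hs : s ∈ CT κ) : Path (CT κ) := pt (CT_tree κ) s hs

theorem kind_out_iff {s : List ℕ} : s ∈ CT κ ↔ kind κ s ≠ Kd.out := Iff.rfl

theorem mem_of_kind {s : List ℕ} {q : Kd} (h : kind κ s = q) (hq : q ≠ Kd.out) : s ∈ CT κ := by
  show kind κ s ≠ Kd.out
  rw [h]
  exact hq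

theorem kind_cant {s : List ℕ} (h : kind κ s = Kd.cant) : ∀ w, kind κ (w ++ s) = Kd.cant := by
  intro w
  induction w with
  | nil => exact h
  | cons a w ih =>
    show stepK κ (kind κ (w ++ s)) a = _
    rw [ih]
    rfl

theorem kind_wk {s : List ℕ} {h : ℕ} (hk : kind κ s = Kd.wk h) : ∀ w, kind κ (w ++ s) = Kd.out ∨
    ∃ h', kind κ (w ++ s) = Kd.wk h' := by
  intro w
  induction w with
  | nil => exact Or.inr ⟨h, hk⟩
  | cons a w ih =>
    have e : kind κ (a :: (w ++ s)) = stepK κ (kind κ (w ++ s)) a := rfl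
    rcases ih with ih | ⟨h', ih⟩
    · left
      show kind κ (a :: (w ++ s)) = _
      rw [e, ih]
      rfl
    · show kind κ (a :: (w ++ s)) = _ ∨ ∃ h', kind κ (a :: (w ++ s)) = _
      rw [e, ih]
      cases h' with
      | zero => exact Or.inl rfl
      | succ h' => exact Or.inr ⟨h', rfl⟩

theorem kind_child {s : List ℕ} {a : ℕ} : kind κ (a :: s) = stepK κ (kind κ s) a := rfl

theorem c1 (h : ℕ) : ∀ (s : List ℕ) (x : Path (CT κ)), kind κ s = Kd.wk h → x.f s = true →
    x ∈ Sc (Path (CT κ)) (h + 1) := by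
  induction h with
  | zero =>
    intro s x hk hx
    refine ⟨_, N_mem hx, ?_⟩
    intro y hy hne
    exfalso
    have key : ∀ z : Path (CT κ), (hz : z.f s = true) → z = pt (CT_tree κ) s (z.sub s hz) := by
      intro z hz
      rcases pt_or (CT_tree κ) hz with h | ⟨a, ha⟩
      · exact h
      · exfalso
        apply z.sub _ ha
        rw [kind_child, hk]
        rfl
    exact hne ((key y hy).trans (key x hx).symm)
  | succ h ih =>
    intro s x hk hx
    have hc : ∀ (y : Path (CT κ)) (a : ℕ), y.f (a :: s) = true → y ∈ Sc (Path (CT κ)) (h + 1) := by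
      intro y a hy
      refine ih (a :: s) y ?_ hy
      rw [kind_child, hk]
      rfl
    rcases pt_or (CT_tree κ) hx with h1 | ⟨a, ha⟩
    · refine ⟨_, N_mem hx, ?_⟩
      intro y hy hne
      rcases pt_or (CT_tree κ) (show y.f s = true from hy) with h2 | ⟨a, ha⟩
      · exact absurd (h2.trans h1.symm) hne
      · exact hc y a ha
    · exact Sc_mono _ (hc x a ha)

theorem child_mem {s : List ℕ} {a : ℕ} {q : Kd} (h : stepK κ (kind κ s) a = q) (hq : q ≠ Kd.out) :
    a :: s ∈ CT κ := mem_of_kind (kind_child.trans h) hq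

theorem c2 (h : ℕ) : ∀ (s : List ℕ) (hs : s ∈ CT κ), kind κ s = Kd.wk h →
    cp κ s hs ∉ Sc (Path (CT κ)) h := by
  induction h with
  | zero => exact fun s hs _ hx => hx.elim
  | succ h ih =>
    rintro s hs hk ⟨U, hU, hUy⟩
    obtain ⟨j, hj⟩ := nhds_child (CT_tree κ) hs hU
    have h1 : kind κ (j :: s) = Kd.wk h := by
      rw [kind_child, hk]
      rfl
    have h2 : j :: s ∈ CT κ := mem_of_kind h1 (by simp)
    have h3 : cp κ (j :: s) h2 ∈ U := hj j le_rfl _ (pt_self _ _)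
    refine ih (j :: s) h2 h1 (hUy _ h3 ?_)
    intro h4
    exact cons_ne' j s (pt_inj _ h4)
where
  cons_ne' (a : ℕ) (s : List ℕ) : a :: s ≠ s := by
    intro h
    have := congrArg List.length h
    simp at this

theorem cons_ne2 (a : ℕ) (s : List ℕ) : a :: s ≠ s := by
  intro h
  have := congrArg List.length h
  simp at this

theorem c3 {s : List ℕ} (hk : kind κ s = Kd.cant) (j : ℕ) : ∀ x : Path (CT κ), x.f s = true →
    x ∉ Sc (Path (CT κ)) j := by
  induction j with
  | zero => exact fun x _ hx => hx.elim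
  | succ j ih =>
    rintro x hx ⟨U, hU, hUy⟩
    by_cases hinf : ∀ t, x.f t = true → ∃ a, x.f (a :: t) = true
    · obtain ⟨t, ht, htn, hty⟩ := nhds_inf hinf hU (s.length)
      have htT := x.sub t ht
      have hst : s <:+ t := x.comparable hx ht htn
      refine ih (cp κ t htT) ((pt_iff _ _ _).2 hst) (hUy _ (hty _ (pt_self _ _)) ?_)
      intro h
      obtain ⟨a, ha⟩ := hinf t ht
      rw [← h] at ha
      have := pt_child_false (CT_tree κ) htT a
      rw [show (cp κ t htT) = pt (CT_tree κ) t htT from rfl] at ha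
      rw [this] at ha
      exact Bool.false_ne_true ha
    · push Not at hinf
      obtain ⟨t, ht, hta⟩ := hinf
      have h1 := eq_pt (CT_tree κ) ht fun a => Bool.eq_false_iff.2 (hta a)
      have hst : s <:+ t := by
        have := hx
        rw [h1, pt_iff] at this
        exact this
      have htk : kind κ t = Kd.cant := by
        obtain ⟨w, rfl⟩ := hst
        exact kind_cant hk w
      rw [h1] at hU
      obtain ⟨i, hi⟩ := nhds_child (CT_tree κ) _ hU
      have h2 : kind κ (i :: t) = Kd.cant := by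
        rw [kind_child, htk]
        rfl
      have h3 : i :: t ∈ CT κ := mem_of_kind h2 (by simp)
      refine ih (cp κ (i :: t) h3) ((pt_iff _ _ _).2 (hst.trans (List.suffix_cons _ _)))
        (hUy _ (hi i le_rfl _ (pt_self _ _)) ?_)
      rw [h1]
      intro h
      exact cons_ne2 i t (pt_inj _ h)

theorem c3' {s : List ℕ} (hk : kind κ s = Kd.cant) (x : Path (CT κ)) (hx : x.f s = true) :
    x ∉ ScU (Path (CT κ)) := by
  rintro ⟨j, hj⟩
  exact c3 hk j x hx hj

theorem le_pair_right (a j : ℕ) : j ≤ Nat.pair a j := Nat.right_le_pair a j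

theorem leaf_notSc {s : List ℕ} (hs : s ∈ CT κ) {k : ℕ} (hk : kind κ s = Kd.leaf k) :
    cp κ s hs ∉ ScU (Path (CT κ)) := by
  rintro ⟨j, hj⟩
  cases j with
  | zero => exact hj.elim
  | succ j =>
    obtain ⟨U, hU, hUy⟩ := hj
    obtain ⟨i, hi⟩ := nhds_child (CT_tree κ) hs hU
    have h2 : kind κ (Nat.pair 0 i :: s) = Kd.cant := by
      rw [kind_child, hk, step_leaf0]
    have h3 : Nat.pair 0 i :: s ∈ CT κ := mem_of_kind h2 (by simp)
    refine c3 h2 j (cp κ _ h3) (pt_self _ _) (hUy _ (hi _ (le_pair_right 0 i) _ (pt_self _ _)) ?_)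
    intro h
    exact cons_ne2 _ _ (pt_inj _ h)

theorem c4 {s : List ℕ} (hs : s ∈ CT κ) {k : ℕ} (hk : kind κ s = Kd.leaf k) :
    cp κ s hs ∈ Zp (Path (CT κ)) k := by
  have hN : {y : Path (CT κ) | y.f s = true} ∈ 𝓝 (cp κ s hs) := N_mem (pt_self _ _)
  have hch : ∀ (y : Path (CT κ)) (a : ℕ), y.f (a :: s) = true →
      (kind κ (a :: s) = Kd.cant ∧ y ∉ ScU (Path (CT κ))) ∨ y ∈ Sc (Path (CT κ)) (k + 1) := by
    intro y a ha
    rcases step_leaf (κ := κ) k a with h | h
    · left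
      have h2 : kind κ (a :: s) = Kd.cant := by rw [kind_child, hk, h]
      exact ⟨h2, c3' h2 y ha⟩
    · right
      have h2 : kind κ (a :: s) = Kd.wk k := by rw [kind_child, hk, h]
      exact c1 k _ y h2 ha
  refine ⟨leaf_notSc hs hk, ⟨_, hN, ?_⟩, ?_, _, hN, ?_⟩
  · intro y hy hyS
    rcases pt_or (CT_tree κ) (show y.f s = true from hy) with h | ⟨a, ha⟩
    · rw [h] at hyS
      exact absurd hyS (leaf_notSc hs hk)
    · rcases hch y a ha with h | h
      · exact absurd hyS h.2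
      · exact h
  · intro U hU
    obtain ⟨i, hi⟩ := nhds_child (CT_tree κ) hs hU
    have h2 : kind κ (Nat.pair 1 i :: s) = Kd.wk k := by
      rw [kind_child, hk, step_leaf1]
    have h3 : Nat.pair 1 i :: s ∈ CT κ := mem_of_kind h2 (by simp)
    exact ⟨cp κ _ h3, hi _ (le_pair_right 1 i) _ (pt_self _ _), c1 k _ _ h2 (pt_self _ _),
      c2 k _ h3 h2⟩
  · intro y hy hne hyS
    rcases pt_or (CT_tree κ) (show y.f s = true from hy) with h | ⟨a, ha⟩
    · exact absurd h hne
    · rcases hch y a ha with h | h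
      · exact ⟨_, N_mem ha, fun w hw => c3' h.1 w hw⟩
      · exact absurd ⟨_, h⟩ hyS

/-- Near a main point there are marked points. -/
theorem main_near {x : Path (CT κ)} (hmain : ∀ s, x.f s = true → ∃ t, kind κ s = Kd.main t)
    {U : Set (Path (CT κ))} (hU : U ∈ 𝓝 x) : ∃ (s : List ℕ) (hs : s ∈ CT κ) (k : ℕ),
      kind κ s = Kd.leaf k ∧ cp κ s hs ∈ U ∧ cp κ s hs ≠ x := by
  have hne : ∀ (s : List ℕ) (hs : s ∈ CT κ) (k : ℕ), kind κ s = Kd.leaf k → cp κ s hs ≠ x := by
    intro s hs k hk h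
    have h1 : x.f s = true := by
      rw [← h]
      exact pt_self _ _
    obtain ⟨t, ht⟩ := hmain s h1
    rw [hk] at ht
    exact absurd ht (by simp)
  by_cases hinf : ∀ t, x.f t = true → ∃ a, x.f (a :: t) = true
  · obtain ⟨t, ht, _, hty⟩ := nhds_inf hinf hU 0
    obtain ⟨u, hu⟩ := hmain t ht
    have h2 : kind κ (Nat.pair 0 0 :: t) = Kd.leaf (κ u) := by
      rw [kind_child, hu, step_main0]
    have h3 : Nat.pair 0 0 :: t ∈ CT κ := mem_of_kind h2 (by simp)
    exact ⟨_, h3, _, h2, hty _ ((pt_iff _ _ _).2 (List.suffix_cons _ _)), hne _ h3 _ h2⟩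
  · push Not at hinf
    obtain ⟨t, ht, hta⟩ := hinf
    have h1 := eq_pt (CT_tree κ) ht fun a => Bool.eq_false_iff.2 (hta a)
    obtain ⟨u, hu⟩ := hmain t ht
    rw [h1] at hU
    obtain ⟨i, hi⟩ := nhds_child (CT_tree κ) _ hU
    have h2 : kind κ (Nat.pair 0 i :: t) = Kd.leaf (κ u) := by
      rw [kind_child, hu, step_main0]
    have h3 : Nat.pair 0 i :: t ∈ CT κ := mem_of_kind h2 (by simp)
    exact ⟨_, h3, _, h2, hi _ (le_pair_right 0 i) _ (pt_self _ _), hne _ h3 _ h2⟩

theorem c5 {x : Path (CT κ)} (hmain : ∀ s, x.f s = true → ∃ t, kind κ s = Kd.main t) (k : ℕ) :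
    x ∉ Zp (Path (CT κ)) k := by
  rintro ⟨_, _, _, U, hU, h⟩
  obtain ⟨s, hs, k', hk', h1, h2⟩ := main_near hmain hU
  obtain ⟨U', hU', h3⟩ := h _ h1 h2 (leaf_notSc hs hk')
  obtain ⟨y, hy, h4, _⟩ := (c4 hs hk').2.2.1 U' hU'
  exact h3 y hy ⟨_, h4⟩

theorem all_main {x : Path (CT κ)} (h : ∀ s, x.f s = true → ∀ k, kind κ s ≠ Kd.leaf k) :
    ∀ s, x.f s = true → ∃ t, kind κ s = Kd.main t := by
  intro s
  induction s with
  | nil => exact fun _ => ⟨[], rfl⟩
  | cons a s ih =>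
    intro hs
    obtain ⟨t, ht⟩ := ih (x.tail a s hs)
    rcases step_main (κ := κ) t a with h1 | ⟨b, h1⟩
    · exfalso
      refine h _ hs (κ t) ?_
      rw [kind_child, ht, h1]
    · refine ⟨b :: t, ?_⟩
      rw [kind_child, ht, h1]

theorem c6 {x : Path (CT κ)} {k : ℕ} (hx : x ∈ Zp (Path (CT κ)) k) :
    ∃ (s : List ℕ) (hs : s ∈ CT κ), kind κ s = Kd.leaf k ∧ x = cp κ s hs := by
  by_cases h : ∃ s, x.f s = true ∧ ∃ k', kind κ s = Kd.leaf k'
  · obtain ⟨s, hs, k', hk'⟩ := h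
    rcases pt_or (CT_tree κ) hs with h1 | ⟨a, ha⟩
    · have h2 : x ∈ Zp (Path (CT κ)) k' := by
        rw [h1]
        exact c4 _ hk'
      have h3 := Zp_unique hx h2
      subst h3
      exact ⟨s, x.sub s hs, hk', h1⟩
    · exfalso
      rcases step_leaf (κ := κ) k' a with h2 | h2
      · have h3 : kind κ (a :: s) = Kd.cant := by rw [kind_child, hk', h2]
        obtain ⟨y, hy, h4, _⟩ := hx.2.2.1 _ (N_mem ha)
        exact c3' h3 y hy ⟨_, h4⟩
      · have h3 : kind κ (a :: s) = Kd.wk k' := by rw [kind_child, hk', h2]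
        exact hx.1 ⟨_, c1 k' _ x h3 ha⟩
  · push Not at h
    exact absurd hx (c5 (all_main h) k)

theorem main_desc {s : List ℕ} {t : List ℕ} (hs : kind κ s = Kd.main t) (w : List ℕ) :
    (∀ t', kind κ (w ++ s) = Kd.main t' → t <:+ t' ∧ t'.length = w.length + t.length) ∧
    (∀ k, kind κ (w ++ s) = Kd.leaf k → ∃ t', t <:+ t' ∧ k = κ t') := by
  induction w with
  | nil =>
    constructor
    · intro t' ht'
      have h1 : kind κ s = Kd.main t' := ht'
      rw [hs] at h1
      obtain rfl : t = t' := by simpa using h1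
      simp
    · intro k hk
      have h1 : kind κ s = Kd.leaf k := hk
      rw [hs] at h1
      exact absurd h1 (by simp)
  | cons a w ih =>
    obtain ⟨ih1, _⟩ := ih
    have e : kind κ (a :: (w ++ s)) = stepK κ (kind κ (w ++ s)) a := rfl
    have hcase : (∃ u, kind κ (w ++ s) = Kd.main u) ∨
        ((∀ t', kind κ (a :: (w ++ s)) ≠ Kd.main t') ∧ ∀ k, kind κ (a :: (w ++ s)) ≠ Kd.leaf k) := by
      rcases h : kind κ (w ++ s) with u | k | n | _ | _
      · exact Or.inl ⟨u, rfl⟩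
      · right
        rw [e, h]
        rcases step_leaf (κ := κ) k a with h2 | h2 <;> rw [h2] <;> simp
      · right
        rw [e, h]
        cases n <;> simp [stepK]
      · right
        rw [e, h]
        simp [stepK]
      · right
        rw [e, h]
        simp [stepK]
    rcases hcase with ⟨u, hu⟩ | ⟨h1, h2⟩
    · obtain ⟨h3, h4⟩ := ih1 u hu
      rw [hu] at e
      rcases step_main (κ := κ) u a with h5 | ⟨b, h5⟩
      · rw [h5] at e
        constructor
        · intro t' ht'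
          have h6 : kind κ (a :: (w ++ s)) = Kd.main t' := ht'
          rw [e] at h6
          exact absurd h6 (by simp)
        · intro k hk
          have h6 : kind κ (a :: (w ++ s)) = Kd.leaf k := hk
          rw [e] at h6
          have h7 : κ u = k := by simpa using h6
          exact ⟨u, h3, h7.symm⟩
      · rw [h5] at e
        constructor
        · intro t' ht'
          have h6 : kind κ (a :: (w ++ s)) = Kd.main t' := ht'
          rw [e] at h6
          have h7 : b :: u = t' := by simpa using h6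
          subst h7
          refine ⟨h3.trans (List.suffix_cons _ _), ?_⟩
          simp [h4]
          omega
        · intro k hk
          have h6 : kind κ (a :: (w ++ s)) = Kd.leaf k := hk
          rw [e] at h6
          exact absurd h6 (by simp)
    · exact ⟨fun t' ht' => absurd ht' (h1 t'), fun k hk => absurd hk (h2 k)⟩

theorem main_length {s t : List ℕ} (hs : kind κ s = Kd.main t) : t.length = s.length := by
  have h := (main_desc (κ := κ) (s := []) (t := []) rfl s).1 t (by simpa using hs)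
  simpa using h.2

theorem main_suffix {s s' t : List ℕ} (hs : kind κ s = Kd.main t) (h : s' <:+ s) :
    ∃ t', kind κ s' = Kd.main t' := by
  obtain ⟨w, rfl⟩ := h
  rcases h1 : kind κ s' with u | k | n | _ | _
  · exact ⟨u, rfl⟩
  · exfalso
    rcases List.eq_nil_or_concat w with rfl | ⟨w', a, rfl⟩
    · have : kind κ s' = Kd.main t := hs
      rw [h1] at this
      exact absurd this (by simp)
    · have e : kind κ (a :: s') = stepK κ (Kd.leaf k) a := by rw [kind_child, h1]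
      have e2 : w' ++ (a :: s') = w'.concat a ++ s' := by simp
      rw [← e2] at hs
      rcases step_leaf (κ := κ) k a with h2 | h2
      · rw [h2] at e
        rw [kind_cant e w'] at hs
        exact absurd hs (by simp)
      · rw [h2] at e
        rcases kind_wk e w' with h3 | ⟨_, h3⟩ <;> rw [h3] at hs <;> exact absurd hs (by simp)
  · exfalso
    rcases kind_wk h1 w with h3 | ⟨_, h3⟩ <;> rw [h3] at hs <;> exact absurd hs (by simp)
  · exfalso
    rw [kind_cant h1 w] at hs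
    exact absurd hs (by simp)
  · exfalso
    have : ∀ w, kind κ (w ++ s') = Kd.out := by
      intro w
      induction w with
      | nil => exact h1
      | cons a w ih =>
        show stepK κ (kind κ (w ++ s')) a = _
        rw [ih]
        rfl
    rw [this w] at hs
    exact absurd hs (by simp)

theorem c7 {s t : List ℕ} (hs : kind κ s = Kd.main t) {x : Path (CT κ)} (hx : x.f s = true) {k : ℕ}
    (h : x ∈ Zp (Path (CT κ)) k) : ∃ t', t <:+ t' ∧ k = κ t' := by
  obtain ⟨s', hs', h1, rfl⟩ := c6 h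
  obtain ⟨w, rfl⟩ := (pt_iff _ _ _).1 hx
  exact (main_desc hs w).2 k h1

theorem c8 {s t : List ℕ} (hs : s ∈ CT κ) (hk : kind κ s = Kd.main t) {U : Set (Path (CT κ))}
    (hU : U ∈ 𝓝 (cp κ s hs)) : ∃ y ∈ U, y ∈ Zp (Path (CT κ)) (κ t) := by
  obtain ⟨i, hi⟩ := nhds_child (CT_tree κ) hs hU
  have h2 : kind κ (Nat.pair 0 i :: s) = Kd.leaf (κ t) := by
    rw [kind_child, hk, step_main0]
  have h3 : Nat.pair 0 i :: s ∈ CT κ := mem_of_kind h2 (by simp)
  exact ⟨cp κ _ h3, hi _ (le_pair_right 0 i) _ (pt_self _ _), c4 h3 h2⟩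

theorem c9 (hκ : ∀ t, (κ t).unpair.1 = t.length) {s t : List ℕ} (hs : s ∈ CT κ)
    (hk : kind κ s = Kd.main t) : cp κ s hs ∈ MP (Path (CT κ)) (κ t) := by
  refine ⟨?_, fun U hU => c8 hs hk hU, ?_⟩
  · refine c5 ?_
    intro s' hs'
    exact main_suffix hk ((pt_iff _ _ _).1 hs')
  · intro k' hk'
    refine ⟨_, N_mem (pt_self _ _), ?_⟩
    intro y hy hyZ
    obtain ⟨t', ht', rfl⟩ := c7 hk hy hyZ
    rw [hκ, hκ] at hk'
    have := ht'.length_le
    omega

theorem c10 (hκ : ∀ t, (κ t).unpair.1 = t.length) {x : Path (CT κ)} {k : ℕ}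
    (hx : x ∈ MP (Path (CT κ)) k) : ∃ (s t : List ℕ) (hs : s ∈ CT κ), kind κ s = Kd.main t ∧
      k = κ t ∧ x = cp κ s hs := by
  obtain ⟨h1, h2, h3⟩ := hx
  have hnl : ∀ s, x.f s = true → ∀ k, kind κ s ≠ Kd.leaf k := by
    intro s hs k' hk'
    rcases pt_or (CT_tree κ) hs with h | ⟨a, ha⟩
    · apply h1 k'
      rw [h]
      exact c4 _ hk'
    · obtain ⟨y, hy, hyZ⟩ := h2 _ (N_mem ha)
      obtain ⟨s', hs', h4, rfl⟩ := c6 hyZ
      obtain ⟨w, hw⟩ := (pt_iff _ _ _).1 hy
      rw [← hw] at h4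
      rcases step_leaf (κ := κ) k' a with h5 | h5
      · have h6 : kind κ (a :: s) = Kd.cant := by rw [kind_child, hk', h5]
        rw [kind_cant h6 w] at h4
        exact absurd h4 (by simp)
      · have h6 : kind κ (a :: s) = Kd.wk k' := by rw [kind_child, hk', h5]
        rcases kind_wk h6 w with h7 | ⟨_, h7⟩ <;> rw [h7] at h4 <;> exact absurd h4 (by simp)
  have hmain := all_main hnl
  by_cases hinf : ∀ t, x.f t = true → ∃ a, x.f (a :: t) = true
  · exfalso
    obtain ⟨t, ht, htn, _⟩ := nhds_inf hinf Filter.univ_mem (k.unpair.1 + 1)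
    obtain ⟨u, hu⟩ := hmain t ht
    obtain ⟨y, hy, hyZ⟩ := h2 _ (N_mem ht)
    obtain ⟨t', ht', rfl⟩ := c7 hu hy hyZ
    rw [hκ] at htn
    have h4 := ht'.length_le
    have h5 := main_length hu
    omega
  · push Not at hinf
    obtain ⟨s, hs, hsa⟩ := hinf
    have h4 := eq_pt (CT_tree κ) hs fun a => Bool.eq_false_iff.2 (hsa a)
    obtain ⟨t, ht⟩ := hmain s hs
    refine ⟨s, t, x.sub s hs, ht, ?_, h4⟩
    have h5 : ¬ (κ t).unpair.1 < k.unpair.1 := by
      intro h
      obtain ⟨U, hU, h6⟩ := h3 _ h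
      rw [h4] at hU
      obtain ⟨y, hy, hyZ⟩ := c8 (x.sub s hs) ht hU
      exact h6 y hy hyZ
    obtain ⟨y, hy, hyZ⟩ := h2 _ (N_mem hs)
    obtain ⟨t', ht', rfl⟩ := c7 ht hy hyZ
    rw [hκ, hκ] at h5
    rw [ht'.eq_of_length_le (not_lt.1 h5)]

/-- The correspondence of tuples given by a homeomorphism of the path spaces. -/
def rel (κ κ' : List ℕ → ℕ) (H : Path (CT κ) ≃ₜ Path (CT κ')) (t t' : List ℕ) : Prop :=
  ∃ (s s' : List ℕ) (hs : s ∈ CT κ) (hs' : s' ∈ CT κ'), kind κ s = Kd.main t ∧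
    kind κ' s' = Kd.main t' ∧ H (cp κ s hs) = cp κ' s' hs'

theorem rel_nil (hκ : ∀ t, (κ t).unpair.1 = t.length) (hκ' : ∀ t, (κ' t).unpair.1 = t.length)
    (H : Path (CT κ) ≃ₜ Path (CT κ')) : rel κ κ' H [] [] := by
  have h0 : kind κ [] = Kd.main [] := rfl
  have h1 := MP_homeo H _ _ (c9 hκ (CT_tree κ).nil h0)
  obtain ⟨s', t', hs', h2, h3, h4⟩ := c10 hκ' h1
  have h5 : t'.length = 0 := by
    rw [← hκ' t', ← h3, hκ]
    rfl
  have h6 : s'.length = 0 := by rw [← main_length h2, h5]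
  obtain rfl := List.length_eq_zero_iff.1 h5
  obtain rfl := List.length_eq_zero_iff.1 h6
  exact ⟨[], [], (CT_tree κ).nil, hs', h0, h2, h4⟩

theorem rel_eq (hκ : ∀ t, (κ t).unpair.1 = t.length) (hκ' : ∀ t, (κ' t).unpair.1 = t.length)
    {H : Path (CT κ) ≃ₜ Path (CT κ')} {t t' : List ℕ} (h : rel κ κ' H t t') : κ t = κ' t' := by
  obtain ⟨s, s', hs, hs', h1, h2, h3⟩ := h
  have h4 := MP_homeo H _ _ (c9 hκ hs h1)
  obtain ⟨s₂, t₂, hs₂, h5, h6, h7⟩ := c10 hκ' h4
  have h8 : s' = s₂ := pt_inj _ (h3.symm.trans h7)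
  subst h8
  rw [h2] at h5
  obtain rfl : t' = t₂ := by simpa using h5
  exact h6

theorem rel_symm {H : Path (CT κ) ≃ₜ Path (CT κ')} {t t' : List ℕ} (h : rel κ κ' H t t') :
    rel κ' κ H.symm t' t := by
  obtain ⟨s, s', hs, hs', h1, h2, h3⟩ := h
  refine ⟨s', s, hs', hs, h2, h1, ?_⟩
  rw [← h3, H.symm_apply_apply]

theorem rel_ext (hκ : ∀ t, (κ t).unpair.1 = t.length) (hκ' : ∀ t, (κ' t).unpair.1 = t.length)
    {H : Path (CT κ) ≃ₜ Path (CT κ')} {t t' : List ℕ} (h : rel κ κ' H t t') (a : ℕ) :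
    ∃ a', rel κ κ' H (a :: t) (a' :: t') := by
  have hlen : t.length = t'.length := by rw [← hκ t, rel_eq hκ hκ' h, hκ']
  obtain ⟨s, s', hs, hs', h1, h2, h3⟩ := h
  have hN : {y : Path (CT κ') | y.f s' = true} ∈ 𝓝 (H (cp κ s hs)) := by
    rw [h3]
    exact N_mem (pt_self _ _)
  obtain ⟨j, hj⟩ := nhds_child (CT_tree κ) hs (nhds_pre H hN)
  have h4 : kind κ (Nat.pair (a + 1) j :: s) = Kd.main (a :: t) := by
    rw [kind_child, h1, step_main1]
  have h5 : Nat.pair (a + 1) j :: s ∈ CT κ := mem_of_kind h4 (by simp)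
  have h6 : (H (cp κ _ h5)).f s' = true := hj _ (le_pair_right _ _) _ (pt_self _ _)
  obtain ⟨s₂, t₂, hs₂, h7, h8, h9⟩ := c10 hκ' (MP_homeo H _ _ (c9 hκ h5 h4))
  rw [h9] at h6
  have h10 : s' <:+ s₂ := (pt_iff _ _ _).1 h6
  have h11 : t₂.length = t'.length + 1 := by
    rw [← hκ' t₂, ← h8, hκ]
    simp [hlen]
  have h12 : s₂.length = s'.length + 1 := by
    rw [← main_length h7, h11, main_length h2]
  obtain ⟨w, rfl⟩ := h10
  have h13 : w.length = 1 := by
    simp at h12
    omega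
  obtain ⟨i, rfl⟩ := List.length_eq_one_iff.1 h13
  have h14 : kind κ' (i :: s') = Kd.main t₂ := h7
  rw [kind_child, h2] at h14
  rcases step_main (κ := κ') t' i with h15 | ⟨b, h15⟩
  · rw [h15] at h14
    exact absurd h14 (by simp)
  · rw [h15] at h14
    obtain rfl : b :: t' = t₂ := by simpa using h14
    exact ⟨b, _, _, h5, hs₂, h4, h7, h9⟩

end code

end Pool.Agent.TH227.TM
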