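import Mathlib

/-!
Spaces which are cut into a tree of pieces by compact sets, and their path spaces.
-/

open Set Filter Topology

namespace Pool.Agent.TH227.TM

/-- A tree of finite sequences; the parent of `a :: s` is `s`. -/
structure IsTree (T : Set (List ℕ)) : Prop where
  nil : [] ∈ T
  tail : ∀ a s, a :: s ∈ T → s ∈ T

/-- The space of finite or infinite maximal chains below a point (paths starting at the root). -/
structure Path (T : Set (List ℕ)) : Type where
  f : List ℕ → Bool
  sub : ∀ s, f s = true → s ∈ T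
  nil : f [] = true
  tail : ∀ a s, f (a :: s) = true → f s = true
  one : ∀ a b s, f (a :: s) = true → f (b :: s) = true → a = b

theorem Path.ext {T : Set (List ℕ)} {x y : Path T} (h : ∀ s, x.f s = true ↔ y.f s = true) :
    x = y := by
  obtain ⟨f, a1, a2, a3, a4⟩ := x
  obtain ⟨g, b1, b2, b3, b4⟩ := y
  have : f = g := by
    funext s
    have := h s
    cases hf : f s <;> cases hg : g s <;> simp_all
  subst this
  rfl

instance (T : Set (List ℕ)) : TopologicalSpace (Path T) :=
  TopologicalSpace.induced Path.f inferInstance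

theorem Path.continuous_f {T : Set (List ℕ)} (s : List ℕ) : Continuous (fun x : Path T => x.f s) :=
  (continuous_apply s).comp continuous_induced_dom

theorem Path.suffix {T : Set (List ℕ)} (x : Path T) {s t : List ℕ} (h : s <:+ t)
    (ht : x.f t = true) : x.f s = true := by
  obtain ⟨w, rfl⟩ := h
  induction w with
  | nil => exact ht
  | cons a w ih => exact ih (x.tail a _ ht)

theorem Path.comparable {T : Set (List ℕ)} (x : Path T) : ∀ {s t : List ℕ},
    x.f s = true → x.f t = true → s.length ≤ t.length → s <:+ t := by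
  intro s t
  induction t generalizing s with
  | nil =>
    intro _ _ h
    have : s = [] := by
      apply List.length_eq_zero_iff.1
      simpa using h
    rw [this]
  | cons a t ih =>
    intro hs ht h
    rcases Nat.lt_or_ge s.length (a :: t).length with h1 | h1
    · have h2 : s.length ≤ t.length := by
        simp at h1
        omega
      exact (ih hs (x.tail a t ht) h2).trans (List.suffix_cons a t)
    · cases s with
      | nil =>
        simp at h1
      | cons b s =>
        have h2 : s.length = t.length := by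
          simp at h h1
          omega
        have h3 := ih (x.tail b s hs) (x.tail a t ht) h2.le
        have h4 : s = t := h3.eq_of_length h2
        subst h4
        have := x.one a b s ht hs
        subst this
        exact List.suffix_refl _

/-- A basic fact on the topology of the path space. -/
theorem Path.nhds_iff {T : Set (List ℕ)} (x : Path T) (U : Set (Path T)) :
    U ∈ 𝓝 x ↔ ∃ F : Finset (List ℕ), {y : Path T | ∀ s ∈ F, y.f s = x.f s} ⊆ U := by
  rw [nhds_induced, mem_comap]
  constructor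
  · rintro ⟨V, hV, hVU⟩
    rw [nhds_pi, Filter.mem_pi] at hV
    obtain ⟨I, hI, t, ht, htV⟩ := hV
    refine ⟨hI.toFinset, ?_⟩
    intro y hy
    apply hVU
    apply htV
    intro s hs
    have h1 := hy s (hI.mem_toFinset.2 hs)
    rw [h1]
    exact mem_of_mem_nhds (ht s)
  · rintro ⟨F, hF⟩
    refine ⟨{g | ∀ s ∈ F, g s = x.f s}, ?_, hF⟩
    have h1 : ∀ s : List ℕ, ∀ᶠ g : List ℕ → Bool in 𝓝 x.f, g s = x.f s := by
      intro s
      have h2 : Tendsto (fun g : List ℕ → Bool => g s) (𝓝 x.f) (𝓝 (x.f s)) :=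
        (continuous_apply s).tendsto x.f
      exact h2.eventually (p := fun b => b = x.f s) (by rw [nhds_discrete]; exact rfl)
    exact (Filter.eventually_all_finset F).2 fun s _ => h1 s

/-- A space cut into a tree of pieces. -/
structure Cut (M : Type) [TopologicalSpace M] (T : Set (List ℕ)) where
  U : List ℕ → Set M
  root : U [] = univ
  desc : ∀ a s, U (a :: s) ⊆ U s
  disj : ∀ a b s, a ≠ b → Disjoint (U (a :: s)) (U (b :: s))
  sep : ∀ s ∈ T, ∃ C : Set M, IsCompact C ∧ ∀ D : Set M, IsPreconnected D → Disjoint D C →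
    D ⊆ U s ∨ Disjoint D (U s)

variable {M M' : Type} [TopologicalSpace M] [TopologicalSpace M'] {T T' : Set (List ℕ)}

/-- The filter of neighborhoods of an end. -/
def Cut.fil (c : Cut M T) (x : Path T) : Filter M :=
  cocompact M ⊓ ⨅ s ∈ T, 𝓟 {m | m ∈ c.U s ↔ x.f s = true}

/-- The ends are given by the paths. -/
structure Cut.Conn (c : Cut M T) : Prop where
  ne : ∀ x : Path T, NeBot (c.fil x)
  conn : ∀ x : Path T, ∀ A ∈ c.fil x, ∃ B ∈ c.fil x, B ⊆ A ∧ IsPreconnected B

theorem Cut.fil_mem (c : Cut M T) (x : Path T) {s : List ℕ} (hs : s ∈ T) :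
    {m | m ∈ c.U s ↔ x.f s = true} ∈ c.fil x := by
  refine mem_inf_of_right ?_
  have h1 : (⨅ s ∈ T, 𝓟 {m | m ∈ c.U s ↔ x.f s = true}) ≤ 𝓟 {m | m ∈ c.U s ↔ x.f s = true} :=
    iInf₂_le (f := fun s (_ : s ∈ T) => 𝓟 {m | m ∈ c.U s ↔ x.f s = true}) s hs
  exact h1 (mem_principal_self _)

theorem Cut.fil_compact (c : Cut M T) (x : Path T) {C : Set M} (hC : IsCompact C) :
    Cᶜ ∈ c.fil x := mem_inf_of_left hC.compl_mem_cocompact

theorem Cut.fil_basis (c : Cut M T) (x : Path T) {A : Set M} (hA : A ∈ c.fil x) :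
    ∃ F : Finset (List ℕ), (∀ s ∈ F, s ∈ T) ∧ ∃ C : Set M, IsCompact C ∧
      {m | m ∉ C ∧ ∀ s ∈ F, (m ∈ c.U s ↔ x.f s = true)} ⊆ A := by
  rw [Cut.fil, mem_inf_iff_superset] at hA
  obtain ⟨A₁, hA₁, A₂, hA₂, hsub⟩ := hA
  obtain ⟨C, hC, hCA⟩ := mem_cocompact.1 hA₁
  rw [iInf_subtype', mem_iInf] at hA₂
  obtain ⟨I, hI, V, hV, hAV⟩ := hA₂
  refine ⟨(hI.toFinset).image Subtype.val, ?_, C, hC, ?_⟩
  · intro s hs
    obtain ⟨⟨t, ht⟩, _, rfl⟩ := Finset.mem_image.1 hs
    exact ht
  · rintro m ⟨hm, hmF⟩
    apply hsub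
    refine ⟨hCA hm, ?_⟩
    rw [hAV, mem_iInter]
    intro i
    have h1 := hV i
    rw [mem_principal] at h1
    apply h1
    have h2 := hmF i.1.1 (Finset.mem_image.2 ⟨i.1, hI.mem_toFinset.2 i.2, rfl⟩)
    exact h2

/-- Locality of the filters. -/
theorem Cut.fil_local (c : Cut M T) (x : Path T) {A : Set M} (hA : A ∈ c.fil x) :
    ∀ᶠ y in 𝓝 x, A ∈ c.fil y := by
  obtain ⟨F, hF, C, hC, hsub⟩ := c.fil_basis x hA
  have h1 : ∀ᶠ y : Path T in 𝓝 x, ∀ s ∈ F, y.f s = x.f s := by
    rw [Filter.eventually_iff, Path.nhds_iff]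
    exact ⟨F, subset_rfl⟩
  filter_upwards [h1] with y hy
  have h2 : ∀ s ∈ F, {m | m ∈ c.U s ↔ x.f s = true} ∈ c.fil y := by
    intro s hs
    have := c.fil_mem y (hF s hs)
    rw [hy s hs] at this
    exact this
  have h3 : (⋂ s ∈ F, {m | m ∈ c.U s ↔ x.f s = true}) ∈ c.fil y :=
    (Filter.biInter_finset_mem F).2 h2
  filter_upwards [h3, c.fil_compact y hC] with m m1 m2
  apply hsub
  refine ⟨m2, ?_⟩
  intro s hs
  have := mem_iInter₂.1 m1 s hs
  exact this

theorem Cut.push (c : Cut M T) (hc : c.Conn) (c' : Cut M' T') (h : M ≃ₜ M') (x : Path T)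
    {s : List ℕ} (hs : s ∈ T') :
    (c'.U s) ∈ map h (c.fil x) ∨ (c'.U s)ᶜ ∈ map h (c.fil x) := by
  obtain ⟨C, hC, hsep⟩ := c'.sep s hs
  have h1 : (h ⁻¹' C)ᶜ ∈ c.fil x := c.fil_compact x (h.isCompact_preimage.2 hC)
  obtain ⟨B, hB, hBC, hBc⟩ := hc.conn x _ h1
  have h2 : IsPreconnected (h '' B) := hBc.image _ h.continuous.continuousOn
  have h3 : Disjoint (h '' B) C := by
    rw [Set.disjoint_left]
    rintro _ ⟨m, hm, rfl⟩ hmC
    exact hBC hm hmC
  rcases hsep _ h2 h3 with h4 | h4
  · left
    exact mem_of_superset (image_mem_map hB) h4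
  · right
    refine mem_of_superset (image_mem_map hB) ?_
    intro m hm hmU
    exact Set.disjoint_left.1 h4 hm hmU

open Classical in
/-- The induced map on paths. -/
noncomputable def Cut.ext (c : Cut M T) (hc : c.Conn) (c' : Cut M' T') (hT' : IsTree T')
    (h : M ≃ₜ M') (x : Path T) : Path T' where
  f s := decide (s ∈ T' ∧ c'.U s ∈ map h (c.fil x))
  sub s hs := (of_decide_eq_true hs).1
  nil := by
    refine decide_eq_true ⟨hT'.nil, ?_⟩
    rw [c'.root]
    exact univ_mem
  tail a s hs := by
    have := of_decide_eq_true hs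
    exact decide_eq_true ⟨hT'.tail a s this.1, mem_of_superset this.2 (c'.desc a s)⟩
  one a b s ha hb := by
    have h1 := (of_decide_eq_true ha).2
    have h2 := (of_decide_eq_true hb).2
    by_contra hne
    have := hc.ne x
    have h3 := (inter_mem h1 h2)
    rw [(c'.disj a b s hne).inter_eq] at h3
    exact (inferInstance : NeBot (map h (c.fil x))).ne (empty_mem_iff_bot.1 h3)

open Classical in
theorem Cut.ext_iff (c : Cut M T) (hc : c.Conn) (c' : Cut M' T') (hT' : IsTree T')
    (h : M ≃ₜ M') (x : Path T) (s : List ℕ) :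
    (c.ext hc c' hT' h x).f s = true ↔ s ∈ T' ∧ c'.U s ∈ map h (c.fil x) := by
  show decide (s ∈ T' ∧ c'.U s ∈ map h (c.fil x)) = true ↔ _
  exact decide_eq_true_iff

theorem Cut.ext_le (c : Cut M T) (hc : c.Conn) (c' : Cut M' T') (hT' : IsTree T')
    (h : M ≃ₜ M') (x : Path T) : map h (c.fil x) ≤ c'.fil (c.ext hc c' hT' h x) := by
  refine le_inf ?_ ?_
  · have h1 : map h (cocompact M) ≤ cocompact M' := h.isClosedEmbedding.tendsto_cocompact
    exact (map_mono inf_le_left).trans h1
  · refine le_iInf₂ fun s hs => ?_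
    rw [le_principal_iff]
    rcases c.push hc c' h x hs with h1 | h1
    · filter_upwards [h1] with m hm
      exact ⟨fun _ => (c.ext_iff hc c' hT' h x s).2 ⟨hs, h1⟩, fun _ => hm⟩
    · filter_upwards [h1] with m hm
      refine ⟨fun h2 => absurd h2 hm, fun h2 => ?_⟩
      have h3 := ((c.ext_iff hc c' hT' h x s).1 h2).2
      have := hc.ne x
      have h4 := inter_mem h1 h3
      rw [compl_inter_self] at h4
      exact absurd (empty_mem_iff_bot.1 h4) (inferInstance : NeBot (map h (c.fil x))).ne

theorem Cut.ext_continuous (c : Cut M T) (hc : c.Conn) (c' : Cut M' T') (hT' : IsTree T')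
    (h : M ≃ₜ M') : Continuous (c.ext hc c' hT' h) := by
  rw [continuous_induced_rng, continuous_pi_iff]
  intro s
  rw [continuous_discrete_rng]
  -- the set where the value is given is open
  have key : ∀ x : Path T, ∀ᶠ y in 𝓝 x, (c.ext hc c' hT' h y).f s = (c.ext hc c' hT' h x).f s := by
    intro x
    by_cases hs : s ∈ T'
    · rcases c.push hc c' h x hs with h1 | h1
      · have h2 := c.fil_local x (A := h ⁻¹' (c'.U s)) h1
        filter_upwards [h2] with y hy
        rw [(c.ext_iff hc c' hT' h x s).2 ⟨hs, h1⟩, (c.ext_iff hc c' hT' h y s).2 ⟨hs, hy⟩]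
      · have h2 := c.fil_local x (A := h ⁻¹' (c'.U s)ᶜ) h1
        have aux : ∀ y : Path T, h ⁻¹' (c'.U s)ᶜ ∈ c.fil y →
            (c.ext hc c' hT' h y).f s = false := by
          intro y hy
          rw [← Bool.not_eq_true]
          intro h3
          have h4 := ((c.ext_iff hc c' hT' h y s).1 h3).2
          have := hc.ne y
          have h5 := inter_mem hy h4
          have h6 : h ⁻¹' (c'.U s)ᶜ ∩ h ⁻¹' (c'.U s) = ∅ := by
            rw [← preimage_inter, compl_inter_self, preimage_empty]
          rw [h6] at h5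
          exact this.ne (empty_mem_iff_bot.1 h5)
        filter_upwards [h2] with y hy
        rw [aux x h1, aux y hy]
    · have aux : ∀ y : Path T, (c.ext hc c' hT' h y).f s = false := by
        intro y
        rw [← Bool.not_eq_true]
        intro h3
        exact hs ((c.ext_iff hc c' hT' h y s).1 h3).1
      exact Eventually.of_forall fun y => by rw [aux x, aux y]
  intro b
  rw [isOpen_iff_mem_nhds]
  rintro x hx
  filter_upwards [key x] with y hy
  show (c.ext hc c' hT' h y).f s ∈ ({b} : Set Bool)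
  rw [hy]
  exact hx

theorem Cut.ext_ext (c : Cut M T) (hc : c.Conn) (hT : IsTree T) (c' : Cut M' T') (hc' : c'.Conn)
    (hT' : IsTree T') (h : M ≃ₜ M') (x : Path T) :
    c'.ext hc' c hT h.symm (c.ext hc c' hT' h x) = x := by
  have h1 := c.ext_le hc c' hT' h x
  have h2 : c.fil x ≤ map h.symm (c'.fil (c.ext hc c' hT' h x)) := by
    have h3 := map_mono (m := h.symm) h1
    rw [map_map] at h3
    have h4 : (h.symm ∘ h : M → M) = id := by
      funext m
      exact h.symm_apply_apply m
    rwa [h4, map_id] at h3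
  have := hc.ne x
  apply Path.ext
  intro s
  rw [c'.ext_iff hc' c hT h.symm]
  constructor
  · rintro ⟨hs, hU⟩
    have h5 := h2 hU
    have h6 := c.fil_mem x hs
    obtain ⟨m, hm1, hm2⟩ := (inter_mem h5 h6 |> fun h => this.nonempty_of_mem h)
    exact hm2.1 hm1
  · intro hs
    refine ⟨x.sub s hs, ?_⟩
    rcases c'.push hc' c h.symm (c.ext hc c' hT' h x) (x.sub s hs) with h5 | h5
    · exact h5
    · exfalso
      have h6 := h2 h5
      have h7 := c.fil_mem x (x.sub s hs)
      obtain ⟨m, hm1, hm2⟩ := (inter_mem h6 h7 |> fun h => this.nonempty_of_mem h)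
      exact hm1 (hm2.2 hs)

/-- Homeomorphic spaces have homeomorphic path spaces. -/
theorem Cut.homeo (c : Cut M T) (hc : c.Conn) (hT : IsTree T) (c' : Cut M' T') (hc' : c'.Conn)
    (hT' : IsTree T') (h : M ≃ₜ M') : Nonempty (Path T ≃ₜ Path T') := by
  refine ⟨{ toFun := c.ext hc c' hT' h
            invFun := c'.ext hc' c hT h.symm
            left_inv := c.ext_ext hc hT c' hc' hT' h
            right_inv := ?_
            continuous_toFun := c.ext_continuous hc c' hT' h
            continuous_invFun := c'.ext_continuous hc' c hT h.symm }⟩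
  intro y
  have := c'.ext_ext hc' hT' c hc hT h.symm y
  exact this

end Pool.Agent.TH227.TM
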