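import Mathlib

/-!
The local model: a Euclidean space with a sequence of holes.
-/

open Set Filter Topology
open scoped ContDiff RealInnerProductSpace

namespace Pool.Agent.TH227.TM

variable {E : Type} [NormedAddCommGroup E] [InnerProductSpace ℝ E]

/-- Two orthonormal vectors. -/
structure Fr (E : Type) [NormedAddCommGroup E] [InnerProductSpace ℝ E] where
  e0 : E
  e1 : E
  h0 : ‖e0‖ = 1
  h1 : ‖e1‖ = 1
  h01 : ⟪e0, e1⟫ = 0

theorem Fr.rank (P : Fr E) : 1 < Module.rank ℝ E := by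
  by_contra h
  rw [not_lt] at h
  have hne : P.e0 ≠ 0 := by
    intro h
    have := P.h0
    rw [h, norm_zero] at this
    norm_num at this
  rw [rank_le_one_iff] at h
  obtain ⟨v, hv⟩ := h
  obtain ⟨a, ha⟩ := hv P.e0
  obtain ⟨b, hb⟩ := hv P.e1
  have h1 := P.h01
  rw [← ha, ← hb, inner_smul_left, inner_smul_right, real_inner_self_eq_norm_sq] at h1
  have h2 : ‖a • v‖ = 1 := by rw [ha]; exact P.h0
  have h3 : ‖b • v‖ = 1 := by rw [hb]; exact P.h1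
  rw [norm_smul] at h2 h3
  have h4 : a * (b * ‖v‖ ^ 2) = 0 := by simpa using h1
  have h5 : |a| * (|b| * ‖v‖ ^ 2) = 0 := by
    rw [← abs_of_nonneg (sq_nonneg ‖v‖), ← abs_mul, ← abs_mul, h4, abs_zero]
  have h6 : (|a| * ‖v‖) * (|b| * ‖v‖) = |a| * (|b| * ‖v‖ ^ 2) := by ring
  rw [h5] at h6
  rw [Real.norm_eq_abs] at h2 h3
  rw [h2, h3] at h6
  norm_num at h6

/-- The centers of the holes. -/
noncomputable def Fr.ctr (P : Fr E) (i : ℕ) : E := (5 * (i : ℝ)) • P.e0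

@[simp] theorem Fr.ctr_zero (P : Fr E) : P.ctr 0 = 0 := by simp [Fr.ctr]

theorem Fr.norm_ctr (P : Fr E) (i : ℕ) : ‖P.ctr i‖ = 5 * i := by
  rw [Fr.ctr, norm_smul, P.h0, Real.norm_of_nonneg (by positivity)]
  ring

theorem Fr.ctr_dist (P : Fr E) {i j : ℕ} (h : i ≠ j) : 5 ≤ ‖P.ctr i - P.ctr j‖ := by
  have : P.ctr i - P.ctr j = (5 * ((i : ℝ) - j)) • P.e0 := by
    rw [Fr.ctr, Fr.ctr, ← sub_smul]
    congr 1
    ring
  rw [this, norm_smul, P.h0, mul_one, Real.norm_eq_abs, abs_mul]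
  have h2 : (1 : ℝ) ≤ |(i : ℝ) - j| := by
    have h3 : (1 : ℤ) ≤ |(i : ℤ) - j| := by
      apply Int.one_le_abs
      omega
    exact_mod_cast h3
  have h5 : |(5 : ℝ)| = 5 := by norm_num
  rw [h5]
  linarith

theorem Fr.ctr_sep (P : Fr E) {i j : ℕ} {x : E} (h1 : ‖x - P.ctr i‖ < 2) (h2 : ‖x - P.ctr j‖ < 2) :
    i = j := by
  by_contra h
  have h3 := P.ctr_dist h
  have h4 : ‖P.ctr i - P.ctr j‖ ≤ ‖x - P.ctr i‖ + ‖x - P.ctr j‖ := by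
    have : P.ctr i - P.ctr j = (x - P.ctr j) - (x - P.ctr i) := by abel
    rw [this]
    exact (norm_sub_le _ _).trans (by rw [add_comm])
  linarith

/-- The inversion. -/
noncomputable def nv (x : E) : E := (‖x‖ ^ 2)⁻¹ • x

theorem nv_norm (x : E) : ‖nv x‖ = ‖x‖⁻¹ := by
  by_cases h : ‖x‖ = 0
  · rw [norm_eq_zero] at h
    subst h
    simp [nv]
  · rw [nv, norm_smul, Real.norm_of_nonneg (by positivity)]
    field_simp

theorem nv_nv {x : E} (h : x ≠ 0) : nv (nv x) = x := by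
  have h1 : ‖x‖ ≠ 0 := norm_ne_zero_iff.2 h
  show (‖nv x‖ ^ 2)⁻¹ • nv x = x
  rw [nv_norm, nv, smul_smul]
  have : ((‖x‖⁻¹ ^ 2)⁻¹ * (‖x‖ ^ 2)⁻¹) = 1 := by
    field_simp
  rw [this, one_smul]

theorem nv_smooth {x : E} (h : x ≠ 0) : ContDiffAt ℝ ∞ (nv : E → E) x := by
  have h1 : ‖x‖ ≠ 0 := norm_ne_zero_iff.2 h
  have h2 : ContDiffAt ℝ ∞ (fun x : E => ‖x‖ ^ 2) x := (contDiff_norm_sq ℝ).contDiffAt
  exact (h2.inv (by positivity)).smul contDiffAt_id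

theorem nv_ann {x : E} (h : 1 / 2 < ‖x‖ ∧ ‖x‖ < 2) : 1 / 2 < ‖nv x‖ ∧ ‖nv x‖ < 2 := by
  rw [nv_norm]
  have h0 : (0 : ℝ) < ‖x‖ := by linarith [h.1]
  constructor
  · rw [one_div]
    exact inv_strictAnti₀ h0 h.2
  · have := inv_strictAnti₀ (by norm_num : (0 : ℝ) < 1 / 2) h.1
    simpa using this

omit [InnerProductSpace ℝ E] in
theorem ann_ne {x : E} (h : 1 / 2 < ‖x‖) : x ≠ 0 := by
  rintro rfl
  rw [norm_zero] at h
  norm_num at h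

theorem nv_lt {x : E} (h0 : x ≠ 0) : ‖nv x‖ < 1 ↔ 1 < ‖x‖ := by
  rw [nv_norm]
  exact inv_lt_one_iff₀.trans ⟨fun h => h.resolve_left (not_le.2 (norm_pos_iff.2 h0)), Or.inr⟩

theorem nv_gt {x : E} (h0 : x ≠ 0) : 1 < ‖nv x‖ ↔ ‖x‖ < 1 := by
  rw [nv_norm]
  exact one_lt_inv₀ (norm_pos_iff.2 h0)

theorem nv_eq {x : E} : ‖nv x‖ = 1 ↔ ‖x‖ = 1 := by
  rw [nv_norm]
  exact inv_eq_one

/-- Shells are connected. -/
theorem shell_preconnected (P : Fr E) (c : E) {R : Set ℝ} (hR : IsPreconnected R)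
    (hpos : ∀ r ∈ R, 0 < r) : IsPreconnected {x : E | ‖x - c‖ ∈ R} := by
  have h1 : {x : E | ‖x - c‖ ∈ R} =
      (fun p : ℝ × E => c + p.1 • p.2) '' (R ×ˢ Metric.sphere (0 : E) 1) := by
    ext x
    constructor
    · intro hx
      have hx' : ‖x - c‖ ∈ R := hx
      have h0 : ‖x - c‖ ≠ 0 := (hpos _ hx').ne'
      refine ⟨(‖x - c‖, ‖x - c‖⁻¹ • (x - c)), ⟨hx', ?_⟩, ?_⟩
      · rw [mem_sphere_zero_iff_norm, norm_smul, norm_inv, norm_norm]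
        exact inv_mul_cancel₀ h0
      · show c + ‖x - c‖ • (‖x - c‖⁻¹ • (x - c)) = x
        rw [smul_smul, mul_inv_cancel₀ h0, one_smul]
        abel
    · rintro ⟨⟨r, u⟩, ⟨hr, hu⟩, rfl⟩
      show ‖c + r • u - c‖ ∈ R
      have : c + r • u - c = r • u := by abel
      rw [this, norm_smul, mem_sphere_zero_iff_norm.1 hu, mul_one,
        Real.norm_of_nonneg (hpos r hr).le]
      exact hr
  rw [h1]
  refine (hR.prod (isPreconnected_sphere P.rank 0 1)).image _ ?_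
  fun_prop

/-- The locally finite family of the closed balls. -/
theorem holes_closed (P : Fr E) (A : Set ℕ) :
    IsClosed {x : E | ∃ i ∈ A, ‖x - P.ctr i‖ ≤ 1 / 2} := by
  have h1 : {x : E | ∃ i ∈ A, ‖x - P.ctr i‖ ≤ 1 / 2} =
      ⋃ i : A, Metric.closedBall (P.ctr i) (1 / 2) := by
    ext x
    simp [dist_eq_norm]
  rw [h1]
  refine LocallyFinite.isClosed_iUnion ?_ fun i => Metric.isClosed_closedBall
  intro x
  refine ⟨Metric.ball x 1, Metric.ball_mem_nhds x one_pos, ?_⟩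
  have hfin : {i : A | (i : ℕ) ≤ ⌈‖x‖⌉₊ + 2}.Finite := by
    refine Set.Finite.of_injOn (f := fun i : A => (i : ℕ)) (t := Set.Iic (⌈‖x‖⌉₊ + 2))
      (fun i hi => hi) (fun i _ j _ h => Subtype.ext h) (Set.finite_Iic _)
  refine hfin.subset ?_
  rintro i ⟨y, hy1, hy2⟩
  rw [Metric.mem_closedBall, dist_eq_norm] at hy1
  rw [Metric.mem_ball, dist_eq_norm] at hy2
  have h2 : ‖P.ctr i‖ ≤ ‖x‖ + 2 := by
    have : P.ctr i = x + (y - x) - (y - P.ctr i) := by abel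
    rw [this]
    have a1 := norm_sub_le (x + (y - x)) (y - P.ctr i)
    have a2 := norm_add_le x (y - x)
    linarith
  rw [P.norm_ctr] at h2
  have h3 : ‖x‖ ≤ ⌈‖x‖⌉₊ := Nat.le_ceil _
  have h4 : ((i : ℕ) : ℝ) ≤ ((⌈‖x‖⌉₊ + 2 : ℕ) : ℝ) := by
    push_cast
    have : (0 : ℝ) ≤ ((i : ℕ) : ℝ) := by positivity
    linarith
  exact_mod_cast h4

/-- Removing a family of balls from a connected open set leaves a connected set. -/
theorem holes_preconnected (P : Fr E) (A : Set ℕ) {X : Set E} (hX : IsOpen X)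
    (hXc : IsPreconnected X) (hA : ∀ i ∈ A, Metric.ball (P.ctr i) 2 ⊆ X) :
    IsPreconnected {x : E | x ∈ X ∧ ∀ i ∈ A, 1 / 2 < ‖x - P.ctr i‖} := by
  set G : Set E := {x : E | x ∈ X ∧ ∀ i ∈ A, 1 / 2 < ‖x - P.ctr i‖} with hG
  have hGo : IsOpen G := by
    have : G = X ∩ {x : E | ∃ i ∈ A, ‖x - P.ctr i‖ ≤ 1 / 2}ᶜ := by
      ext x
      simp [hG]
    rw [this]
    exact hX.inter (holes_closed P A).isOpen_compl
  have hAnn : ∀ i, IsPreconnected {x : E | ‖x - P.ctr i‖ ∈ Ioo (1 / 2 : ℝ) 2} := fun i =>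
    shell_preconnected P _ isPreconnected_Ioo (fun r hr => by linarith [hr.1])
  have hAG : ∀ i ∈ A, {x : E | ‖x - P.ctr i‖ ∈ Ioo (1 / 2 : ℝ) 2} ⊆ G := by
    intro i hi x hx
    refine ⟨hA i hi (by rw [Metric.mem_ball, dist_eq_norm]; exact hx.2), ?_⟩
    intro j hj
    by_contra h
    rw [not_lt] at h
    have : i = j := P.ctr_sep hx.2 (by linarith)
    subst this
    exact absurd hx.1 (not_lt.2 h)
  have hAne : ∀ i, {x : E | ‖x - P.ctr i‖ ∈ Ioo (1 / 2 : ℝ) 2}.Nonempty := by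
    intro i
    refine ⟨P.ctr i + P.e0, ?_⟩
    show ‖P.ctr i + P.e0 - P.ctr i‖ ∈ Ioo (1 / 2 : ℝ) 2
    rw [add_sub_cancel_left, P.h0]
    norm_num
  rw [isPreconnected_iff_subset_of_disjoint] at hXc ⊢
  intro u v hu hv hGuv hGe
  -- the annuli lie on one side
  have hside : ∀ i ∈ A, {x : E | ‖x - P.ctr i‖ ∈ Ioo (1 / 2 : ℝ) 2} ⊆ u ∨
      {x : E | ‖x - P.ctr i‖ ∈ Ioo (1 / 2 : ℝ) 2} ⊆ v := by
    intro i hi
    refine (isPreconnected_iff_subset_of_disjoint.1 (hAnn i)) u v hu hv ((hAG i hi).trans hGuv) ?_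
    rw [eq_empty_iff_forall_notMem] at hGe ⊢
    rintro x ⟨hx1, hx2⟩
    exact hGe x ⟨hAG i hi hx1, hx2⟩
  have hnot : ∀ i ∈ A, ¬ ({x : E | ‖x - P.ctr i‖ ∈ Ioo (1 / 2 : ℝ) 2} ⊆ u ∧
      {x : E | ‖x - P.ctr i‖ ∈ Ioo (1 / 2 : ℝ) 2} ⊆ v) := by
    rintro i hi ⟨h1, h2⟩
    obtain ⟨x, hx⟩ := hAne i
    rw [eq_empty_iff_forall_notMem] at hGe
    exact hGe x ⟨hAG i hi hx, h1 hx, h2 hx⟩
  set u' : Set E := (u ∩ G) ∪ {x | ∃ i ∈ A, {x : E | ‖x - P.ctr i‖ ∈ Ioo (1 / 2 : ℝ) 2} ⊆ u ∧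
    ‖x - P.ctr i‖ < 2} with hu'
  set v' : Set E := (v ∩ G) ∪ {x | ∃ i ∈ A, {x : E | ‖x - P.ctr i‖ ∈ Ioo (1 / 2 : ℝ) 2} ⊆ v ∧
    ‖x - P.ctr i‖ < 2} with hv'
  have hop : ∀ w : Set E, IsOpen {x | ∃ i ∈ A,
      {x : E | ‖x - P.ctr i‖ ∈ Ioo (1 / 2 : ℝ) 2} ⊆ w ∧ ‖x - P.ctr i‖ < 2} := by
    intro w
    have : {x | ∃ i ∈ A, {x : E | ‖x - P.ctr i‖ ∈ Ioo (1 / 2 : ℝ) 2} ⊆ w ∧
        ‖x - P.ctr i‖ < 2} = ⋃ i ∈ {i | i ∈ A ∧
          {x : E | ‖x - P.ctr i‖ ∈ Ioo (1 / 2 : ℝ) 2} ⊆ w}, Metric.ball (P.ctr i) 2 := by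
      ext x
      simp only [mem_iUnion, Metric.mem_ball, dist_eq_norm]
      constructor
      · rintro ⟨i, h1, h2, h3⟩
        exact ⟨i, ⟨h1, h2⟩, h3⟩
      · rintro ⟨i, ⟨h1, h2⟩, h3⟩
        exact ⟨i, h1, h2, h3⟩
    rw [this]
    exact isOpen_biUnion fun i _ => Metric.isOpen_ball
  have hcov : X ⊆ u' ∪ v' := by
    intro x hx
    by_cases h : ∃ i ∈ A, ‖x - P.ctr i‖ < 2
    · obtain ⟨i, hi, hxi⟩ := h
      rcases hside i hi with h1 | h1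
      · exact Or.inl (Or.inr ⟨i, hi, h1, hxi⟩)
      · exact Or.inr (Or.inr ⟨i, hi, h1, hxi⟩)
    · push Not at h
      have hxG : x ∈ G := ⟨hx, fun i hi => by linarith [h i hi]⟩
      rcases hGuv hxG with h1 | h1
      · exact Or.inl (Or.inl ⟨h1, hxG⟩)
      · exact Or.inr (Or.inl ⟨h1, hxG⟩)
  have hcase : ∀ x ∈ G, ∀ i ∈ A, ‖x - P.ctr i‖ < 2 →
      x ∈ {x : E | ‖x - P.ctr i‖ ∈ Ioo (1 / 2 : ℝ) 2} := fun x hx i hi h => ⟨hx.2 i hi, h⟩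
  have hdis : X ∩ (u' ∩ v') = ∅ := by
    rw [eq_empty_iff_forall_notMem] at hGe ⊢
    rintro x ⟨hxX, hxu, hxv⟩
    rcases hxu with ⟨h1, h2⟩ | ⟨i, hi, h1, h2⟩
    · rcases hxv with ⟨h3, _⟩ | ⟨j, hj, h3, h4⟩
      · exact hGe x ⟨h2, h1, h3⟩
      · exact hGe x ⟨h2, h1, h3 (hcase x h2 j hj h4)⟩
    · rcases hxv with ⟨h3, h5⟩ | ⟨j, hj, h3, h4⟩
      · exact hGe x ⟨h5, h1 (hcase x h5 i hi h2), h3⟩
      · have : i = j := P.ctr_sep h2 h4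
        subst this
        exact hnot i hi ⟨h1, h3⟩
  rcases hXc u' v' ((hu.inter hGo).union (hop u)) ((hv.inter hGo).union (hop v)) hcov hdis with h | h
  · left
    intro x hx
    rcases h hx.1 with h1 | ⟨i, hi, h1, h2⟩
    · exact h1.1
    · exact h1 (hcase x hx i hi h2)
  · right
    intro x hx
    rcases h hx.1 with h1 | ⟨i, hi, h1, h2⟩
    · exact h1.1
    · exact h1 (hcase x hx i hi h2)

end Pool.Agent.TH227.TM
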