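import Pool.Agent.TH227.CM.Mfd
import Pool.Agent.TH227.TM.Model
import Pool.Agent.TH227.TM.Ends

/-!
The manifold of a tree: one Euclidean space with holes for each node, glued along annuli.
-/

open Set Filter Topology
open scoped ContDiff RealInnerProductSpace

namespace Pool.Agent.TH227.TM

open Pool.Agent.TH227.CM

variable {E : Type} [NormedAddCommGroup E] [InnerProductSpace ℝ E]

/-- The chart domain of the node `s`. -/
def Dm (P : Fr E) (T : Set (List ℕ)) (s : List ℕ) : Set E :=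
  {x | (s ≠ [] → 1 / 2 < ‖x‖) ∧ ∀ a, a :: s ∈ T → 1 / 2 < ‖x - P.ctr (a + 1)‖}

/-- The annulus around a point. -/
def Ann (c : E) : Set E := {x | 1 / 2 < ‖x - c‖ ∧ ‖x - c‖ < 2}

/-- The gluing domains. -/
def VV (P : Fr E) (T : Set (List ℕ)) (s t : List ℕ) : Set E :=
  {x | s ∈ T ∧ t ∈ T ∧ ((t = s ∧ x ∈ Dm P T s) ∨ (∃ a, t = a :: s ∧ x ∈ Ann (P.ctr (a + 1))) ∨
    (∃ a, s = a :: t ∧ x ∈ Ann (0 : E)))}

/-- The gluing maps. -/
noncomputable def raw (P : Fr E) (s t : List ℕ) (x : E) : E :=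
  if t = s then x else if s.length < t.length then nv (x - P.ctr (t.headD 0 + 1))
    else nv x + P.ctr (s.headD 0 + 1)

variable {P : Fr E} {T : Set (List ℕ)}

theorem raw_self (s : List ℕ) (x : E) : raw P s s x = x := if_pos rfl

theorem cons_ne (a : ℕ) (s : List ℕ) : a :: s ≠ s := by
  intro h
  have := congrArg List.length h
  simp at this

theorem raw_child (s : List ℕ) (a : ℕ) (x : E) :
    raw P s (a :: s) x = nv (x - P.ctr (a + 1)) := by
  unfold raw
  rw [if_neg (cons_ne a s), if_pos (by simp)]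
  rfl

theorem raw_parent (s : List ℕ) (a : ℕ) (x : E) :
    raw P (a :: s) s x = nv x + P.ctr (a + 1) := by
  unfold raw
  rw [if_neg (cons_ne a s).symm, if_neg (by simp)]
  rfl

omit [InnerProductSpace ℝ E] in
theorem ann_zero {x : E} : x ∈ Ann (0 : E) ↔ 1 / 2 < ‖x‖ ∧ ‖x‖ < 2 := by
  unfold Ann
  simp

theorem ann_far {i j : ℕ} (h : i ≠ j) {x : E} (hx : ‖x - P.ctr i‖ < 2) : 3 ≤ ‖x - P.ctr j‖ := by
  have h3 := P.ctr_dist h
  have h4 : ‖P.ctr i - P.ctr j‖ ≤ ‖x - P.ctr j‖ + ‖x - P.ctr i‖ := by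
    have : P.ctr i - P.ctr j = (x - P.ctr j) - (x - P.ctr i) := by abel
    rw [this]
    exact norm_sub_le _ _
  linarith

theorem ann_child_dm {s : List ℕ} {a : ℕ} {x : E} (hx : x ∈ Ann (P.ctr (a + 1))) :
    x ∈ Dm P T s := by
  refine ⟨fun _ => ?_, fun b hb => ?_⟩
  · have := ann_far (P := P) (i := a + 1) (j := 0) (by omega) hx.2
    rw [P.ctr_zero, sub_zero] at this
    linarith
  · by_cases h : a = b
    · subst h
      exact hx.1
    · have := ann_far (P := P) (i := a + 1) (j := b + 1) (by omega) hx.2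
      linarith

theorem ann_parent_dm {s : List ℕ} {x : E} (hx : x ∈ Ann (0 : E)) : x ∈ Dm P T s := by
  rw [ann_zero] at hx
  refine ⟨fun _ => hx.1, fun b hb => ?_⟩
  have := ann_far (P := P) (i := 0) (j := b + 1) (x := x) (by omega) (by simpa using hx.2)
  linarith

theorem vv_dm {s t : List ℕ} {x : E} (h : x ∈ VV P T s t) : x ∈ Dm P T s := by
  obtain ⟨_, _, ⟨_, h⟩ | ⟨a, _, h⟩ | ⟨a, _, h⟩⟩ := h
  · exact h
  · exact ann_child_dm h
  · exact ann_parent_dm h

theorem vv_self {s : List ℕ} {x : E} : x ∈ VV P T s s ↔ s ∈ T ∧ x ∈ Dm P T s := by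
  constructor
  · intro h
    exact ⟨h.1, vv_dm h⟩
  · rintro ⟨h1, h2⟩
    exact ⟨h1, h1, Or.inl ⟨rfl, h2⟩⟩

theorem vv_child {s : List ℕ} {a : ℕ} {x : E} :
    x ∈ VV P T s (a :: s) ↔ s ∈ T ∧ a :: s ∈ T ∧ x ∈ Ann (P.ctr (a + 1)) := by
  constructor
  · rintro ⟨h1, h2, ⟨h, _⟩ | ⟨b, h, h3⟩ | ⟨b, h, h3⟩⟩
    · exact absurd h (cons_ne a s)
    · obtain ⟨rfl, _⟩ := List.cons.inj h
      exact ⟨h1, h2, h3⟩
    · have := congrArg List.length h
      simp at this
      omega
  · rintro ⟨h1, h2, h3⟩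
    exact ⟨h1, h2, Or.inr (Or.inl ⟨a, rfl, h3⟩)⟩

theorem vv_parent {s : List ℕ} {a : ℕ} {x : E} :
    x ∈ VV P T (a :: s) s ↔ s ∈ T ∧ a :: s ∈ T ∧ x ∈ Ann (0 : E) := by
  constructor
  · rintro ⟨h1, h2, ⟨h, _⟩ | ⟨b, h, h3⟩ | ⟨b, h, h3⟩⟩
    · exact absurd h.symm (cons_ne a s)
    · have := congrArg List.length h
      simp at this
      omega
    · exact ⟨h2, h1, h3⟩
  · rintro ⟨h1, h2, h3⟩
    exact ⟨h2, h1, Or.inr (Or.inr ⟨a, rfl, h3⟩)⟩

theorem nv_shift_ann {c x : E} (h : x ∈ Ann c) : nv (x - c) ∈ Ann (0 : E) :=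
  ann_zero.2 (nv_ann h)

theorem nv_add_ann {c x : E} (h : x ∈ Ann (0 : E)) : nv x + c ∈ Ann c := by
  have := nv_ann (ann_zero.1 h)
  unfold Ann
  simpa using this

theorem vv_inv {s t : List ℕ} {x : E} (h : x ∈ VV P T s t) :
    raw P s t x ∈ VV P T t s ∧ raw P t s (raw P s t x) = x := by
  obtain ⟨h1, h2, ⟨rfl, h3⟩ | ⟨a, rfl, h3⟩ | ⟨a, rfl, h3⟩⟩ := id h
  · rw [raw_self, raw_self]
    exact ⟨h, rfl⟩
  · rw [raw_child, raw_parent, vv_parent]
    refine ⟨⟨h1, h2, nv_shift_ann h3⟩, ?_⟩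
    rw [nv_nv (ann_ne h3.1)]
    abel
  · rw [raw_parent, raw_child, vv_child]
    refine ⟨⟨h2, h1, nv_add_ann h3⟩, ?_⟩
    rw [add_sub_cancel_right, nv_nv (ann_ne (ann_zero.1 h3).1)]

theorem vv_unique {s t u : List ℕ} {x : E} (h : x ∈ VV P T s t) (h' : x ∈ VV P T s u)
    (ht : t ≠ s) (hu : u ≠ s) : t = u := by
  obtain ⟨_, _, ⟨h1, _⟩ | ⟨a, rfl, h3⟩ | ⟨a, rfl, h3⟩⟩ := h
  · exact absurd h1 ht
  · obtain ⟨_, _, ⟨h1', _⟩ | ⟨b, rfl, h3'⟩ | ⟨b, rfl, h3'⟩⟩ := h'
    · exact absurd h1' hu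
    · have := P.ctr_sep h3.2 h3'.2
      have : a = b := by omega
      rw [this]
    · have := P.ctr_sep (i := a + 1) (j := 0) h3.2 (by simpa using h3'.2)
      omega
  · obtain ⟨_, _, ⟨h1', _⟩ | ⟨b, rfl, h3'⟩ | ⟨b, h4, h3'⟩⟩ := h'
    · exact absurd h1' hu
    · have := P.ctr_sep (i := 0) (j := b + 1) (x := x) (by simpa using h3.2) h3'.2
      omega
    · exact (List.cons.inj h4).2

theorem dm_open (s : List ℕ) : IsOpen (Dm P T s) := by
  have h1 : Dm P T s = {x : E | s ≠ [] → 1 / 2 < ‖x‖} ∩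
      {x : E | ∃ i ∈ {i | ∃ a, a :: s ∈ T ∧ i = a + 1}, ‖x - P.ctr i‖ ≤ 1 / 2}ᶜ := by
    ext x
    constructor
    · rintro ⟨a1, a2⟩
      refine ⟨a1, ?_⟩
      rintro ⟨i, ⟨a, ha, rfl⟩, hi⟩
      exact absurd (a2 a ha) (not_lt.2 hi)
    · rintro ⟨a1, a2⟩
      refine ⟨a1, ?_⟩
      intro a ha
      by_contra h
      exact a2 ⟨a + 1, ⟨a, ha, rfl⟩, not_lt.1 h⟩
  rw [h1]
  refine IsOpen.inter ?_ (holes_closed P _).isOpen_compl
  by_cases hs : s = []
  · have : {x : E | s ≠ [] → 1 / 2 < ‖x‖} = univ := by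
      ext x
      simp [hs]
    rw [this]
    exact isOpen_univ
  · have : {x : E | s ≠ [] → 1 / 2 < ‖x‖} = {x : E | 1 / 2 < ‖x‖} := by
      ext x
      simp [hs]
    rw [this]
    exact isOpen_lt continuous_const continuous_norm

omit [InnerProductSpace ℝ E] in
theorem ann_open (c : E) : IsOpen (Ann c) := by
  have : Ann c = {x : E | 1 / 2 < ‖x - c‖} ∩ {x : E | ‖x - c‖ < 2} := rfl
  rw [this]
  exact (isOpen_lt continuous_const (by fun_prop)).inter (isOpen_lt (by fun_prop) continuous_const)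

theorem vv_open (s t : List ℕ) : IsOpen (VV P T s t) := by
  rw [isOpen_iff_mem_nhds]
  rintro x ⟨h1, h2, ⟨h, h3⟩ | ⟨a, h, h3⟩ | ⟨a, h, h3⟩⟩
  · filter_upwards [(dm_open s).mem_nhds h3] with y hy
    exact ⟨h1, h2, Or.inl ⟨h, hy⟩⟩
  · filter_upwards [(ann_open _).mem_nhds h3] with y hy
    exact ⟨h1, h2, Or.inr (Or.inl ⟨a, h, hy⟩)⟩
  · filter_upwards [(ann_open _).mem_nhds h3] with y hy
    exact ⟨h1, h2, Or.inr (Or.inr ⟨a, h, hy⟩)⟩

theorem raw_smooth {s t : List ℕ} {x : E} (h : x ∈ VV P T s t) :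
    ContDiffAt ℝ ∞ (raw P s t) x := by
  obtain ⟨h1, h2, ⟨rfl, h3⟩ | ⟨a, rfl, h3⟩ | ⟨a, rfl, h3⟩⟩ := h
  · have : raw P t t = fun x => x := by
      funext y
      exact raw_self t y
    rw [this]
    exact contDiffAt_id
  · have : raw P s (a :: s) = fun x => nv (x - P.ctr (a + 1)) := by
      funext y
      exact raw_child s a y
    rw [this]
    have h4 : ContDiffAt ℝ ∞ (nv : E → E) (x - P.ctr (a + 1)) := nv_smooth (ann_ne h3.1)
    exact h4.comp x (contDiffAt_id.sub contDiffAt_const)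
  · have : raw P (a :: t) t = fun x => nv x + P.ctr (a + 1) := by
      funext y
      exact raw_parent t a y
    rw [this]
    exact (nv_smooth (ann_ne (ann_zero.1 h3).1)).add contDiffAt_const

/-- The indexing of the nodes. -/
def en : ℕ ≃ List ℕ := (Denumerable.eqv (List ℕ)).symm

open Classical in
/-- The code of the manifold of a tree. -/
noncomputable def tcode (P : Fr E) (T : Set (List ℕ)) : Code E where
  V i j := VV P T (en i) (en j)
  φ i j x := if x ∈ VV P T (en i) (en j) then raw P (en i) (en j) x else 0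
  isOpen i j := vv_open _ _
  sub i j x hx := vv_self.2 ⟨hx.1, vv_dm hx⟩
  refl i x hx := by
    rw [if_pos hx, raw_self]
  cocycle i j k x hx hy := by
    rw [if_pos hx, if_pos hy]
    by_cases h1 : en j = en i
    · rw [h1, raw_self, if_pos hy]
      exact ⟨hy, rfl⟩
    by_cases h2 : en k = en i
    · have h3 := vv_inv hx
      rw [h2, if_pos h3.1, raw_self]
      exact h3
    have h4 := vv_unique hx hy h1 h2
    rw [← h4]
    have h3 := (vv_inv hx).1
    have h5 : raw P (en i) (en j) x ∈ VV P T (en j) (en j) := vv_self.2 ⟨h3.1, vv_dm h3⟩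
    rw [if_pos h5, raw_self]
    exact ⟨h5, rfl⟩
  smooth i j x hx := by
    have h1 : ContDiffAt ℝ ∞ (fun x => if x ∈ VV P T (en i) (en j) then raw P (en i) (en j) x
        else 0) x := by
      refine (raw_smooth hx).congr_of_eventuallyEq ?_
      filter_upwards [(vv_open _ _).mem_nhds hx] with y hy
      exact if_pos hy
    exact h1.contDiffWithinAt
  off i j x hx := if_neg hx
  haus i j x hx y hy hne := by
    have hx' := vv_self.1 hx
    have hy' := vv_self.1 hy
    by_cases h1 : en j = en i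
    · rw [h1] at hne hy ⊢
      have h2 : x ≠ y := by
        intro h
        apply hne
        refine ⟨hx, ?_⟩
        rw [if_pos hx, raw_self]
        exact h
      filter_upwards [(isOpen_ne_fun continuous_fst continuous_snd).mem_nhds
        (show (x, y) ∈ {w : E × E | w.1 ≠ w.2} from h2)] with q hq
      rintro ⟨q1, q2⟩
      rw [if_pos q1, raw_self] at q2
      exact hq q2
    by_cases h2 : ∃ a, en j = a :: en i
    · obtain ⟨a, ha⟩ := h2
      rw [ha] at hne hy hy' ⊢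
      have hc : 1 / 2 < ‖x - P.ctr (a + 1)‖ := hx'.2.2 a hy'.1
      have h3 : nv (x - P.ctr (a + 1)) ≠ y := by
        intro h
        apply hne
        have h4 : 1 / 2 < ‖nv (x - P.ctr (a + 1))‖ := by
          rw [h]
          exact hy'.2.1 (by simp)
        have h5 := nv_ann (x := nv (x - P.ctr (a + 1))) ⟨h4, by
          rw [nv_norm]
          have := inv_strictAnti₀ (by norm_num : (0 : ℝ) < 1 / 2) hc
          simpa using this⟩
        rw [nv_nv (ann_ne hc)] at h5
        have h6 : x ∈ VV P T (en i) (a :: en i) := vv_child.2 ⟨hx'.1, hy'.1, h5⟩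
        refine ⟨h6, ?_⟩
        rw [if_pos h6, raw_child]
        exact h
      have h4 : ContinuousAt (fun q : E × E => nv (q.1 - P.ctr (a + 1))) (x, y) := by
        have h5 : ContinuousAt (nv : E → E) (x - P.ctr (a + 1)) := (nv_smooth (ann_ne hc)).continuousAt
        exact ContinuousAt.comp (f := fun q : E × E => q.1 - P.ctr (a + 1)) (g := nv) h5
          (by fun_prop)
      have h5 := (h4.tendsto.prodMk_nhds (continuous_snd.tendsto (x, y))).eventually
        ((isOpen_ne_fun continuous_fst continuous_snd).mem_nhds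
        (show (nv (x - P.ctr (a + 1)), y) ∈ {w : E × E | w.1 ≠ w.2} from h3))
      filter_upwards [h5] with q hq
      rintro ⟨q1, q2⟩
      rw [if_pos q1, raw_child] at q2
      exact hq q2
    by_cases h3 : ∃ a, en i = a :: en j
    · obtain ⟨a, ha⟩ := h3
      rw [ha] at hne hx hx' ⊢
      have hc : 1 / 2 < ‖x‖ := hx'.2.1 (by simp)
      have h3 : nv x + P.ctr (a + 1) ≠ y := by
        intro h
        apply hne
        have h4 : 1 / 2 < ‖nv x‖ := by
          have := hy'.2.2 a hx'.1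
          rw [← h, add_sub_cancel_right] at this
          exact this
        have h5 := nv_ann (x := nv x) ⟨h4, by
          rw [nv_norm]
          have := inv_strictAnti₀ (by norm_num : (0 : ℝ) < 1 / 2) hc
          simpa using this⟩
        rw [nv_nv (ann_ne hc)] at h5
        have h6 : x ∈ VV P T (a :: en j) (en j) := vv_parent.2 ⟨hy'.1, hx'.1, ann_zero.2 h5⟩
        refine ⟨h6, ?_⟩
        rw [if_pos h6, raw_parent]
        exact h
      have h4 : ContinuousAt (fun q : E × E => nv q.1 + P.ctr (a + 1)) (x, y) := by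
        have h5 : ContinuousAt (nv : E → E) x := (nv_smooth (ann_ne hc)).continuousAt
        exact (ContinuousAt.comp (f := fun q : E × E => q.1) (g := nv) h5
          (by fun_prop)).add continuousAt_const
      have h5 := (h4.tendsto.prodMk_nhds (continuous_snd.tendsto (x, y))).eventually
        ((isOpen_ne_fun continuous_fst continuous_snd).mem_nhds
        (show (nv x + P.ctr (a + 1), y) ∈ {w : E × E | w.1 ≠ w.2} from h3))
      filter_upwards [h5] with q hq
      rintro ⟨q1, q2⟩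
      rw [if_pos q1, raw_parent] at q2
      exact hq q2
    · refine Eventually.of_forall fun q => ?_
      rintro ⟨⟨_, _, ⟨h, _⟩ | ⟨a, h, _⟩ | ⟨a, h, _⟩⟩, _⟩
      · exact h1 h
      · exact h2 ⟨a, h⟩
      · exact h3 ⟨a, h⟩

end Pool.Agent.TH227.TM
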