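import Pool.Agent.TH227.TM.TCode

/-!
Points of the manifold of a tree and their coordinates.
-/

open Set Filter Topology
open scoped ContDiff RealInnerProductSpace

namespace Pool.Agent.TH227.TM

open Pool.Agent.TH227.CM

variable {E : Type} [NormedAddCommGroup E] [InnerProductSpace ℝ E] {P : Fr E} {T : Set (List ℕ)}

/-- The manifold of a tree. -/
abbrev MT (P : Fr E) (T : Set (List ℕ)) : Type := (tcode P T).Pts

/-- The point `z` has the coordinate `x` in the chart of the node `s`. -/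
def rep (z : MT P T) (s : List ℕ) (x : E) : Prop := (en.symm s, x) ∈ z.val

theorem tV (s t : List ℕ) : (tcode P T).V (en.symm s) (en.symm t) = VV P T s t := by
  show VV P T (en (en.symm s)) (en (en.symm t)) = _
  rw [Equiv.apply_symm_apply, Equiv.apply_symm_apply]

open Classical in
theorem tφ {s t : List ℕ} {x : E} (hx : x ∈ VV P T s t) :
    (tcode P T).φ (en.symm s) (en.symm t) x = raw P s t x := by
  show (if x ∈ VV P T (en (en.symm s)) (en (en.symm t)) then
    raw P (en (en.symm s)) (en (en.symm t)) x else 0) = _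
  rw [Equiv.apply_symm_apply, Equiv.apply_symm_apply]
  exact if_pos hx

variable {z w : MT P T} {s t : List ℕ} {x y : E}

theorem rep_iff : rep z s x ↔ (s ∈ T ∧ x ∈ Dm P T s) ∧ z.val = cls (tcode P T) (en.symm s) x := by
  unfold rep
  rw [mem_iff z.mem, ← vv_self, ← tV]

theorem rep_dm (h : rep z s x) : s ∈ T ∧ x ∈ Dm P T s := (rep_iff.1 h).1

theorem rep_exists (z : MT P T) : ∃ s x, rep z s x := by
  obtain ⟨i, x, h⟩ := (tcode P T).exists_idx z
  refine ⟨en i, x, ?_⟩
  unfold rep
  rw [Equiv.symm_apply_apply]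
  exact h

theorem rep_eq (h : rep z s x) (h' : rep w s x) : z = w :=
  Code.Pts.ext ((rep_iff.1 h).2.trans (rep_iff.1 h').2.symm)

theorem rep_rel (h : rep z s x) (h' : rep z t y) : x ∈ VV P T s t ∧ raw P s t x = y := by
  have h1 := rep_iff.1 h
  have h2 : (en.symm t, y) ∈ z.val := h'
  rw [h1.2] at h2
  obtain ⟨h3, h4⟩ := h2
  have h5 : x ∈ VV P T s t := by
    rw [← tV]
    exact h3
  refine ⟨h5, ?_⟩
  rw [← tφ h5]
  exact h4

theorem rep_move (h : rep z s x) (hx : x ∈ VV P T s t) : rep z t (raw P s t x) := by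
  show (en.symm t, raw P s t x) ∈ z.val
  rw [(rep_iff.1 h).2]
  refine ⟨?_, tφ hx⟩
  show x ∈ (tcode P T).V (en.symm s) (en.symm t)
  rw [tV]
  exact hx

theorem exists_pt (hs : s ∈ T) (hx : x ∈ Dm P T s) : ∃ z : MT P T, rep z s x := by
  have h1 : x ∈ (tcode P T).V (en.symm s) (en.symm s) := by
    rw [tV]
    exact vv_self.2 ⟨hs, hx⟩
  exact ⟨(tcode P T).mk' (en.symm s) ⟨x, h1⟩, mem_cls_self h1⟩

theorem rep_cases (h : rep z s x) (h' : rep z t y) : (t = s ∧ x = y) ∨
    (∃ a, t = a :: s ∧ x ∈ Ann (P.ctr (a + 1)) ∧ y = nv (x - P.ctr (a + 1))) ∨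
    (∃ a, s = a :: t ∧ x ∈ Ann (0 : E) ∧ y = nv x + P.ctr (a + 1)) := by
  obtain ⟨⟨_, _, ⟨rfl, h3⟩ | ⟨a, rfl, h3⟩ | ⟨a, rfl, h3⟩⟩, h5⟩ := rep_rel h h'
  · rw [raw_self] at h5
    exact Or.inl ⟨rfl, h5⟩
  · rw [raw_child] at h5
    exact Or.inr (Or.inl ⟨a, rfl, h3, h5.symm⟩)
  · rw [raw_parent] at h5
    exact Or.inr (Or.inr ⟨a, rfl, h3, h5.symm⟩)

/-- The points of the chart `s` with coordinates in `A`. -/
def ch (P : Fr E) (T : Set (List ℕ)) (s : List ℕ) (A : Set E) : Set (MT P T) :=
  {z | ∃ y ∈ A, rep z s y}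

theorem ch_open (s : List ℕ) {A : Set E} (hA : IsOpen A) : IsOpen (ch P T s A) :=
  (tcode P T).isOpen_chart (en.symm s) hA

theorem ch_eq (hs : s ∈ T) {A : Set E} (hA : A ⊆ Dm P T s) (z₀ : MT P T) :
    ch P T s A = ((tcode P T).chart (en.symm s) z₀).symm '' A ∧
      ContinuousOn ((tcode P T).chart (en.symm s) z₀).symm A := by
  have hV : ∀ x ∈ A, x ∈ (tcode P T).V (en.symm s) (en.symm s) := by
    intro x hx
    rw [tV]
    exact vv_self.2 ⟨hs, hA hx⟩
  constructor
  · ext z
    constructor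
    · rintro ⟨y, hy, hz⟩
      refine ⟨y, hy, ?_⟩
      rw [(tcode P T).chart_symm (hV y hy)]
      exact Code.Pts.ext (rep_iff.1 hz).2.symm
    · rintro ⟨y, hy, rfl⟩
      refine ⟨y, hy, ?_⟩
      rw [(tcode P T).chart_symm (hV y hy)]
      exact mem_cls_self (hV y hy)
  · refine ((tcode P T).chart (en.symm s) z₀).continuousOn_symm.mono ?_
    intro x hx
    exact hV x hx

theorem ch_empty (s : List ℕ) : ch P T s ∅ = ∅ := by
  ext z
  constructor
  · rintro ⟨y, hy, _⟩
    exact hy.elim
  · intro h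
    exact h.elim

theorem ch_preconnected (hs : s ∈ T) {A : Set E} (hA : A ⊆ Dm P T s) (hc : IsPreconnected A) :
    IsPreconnected (ch P T s A) := by
  rcases A.eq_empty_or_nonempty with rfl | ⟨x, hx⟩
  · rw [ch_empty]
    exact isPreconnected_empty
  · obtain ⟨z₀, _⟩ := exists_pt hs (hA hx)
    obtain ⟨h1, h2⟩ := ch_eq hs hA z₀
    rw [h1]
    exact hc.image _ h2

theorem ch_compact (hs : s ∈ T) {A : Set E} (hA : A ⊆ Dm P T s) (hc : IsCompact A) :
    IsCompact (ch P T s A) := by
  rcases A.eq_empty_or_nonempty with rfl | ⟨x, hx⟩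
  · rw [ch_empty]
    exact isCompact_empty
  · obtain ⟨z₀, _⟩ := exists_pt hs (hA hx)
    obtain ⟨h1, h2⟩ := ch_eq hs hA z₀
    rw [h1]
    exact hc.image_of_continuousOn h2

/-- The descendants of a node. -/
def UU (P : Fr E) (T : Set (List ℕ)) (s : List ℕ) : Set (MT P T) :=
  {z | ∃ t y, rep z t y ∧ s <:+ t ∧ (t = s → s ≠ [] → 1 < ‖y‖)}

theorem not_suffix_cons (a : ℕ) (s : List ℕ) : ¬ (a :: s) <:+ s := by
  intro h
  have := h.length_le
  simp at this

/-- Coordinates of one point belong to comparable nodes. -/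
theorem rep_comparable (h : rep z s x) (h' : rep z t y) : s <:+ t ∨ t <:+ s := by
  rcases rep_cases h h' with ⟨rfl, _⟩ | ⟨a, rfl, _⟩ | ⟨a, rfl, _⟩
  · exact Or.inl (List.suffix_refl _)
  · exact Or.inl (List.suffix_cons _ _)
  · exact Or.inr (List.suffix_cons _ _)

theorem rep_length (h : rep z s x) (h' : rep z t y) : t.length ≤ s.length + 1 := by
  rcases rep_cases h h' with ⟨rfl, _⟩ | ⟨a, rfl, _⟩ | ⟨a, rfl, _⟩ <;> simp
  omega

theorem UU_open (s : List ℕ) : IsOpen (UU P T s) := by
  have : UU P T s = ⋃ t ∈ {t | s <:+ t}, ch P T t {y | t = s → s ≠ [] → 1 < ‖y‖} := by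
    ext z
    simp only [mem_iUnion]
    constructor
    · rintro ⟨t, y, h1, h2, h3⟩
      exact ⟨t, h2, y, h3, h1⟩
    · rintro ⟨t, h2, y, h3, h1⟩
      exact ⟨t, y, h1, h2, h3⟩
  rw [this]
  refine isOpen_biUnion fun t _ => ch_open t ?_
  by_cases h1 : t = s
  · by_cases h2 : s = []
    · have : {y : E | t = s → s ≠ [] → 1 < ‖y‖} = univ := by
        ext y
        simp [h2]
      rw [this]
      exact isOpen_univ
    · have : {y : E | t = s → s ≠ [] → 1 < ‖y‖} = {y : E | 1 < ‖y‖} := by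
        ext y
        simp [h1, h2]
      rw [this]
      exact isOpen_lt continuous_const continuous_norm
  · have : {y : E | t = s → s ≠ [] → 1 < ‖y‖} = univ := by
      ext y
      simp [h1]
    rw [this]
    exact isOpen_univ

/-- The points which do not belong to the descendants of a node. -/
def UC (P : Fr E) (T : Set (List ℕ)) (s : List ℕ) : Set (MT P T) :=
  {z | ∃ t y, rep z t y ∧ ¬ s <:+ t ∧ ∀ a, s = a :: t → 1 < ‖y - P.ctr (a + 1)‖}

theorem UC_open (s : List ℕ) : IsOpen (UC P T s) := by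
  have : UC P T s = ⋃ t ∈ {t | ¬ s <:+ t}, ch P T t {y | ∀ a, s = a :: t → 1 < ‖y - P.ctr (a + 1)‖} := by
    ext z
    simp only [mem_iUnion]
    constructor
    · rintro ⟨t, y, h1, h2, h3⟩
      exact ⟨t, h2, y, h3, h1⟩
    · rintro ⟨t, h2, y, h3, h1⟩
      exact ⟨t, y, h1, h2, h3⟩
  rw [this]
  refine isOpen_biUnion fun t _ => ch_open t ?_
  by_cases h1 : ∃ a, s = a :: t
  · obtain ⟨a, rfl⟩ := h1
    have : {y : E | ∀ b, a :: t = b :: t → 1 < ‖y - P.ctr (b + 1)‖} =
        {y : E | 1 < ‖y - P.ctr (a + 1)‖} := by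
      ext y
      constructor
      · intro h
        exact h a rfl
      · intro h b hb
        rw [← (List.cons.inj hb).1]
        exact h
    rw [this]
    exact isOpen_lt continuous_const (by fun_prop)
  · have : {y : E | ∀ a, s = a :: t → 1 < ‖y - P.ctr (a + 1)‖} = univ := by
      ext y
      simp only [mem_ofPred_eq, mem_univ, iff_true]
      intro a ha
      exact absurd ⟨a, ha⟩ h1
    rw [this]
    exact isOpen_univ

theorem UU_UC (s : List ℕ) (hz : z ∈ UU P T s) (hz' : z ∈ UC P T s) : False := by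
  obtain ⟨t, y, h1, h2, h3⟩ := hz
  obtain ⟨t', y', h1', h2', h3'⟩ := hz'
  rcases rep_cases h1 h1' with ⟨rfl, _⟩ | ⟨a, rfl, _⟩ | ⟨a, rfl, h4, h5⟩
  · exact h2' h2
  · exact h2' (h2.trans (List.suffix_cons _ _))
  · rcases List.suffix_cons_iff.1 h2 with h | h
    · have h6 := h3 h.symm (by rw [h]; simp)
      have h7 := h3' a h
      rw [h5, add_sub_cancel_right] at h7
      have h8 : ‖nv y‖ < 1 := (nv_lt (ann_ne (ann_zero.1 h4).1)).2 h6
      linarith
    · exact h2' h

/-- The sphere which separates the descendants of `s`. -/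
theorem UU_cover (hT : IsTree T) (hs : s ∈ T) (hne : s ≠ []) (z : MT P T) :
    z ∈ UU P T s ∨ z ∈ UC P T s ∨ z ∈ ch P T s {y | ‖y‖ = 1} := by
  obtain ⟨t, y, h⟩ := rep_exists z
  by_cases h1 : s <:+ t
  · by_cases h2 : t = s
    · subst h2
      rcases lt_trichotomy ‖y‖ 1 with h3 | h3 | h3
      · right; left
        obtain ⟨a, t', rfl⟩ := List.exists_cons_of_ne_nil hne
        have h4 := (rep_dm h)
        have h5 : y ∈ Ann (0 : E) := ann_zero.2 ⟨h4.2.1 hne, by linarith⟩
        have h6 := rep_move h (vv_parent.2 ⟨hT.tail _ _ h4.1, h4.1, h5⟩)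
        rw [raw_parent] at h6
        refine ⟨t', _, h6, not_suffix_cons _ _, ?_⟩
        intro b hb
        rw [← (List.cons.inj hb).1, add_sub_cancel_right]
        exact (nv_gt (ann_ne (ann_zero.1 h5).1)).2 h3
      · exact Or.inr (Or.inr ⟨y, h3, h⟩)
      · exact Or.inl ⟨t, y, h, h1, fun _ _ => h3⟩
    · exact Or.inl ⟨t, y, h, h1, fun h3 => absurd h3 h2⟩
  · by_cases h2 : ∃ a, s = a :: t
    · obtain ⟨a, rfl⟩ := h2
      have h4 := rep_dm h
      have hc : 1 / 2 < ‖y - P.ctr (a + 1)‖ := h4.2.2 a hs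
      rcases lt_trichotomy ‖y - P.ctr (a + 1)‖ 1 with h3 | h3 | h3
      · left
        have h6 := rep_move h (vv_child.2 ⟨h4.1, hs, hc, by linarith⟩)
        rw [raw_child] at h6
        exact ⟨a :: t, _, h6, List.suffix_refl _, fun _ _ => (nv_gt (ann_ne hc)).2 h3⟩
      · right; right
        have h6 := rep_move h (vv_child.2 ⟨h4.1, hs, hc, by linarith⟩)
        rw [raw_child] at h6
        exact ⟨_, nv_eq.2 h3, h6⟩
      · right; left
        refine ⟨t, y, h, h1, ?_⟩
        intro b hb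
        rw [← (List.cons.inj hb).1]
        exact h3
    · right; left
      exact ⟨t, y, h, h1, fun a ha => absurd ⟨a, ha⟩ h2⟩

theorem sphere_dm : {y : E | ‖y‖ = 1} ⊆ Dm P T s := by
  intro y hy
  have hy' : ‖y‖ = 1 := hy
  exact ann_parent_dm (ann_zero.2 ⟨by rw [hy']; norm_num, by rw [hy']; norm_num⟩)

variable [FiniteDimensional ℝ E]

/-- The manifold of a tree is cut into pieces. -/
def tcut (P : Fr E) (hT : IsTree T) : Cut (MT P T) T where
  U s := UU P T s
  root := by
    rw [eq_univ_iff_forall]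
    intro z
    obtain ⟨t, y, h⟩ := rep_exists z
    exact ⟨t, y, h, List.nil_suffix, fun _ h => absurd rfl h⟩
  desc a s := by
    rintro z ⟨t, y, h1, h2, _⟩
    refine ⟨t, y, h1, (List.suffix_cons _ _).trans h2, ?_⟩
    rintro rfl
    exact absurd h2 (not_suffix_cons _ _)
  disj a b s hab := by
    rw [Set.disjoint_left]
    rintro z ⟨t, y, h1, h2, _⟩ ⟨t', y', h1', h2', _⟩
    have key : ∀ u, (a :: s) <:+ u → (b :: s) <:+ u → False := by
      intro u h3 h4
      rcases List.suffix_or_suffix_of_suffix h3 h4 with h | h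
      · have := h.eq_of_length (by simp)
        exact hab (List.cons.inj this).1
      · have := h.eq_of_length (by simp)
        exact hab (List.cons.inj this).1.symm
    rcases rep_comparable h1 h1' with h | h
    · exact key t' (h2.trans h) h2'
    · exact key t h2 (h2'.trans h)
  sep s hs := by
    by_cases hne : s = []
    · refine ⟨∅, isCompact_empty, fun D _ _ => Or.inl ?_⟩
      rintro z _
      obtain ⟨t, y, h⟩ := rep_exists z
      subst hne
      exact ⟨t, y, h, List.nil_suffix, fun _ h => absurd rfl h⟩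
    · have : ProperSpace E := FiniteDimensional.proper_real E
      refine ⟨ch P T s {y | ‖y‖ = 1}, ch_compact hs sphere_dm ?_, ?_⟩
      · have : {y : E | ‖y‖ = 1} = Metric.sphere 0 1 := by
          ext y
          simp
        rw [this]
        exact isCompact_sphere 0 1
      · intro D hD hdis
        have hcov : D ⊆ UU P T s ∪ UC P T s := by
          intro z hz
          rcases UU_cover hT hs hne z with h | h | h
          · exact Or.inl h
          · exact Or.inr h
          · exact absurd h (Set.disjoint_left.1 hdis hz)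
        have hemp : D ∩ (UU P T s ∩ UC P T s) = ∅ := by
          rw [eq_empty_iff_forall_notMem]
          rintro z ⟨_, h1, h2⟩
          exact UU_UC s h1 h2
        rcases isPreconnected_iff_subset_of_disjoint.1 hD _ _ (UU_open s) (UC_open s) hcov hemp
          with h | h
        · exact Or.inl h
        · right
          rw [Set.disjoint_left]
          intro z hz hz'
          exact UU_UC s hz' (h hz)

end Pool.Agent.TH227.TM
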